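import Mathlib
import Pool.Agent.H376R2.TT.Selwq

/-! Selberg weights for integers all whose prime factors lie in a set of primes. -/

open Finset

namespace Pool.Agent.D0H53.SQ

/-- primes up to `D` with the property `G` -/
noncomputable def PG (G : ℕ → Prop) (D : ℕ) : Finset ℕ := by
  classical exact (Icc 1 D).filter (fun p => p.Prime ∧ G p)

lemma mem_PG {G : ℕ → Prop} {D p : ℕ} : p ∈ PG G D ↔ p ≤ D ∧ p.Prime ∧ G p := by
  classical
  unfold PG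
  rw [mem_filter, mem_Icc]
  constructor
  · rintro ⟨⟨_, h1⟩, h2, h3⟩; exact ⟨h1, h2, h3⟩
  · rintro ⟨h1, h2, h3⟩; exact ⟨⟨h2.one_lt.le, h1⟩, h2, h3⟩

/-- Euler product -/
noncomputable def VG (G : ℕ → Prop) (D : ℕ) : ℝ := ∏ p ∈ PG G D, (1 - 1 / (p:ℝ))⁻¹

lemma fac_pos {p : ℕ} (hp : p.Prime) : 0 < 1 - 1 / (p:ℝ) := by
  have : (1:ℝ) < p := by exact_mod_cast hp.one_lt
  rw [sub_pos, div_lt_one (by linarith)]
  exact this

lemma fac_one_le {p : ℕ} (hp : p.Prime) : 1 ≤ (1 - 1 / (p:ℝ))⁻¹ := by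
  apply one_le_inv_iff₀.mpr
  refine ⟨fac_pos hp, ?_⟩
  have : 0 ≤ 1 / (p:ℝ) := by positivity
  linarith

lemma VG_one_le (G : ℕ → Prop) (D : ℕ) : 1 ≤ VG G D := by
  unfold VG
  calc (1:ℝ) = ∏ p ∈ PG G D, 1 := by rw [prod_const_one]
    _ ≤ _ := prod_le_prod (fun _ _ => zero_le_one) (fun p hp => fac_one_le (mem_PG.mp hp).2.1)

lemma VG_pos (G : ℕ → Prop) (D : ℕ) : 0 < VG G D := lt_of_lt_of_le one_pos (VG_one_le G D)

lemma VG_mono (G : ℕ → Prop) {D D' : ℕ} (h : D ≤ D') : VG G D ≤ VG G D' := by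
  classical
  unfold VG
  have hsub : PG G D ⊆ PG G D' := by
    intro p hp
    rw [mem_PG] at hp ⊢
    exact ⟨hp.1.trans h, hp.2⟩
  rw [← prod_sdiff hsub]
  have h1 : (1:ℝ) ≤ ∏ p ∈ PG G D' \ PG G D, (1 - 1 / (p:ℝ))⁻¹ := by
    calc (1:ℝ) = ∏ p ∈ PG G D' \ PG G D, 1 := by rw [prod_const_one]
      _ ≤ _ := prod_le_prod (fun _ _ => zero_le_one) (fun p hp => fac_one_le (mem_PG.mp (mem_sdiff.mp hp).1).2.1)
  have h2 := (VG_pos G D).le
  unfold VG at h2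
  exact le_mul_of_one_le_left h2 h1

/-- removing a finite set of primes -/
lemma VG_remove (G : ℕ → Prop) (T : Finset ℕ) (hT : ∀ p ∈ T, p.Prime ∧ G p) {D : ℕ} (hD : ∀ p ∈ T, p ≤ D) :
    VG (fun p => G p ∧ p ∉ T) D = VG G D * ∏ p ∈ T, (1 - 1 / (p:ℝ)) := by
  classical
  have h1 : PG G D = PG (fun p => G p ∧ p ∉ T) D ∪ T := by
    ext p
    rw [mem_union, mem_PG, mem_PG]
    constructor
    · rintro ⟨h1, h2, h3⟩
      by_cases h : p ∈ T
      · exact Or.inr h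
      · exact Or.inl ⟨h1, h2, h3, h⟩
    · rintro (⟨h1, h2, h3, _⟩ | h)
      · exact ⟨h1, h2, h3⟩
      · exact ⟨hD p h, (hT p h).1, (hT p h).2⟩
  have h2 : Disjoint (PG (fun p => G p ∧ p ∉ T) D) T := by
    rw [disjoint_left]
    intro p hp hp2
    exact (mem_PG.mp hp).2.2.2 hp2
  unfold VG
  rw [h1, prod_union h2, mul_assoc, ← prod_mul_distrib]
  have h3 : ∏ p ∈ T, ((1 - 1 / (p:ℝ))⁻¹ * (1 - 1 / (p:ℝ))) = 1 := by
    apply prod_eq_one
    intro p hp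
    exact inv_mul_cancel₀ (fac_pos (hT p hp).1).ne'
  rw [h3, mul_one]

/-- the product of the primes -/
noncomputable def qG (G : ℕ → Prop) (D : ℕ) : ℕ := ∏ p ∈ PG G D, p

lemma qG_pos (G : ℕ → Prop) (D : ℕ) : 1 ≤ qG G D := by
  unfold qG
  exact Finset.prod_pos (fun p hp => (mem_PG.mp hp).2.1.pos)

lemma qG_ratio (G : ℕ → Prop) (D : ℕ) : ((qG G D : ℕ) : ℝ) / Nat.totient (qG G D) = VG G D := by
  classical
  unfold qG VG
  have key : ∀ T : Finset ℕ, (∀ p ∈ T, p.Prime) → (((∏ p ∈ T, p : ℕ) : ℕ) : ℝ) / Nat.totient (∏ p ∈ T, p) = ∏ p ∈ T, (1 - 1 / (p:ℝ))⁻¹ := by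
    intro T
    induction T using Finset.induction_on with
    | empty => intro _; simp
    | insert a s ha ih =>
      intro hT
      have hap := hT a (mem_insert_self _ _)
      have ih' := ih (fun p hp => hT p (mem_insert_of_mem hp))
      rw [prod_insert ha, prod_insert ha, ← ih']
      have hc : Nat.Coprime a (∏ p ∈ s, p) := by
        apply Nat.Coprime.prod_right
        intro p hp
        rw [Nat.coprime_primes hap (hT p (mem_insert_of_mem hp))]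
        rintro rfl
        exact ha hp
      rw [Nat.totient_mul hc, Nat.totient_prime hap]
      have ha1 : (1:ℝ) < a := by exact_mod_cast hap.one_lt
      have e1 : ((a - 1 : ℕ) : ℝ) = (a:ℝ) - 1 := by rw [Nat.cast_sub hap.one_lt.le, Nat.cast_one]
      have hpos : 0 < ∏ p ∈ s, p := Finset.prod_pos (fun p hp => (hT p (mem_insert_of_mem hp)).pos)
      have ht : (0:ℝ) < Nat.totient (∏ p ∈ s, p) := by exact_mod_cast Nat.totient_pos.mpr hpos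
      rw [Nat.cast_mul, Nat.cast_mul, e1]
      have e2 : (1 - 1 / (a:ℝ))⁻¹ = a / ((a:ℝ) - 1) := by
        have : (a:ℝ) - 1 ≠ 0 := by linarith
        field_simp
      rw [e2]
      rw [mul_div_mul_comm]
  exact key _ (fun p hp => (mem_PG.mp hp).2.1)

/-- the squared divisor sum -/
noncomputable def wt (l : ℕ → ℝ) (D n : ℕ) : ℝ := (∑ d ∈ Icc 1 D, if d ∣ n then l d else 0)^2

lemma wt_expand (l : ℕ → ℝ) (D n : ℕ) :
    wt l D n = ∑ d ∈ Icc 1 D, ∑ e ∈ Icc 1 D, l d * l e * (if Nat.lcm d e ∣ n then 1 else 0) := by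
  unfold wt
  rw [sq, sum_mul_sum]
  apply sum_congr rfl; intro d _
  apply sum_congr rfl; intro e _
  by_cases h1 : d ∣ n
  · by_cases h2 : e ∣ n
    · rw [if_pos h1, if_pos h2, if_pos (Nat.lcm_dvd h1 h2), mul_one]
    · rw [if_neg h2, mul_zero, if_neg (fun h => h2 ((Nat.dvd_lcm_right d e).trans h)), mul_zero]
  · rw [if_neg h1, zero_mul, if_neg (fun h => h1 ((Nat.dvd_lcm_left d e).trans h)), mul_zero]

lemma wt_sum (l : ℕ → ℝ) (D X : ℕ) (F : ℕ → ℂ) :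
    ∑ n ∈ Icc 1 X, ((wt l D n : ℝ) : ℂ) * F n =
      ∑ d ∈ Icc 1 D, ∑ e ∈ Icc 1 D, ((l d * l e : ℝ) : ℂ) * ∑ n ∈ Icc 1 X, (if Nat.lcm d e ∣ n then F n else 0) := by
  have h1 : ∀ n ∈ Icc 1 X, ((wt l D n : ℝ) : ℂ) * F n =
      ∑ d ∈ Icc 1 D, ∑ e ∈ Icc 1 D, ((l d * l e : ℝ) : ℂ) * (if Nat.lcm d e ∣ n then F n else 0) := by
    intro n _
    rw [wt_expand]
    push_cast
    rw [sum_mul]
    apply sum_congr rfl; intro d _
    rw [sum_mul]
    apply sum_congr rfl; intro e _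
    split_ifs <;> simp
  rw [sum_congr rfl h1, sum_comm]
  apply sum_congr rfl; intro d _
  rw [sum_comm]
  apply sum_congr rfl; intro e _
  rw [mul_sum]

lemma wt_es {l : ℕ → ℝ} (hl : ∀ d, |l d| ≤ 1) (D X : ℕ) (F : ℕ → ℂ) {B : ℝ}
    (hB : ∀ δ : ℕ, 1 ≤ δ → δ ≤ D^2 → ‖∑ n ∈ Icc 1 X, (if δ ∣ n then F n else 0)‖ ≤ B) :
    ‖∑ n ∈ Icc 1 X, ((wt l D n : ℝ) : ℂ) * F n‖ ≤ (D:ℝ)^2 * B := by
  rw [wt_sum]
  calc _ ≤ ∑ d ∈ Icc 1 D, ∑ e ∈ Icc 1 D, B := by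
        refine (norm_sum_le _ _).trans (sum_le_sum fun d hd => ?_)
        refine (norm_sum_le _ _).trans (sum_le_sum fun e he => ?_)
        rw [mem_Icc] at hd he
        rw [norm_mul, Complex.norm_real, Real.norm_eq_abs, abs_mul]
        have h1 : |l d| * |l e| ≤ 1 * 1 := mul_le_mul (hl d) (hl e) (abs_nonneg _) zero_le_one
        have hlcm1 : 1 ≤ Nat.lcm d e := Nat.lcm_pos (by omega) (by omega)
        have hlcm2 : Nat.lcm d e ≤ D^2 := by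
          refine (Nat.lcm_le_mul (by omega) (by omega)).trans ?_
          rw [sq]; exact Nat.mul_le_mul hd.2 he.2
        have h2 := hB _ hlcm1 hlcm2
        calc |l d| * |l e| * ‖∑ n ∈ Icc 1 X, (if Nat.lcm d e ∣ n then F n else 0)‖ ≤ 1 * 1 * B :=
              mul_le_mul h1 h2 (norm_nonneg _) (by norm_num)
          _ = B := by ring
    _ = _ := by
        rw [sum_const, sum_const, Nat.card_Icc, nsmul_eq_mul, nsmul_eq_mul, Nat.add_sub_cancel]; ring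

lemma wt_mean {l : ℕ → ℝ} (hl : ∀ d, |l d| ≤ 1) (D X : ℕ) :
    ∑ n ∈ Icc 1 X, wt l D n ≤ X * (∑ d ∈ Icc 1 D, ∑ e ∈ Icc 1 D, l d * l e / (Nat.lcm d e : ℝ)) + (D:ℝ)^2 := by
  have h1 : ∑ n ∈ Icc 1 X, wt l D n = ∑ d ∈ Icc 1 D, ∑ e ∈ Icc 1 D, l d * l e * ((X / Nat.lcm d e : ℕ) : ℝ) := by
    rw [sum_congr rfl (fun n _ => wt_expand l D n), sum_comm]
    apply sum_congr rfl; intro d _
    rw [sum_comm]
    apply sum_congr rfl; intro e _
    rw [← mul_sum]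
    congr 1
    rw [← Finset.sum_filter, Finset.sum_const, nsmul_eq_mul, mul_one]
    congr 1
    have : Icc 1 X = Ioc 0 X := by ext x; simp only [mem_Icc, mem_Ioc]; omega
    rw [this, Nat.Ioc_filter_dvd_card_eq_div]
  rw [h1]
  have h2 : ∀ d ∈ Icc 1 D, ∀ e ∈ Icc 1 D, l d * l e * ((X / Nat.lcm d e : ℕ) : ℝ) ≤ X * (l d * l e / (Nat.lcm d e : ℝ)) + 1 := by
    intro d hd e he
    rw [mem_Icc] at hd he
    have hlcm1 : 1 ≤ Nat.lcm d e := Nat.lcm_pos (by omega) (by omega)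
    have hlr : (0:ℝ) < (Nat.lcm d e : ℝ) := by exact_mod_cast hlcm1
    set L := Nat.lcm d e with hL
    have h3 : ((X / L : ℕ) : ℝ) ≤ (X:ℝ) / L := Nat.cast_div_le
    have h4 : (X:ℝ) / L ≤ ((X / L : ℕ) : ℝ) + 1 := by
      rw [div_le_iff₀ hlr]
      have h5 := Nat.div_add_mod X L
      have h6 := Nat.mod_lt X (show L > 0 from hlcm1)
      have h7 : X ≤ (X / L + 1) * L := by nlinarith
      have : ((X : ℕ):ℝ) ≤ (((X / L + 1) * L : ℕ):ℝ) := by exact_mod_cast h7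
      push_cast at this
      exact this
    set c := l d * l e with hc
    have hc1 : |c| ≤ 1 := by
      rw [hc, abs_mul]
      calc |l d| * |l e| ≤ 1 * 1 := mul_le_mul (hl d) (hl e) (abs_nonneg _) zero_le_one
        _ = 1 := one_mul 1
    have e1 : (X:ℝ) * (c / L) = c * ((X:ℝ) / L) := by ring
    rw [e1]
    have h8 : c * (((X / L : ℕ) : ℝ) - (X:ℝ) / L) ≤ 1 := by
      calc c * (((X / L : ℕ) : ℝ) - (X:ℝ) / L) ≤ |c * (((X / L : ℕ) : ℝ) - (X:ℝ) / L)| := le_abs_self _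
        _ = |c| * |((X / L : ℕ) : ℝ) - (X:ℝ) / L| := abs_mul _ _
        _ ≤ 1 * 1 := by
            apply mul_le_mul hc1 _ (abs_nonneg _) zero_le_one
            rw [abs_le]; constructor <;> linarith
        _ = 1 := one_mul 1
    linarith
  calc _ ≤ ∑ d ∈ Icc 1 D, ∑ e ∈ Icc 1 D, (X * (l d * l e / (Nat.lcm d e : ℝ)) + 1) :=
        sum_le_sum fun d hd => sum_le_sum fun e he => h2 d hd e he
    _ = _ := by
        simp only [sum_add_distrib, ← mul_sum, sum_const, Nat.card_Icc, nsmul_eq_mul, Nat.add_sub_cancel]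
        ring

lemma wt_one {l : ℕ → ℝ} {q D : ℕ} (hl1 : l 1 = 1) (hq : ∀ d, ¬ d.Coprime q → l d = 0) (hD : 1 ≤ D) {s : ℕ} (hs : 1 ≤ s)
    (h : ∀ p : ℕ, p.Prime → p ∣ s → p ≤ D → p ∣ q) : wt l D s = 1 := by
  unfold wt
  have h1 : ∑ d ∈ Icc 1 D, (if d ∣ s then l d else 0) = ∑ d ∈ Icc 1 D, (if d = 1 then 1 else 0) := by
    apply sum_congr rfl
    intro d hd
    rw [mem_Icc] at hd
    by_cases h1 : d = 1
    · subst h1; simp [hl1]
    · rw [if_neg h1]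
      by_cases h2 : d ∣ s
      · rw [if_pos h2]
        apply hq
        intro hc
        obtain ⟨p, hp, hpd⟩ := Nat.exists_prime_and_dvd h1
        have hpD : p ≤ D := (Nat.le_of_dvd (by omega) hpd).trans hd.2
        have := h p hp (hpd.trans h2) hpD
        exact Nat.Prime.not_coprime_iff_dvd.mpr ⟨p, hp, hpd, this⟩ hc
      · rw [if_neg h2]
  rw [h1, sum_ite_eq' , if_pos (by rw [mem_Icc]; exact ⟨le_rfl, hD⟩)]
  norm_num

/-- the weights -/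
theorem weights (G : ℕ → Prop) {D : ℕ} (hD : 2 ≤ D) : ∃ w : ℕ → ℝ, (∀ n, 0 ≤ w n) ∧
    (∀ s, 1 ≤ s → (∀ p : ℕ, p.Prime → p ∣ s → G p) → w s = 1) ∧
    (∀ X : ℕ, ∑ n ∈ Icc 1 X, w n ≤ X * (VG G D / Real.log D) + (D:ℝ)^2) ∧
    (∀ (X : ℕ) (F : ℕ → ℂ) (B : ℝ), (∀ δ : ℕ, 1 ≤ δ → δ ≤ D^2 → ‖∑ n ∈ Icc 1 X, (if δ ∣ n then F n else 0)‖ ≤ B) →
      ‖∑ n ∈ Icc 1 X, ((w n : ℝ) : ℂ) * F n‖ ≤ (D:ℝ)^2 * B) := by
  obtain ⟨l, l1, l2, l3, l4, l5, l6, l7⟩ := Pool.Agent.H376R2.TT.sel_weights_q (qG G D) (qG_pos G D) D hD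
  refine ⟨wt l D, fun n => sq_nonneg _, ?_, ?_, ?_⟩
  · intro s hs h
    apply wt_one l1 l5 (by omega) hs
    intro p hp hps hpD
    unfold qG
    exact Finset.dvd_prod_of_mem _ (mem_PG.mpr ⟨hpD, hp, h p hp hps⟩)
  · intro X
    refine (wt_mean l2 D X).trans ?_
    rw [qG_ratio] at l7
    have : (X:ℝ) * (∑ d ∈ Icc 1 D, ∑ e ∈ Icc 1 D, l d * l e / (Nat.lcm d e : ℝ)) ≤ X * (VG G D / Real.log D) :=
      mul_le_mul_of_nonneg_left l7 (Nat.cast_nonneg X)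
    linarith
  · intro X F B hB
    exact wt_es l2 D X F hB

end Pool.Agent.D0H53.SQ
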