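import Mathlib
import Pool.Agent.W24.CP.SC
import Pool.Agent.D0H53.SQ.W

/-! Explicit bounds for `∑ e(h√n + βn)` over integers, with divisibility conditions and with sieve weights. -/

open Finset
open Pool.Agent.H469R2.NK
open Pool.Agent.W24.CP

namespace Pool.Agent.D0H53.SQ

/-- complete sums with an explicit constant -/
lemma full_es {h : ℝ} (hh : h ≠ 0) (β : ℝ) (M : ℕ) (hM : 1 ≤ M) :
    ‖∑ n ∈ Icc 1 M, e (h * √(n:ℝ) + β * n)‖ ≤ 718 * √(1/|h| + |h|) * (M:ℝ) ^ (7/8:ℝ) := by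
  have ha : 0 < |h| := abs_pos.mpr hh
  set D : ℝ := √(524 * 5 * (1/|h| + |h|)) with hD
  have key := total_of_block (fun n => e (h * √(n:ℝ) + β * n)) (C := 2 * D) (δ := 1/8) (by positivity) (by norm_num) (by norm_num)
    (by
      intro N N' hN hNN' hN'
      have hN0 : (1:ℝ) ≤ N := by exact_mod_cast hN
      have h1 := kerIabs hh β N N' (by omega)
      set A : ℝ := ((N + 1 : ℕ):ℝ) with hA
      have hA1 : 1 ≤ A := by rw [hA]; push_cast; linarith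
      have hA0 : 0 < A := by linarith
      have hs1 : 1 ≤ √A := by rw [Real.one_le_sqrt]; exact hA1
      have hs3 : √A ^ 3 = A ^ (3/2:ℝ) := by
        rw [Real.sqrt_eq_rpow, ← Real.rpow_natCast, ← Real.rpow_mul hA0.le]; norm_num
      have h2 : √A ^ 3 / |h| + |h| * √A ≤ (1/|h| + |h|) * A ^ (3/2:ℝ) := by
        rw [← hs3]
        have : √A ≤ √A ^ 3 := by
          calc √A = √A ^ 1 := (pow_one _).symm
            _ ≤ √A ^ 3 := pow_le_pow_right₀ hs1 (by norm_num)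
        have h3 : |h| * √A ≤ |h| * √A ^ 3 := mul_le_mul_of_nonneg_left this ha.le
        have h4 : √A ^ 3 / |h| = 1/|h| * √A ^ 3 := by ring
        rw [h4, add_mul]; linarith
      have h3 := SC.log_le_quarter hA1
      have hl0 : 0 ≤ Real.log A := Real.log_nonneg hA1
      have h4 : ‖∑ n ∈ Ioc N N', e (h * √(n:ℝ) + β * n)‖^2 ≤ (D * A ^ (7/8:ℝ))^2 := by
        refine h1.trans ?_
        calc 524 * ((√A ^ 3 / |h| + |h| * √A) * (1 + Real.log A)) ≤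
              524 * (((1/|h| + |h|) * A ^ (3/2:ℝ)) * (5 * A ^ (1/4:ℝ))) := by gcongr
          _ = (524 * 5 * (1/|h| + |h|)) * (A ^ (3/2:ℝ) * A ^ (1/4:ℝ)) := by ring
          _ = D^2 * (A ^ (7/8:ℝ))^2 := by
              rw [hD, Real.sq_sqrt (by positivity), ← Real.rpow_add hA0, ← Real.rpow_natCast, ← Real.rpow_mul hA0.le]
              norm_num
          _ = _ := by ring
      have h5 := (le_abs_self _).trans (abs_le_of_sq_le_sq h4 (by positivity))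
      refine h5.trans ?_
      have h6 : A ^ (7/8:ℝ) ≤ 2 * (N:ℝ) ^ (7/8:ℝ) := by
        calc A ^ (7/8:ℝ) ≤ (2 * (N:ℝ)) ^ (7/8:ℝ) := by
              apply Real.rpow_le_rpow hA0.le _ (by norm_num)
              rw [hA]; push_cast; linarith
          _ = (2:ℝ) ^ (7/8:ℝ) * (N:ℝ) ^ (7/8:ℝ) := Real.mul_rpow (by norm_num) (by linarith)
          _ ≤ 2 * (N:ℝ) ^ (7/8:ℝ) := by
              apply mul_le_mul_of_nonneg_right _ (by positivity)
              calc (2:ℝ) ^ (7/8:ℝ) ≤ (2:ℝ) ^ (1:ℝ) := Real.rpow_le_rpow_of_exponent_le (by norm_num) (by norm_num)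
                _ = 2 := by norm_num
      have h7 : (1:ℝ) - 1/8 = 7/8 := by norm_num
      rw [h7]
      calc D * A ^ (7/8:ℝ) ≤ D * (2 * (N:ℝ) ^ (7/8:ℝ)) := by gcongr
        _ = _ := by ring) M hM
  have h7 : (1:ℝ) - 1/8 = 7/8 := by norm_num
  rw [h7, norm_e] at key
  refine key.trans (mul_le_mul_of_nonneg_right ?_ (by positivity))
  set t := √(1/|h| + |h|) with ht
  have ht1 : 1 ≤ t := by
    rw [ht, Real.one_le_sqrt]
    have h8 : 2 ≤ 1/|h| + |h| := by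
      have : 1/|h| + |h| = (1 + |h|^2) / |h| := by field_simp
      rw [this, le_div_iff₀ ha]
      nlinarith [sq_nonneg (|h| - 1)]
    linarith
  have hDt : D ≤ 51.2 * t := by
    rw [hD, ht, Real.sqrt_mul (by norm_num)]
    apply mul_le_mul_of_nonneg_right _ (Real.sqrt_nonneg _)
    rw [Real.sqrt_le_left (by norm_num)]
    norm_num
  linarith

/-- with a divisibility condition -/
lemma dvd_es {h : ℝ} (hh : h ≠ 0) (β : ℝ) (X δ b : ℕ) (hδ : 1 ≤ δ) (hb : 1 ≤ b) :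
    ‖∑ n ∈ Icc 1 X, (if δ ∣ n then e (h * √((b * n : ℕ):ℝ) + β * n) else 0)‖ ≤
      718 * (√(1/|h| + |h|) * ((b:ℝ) * δ)) * (X:ℝ) ^ (7/8:ℝ) := by
  have ha : 0 < |h| := abs_pos.mpr hh
  have hδr : (1:ℝ) ≤ δ := by exact_mod_cast hδ
  have hbr : (1:ℝ) ≤ b := by exact_mod_cast hb
  rw [← sum_filter]
  have h1 : (Icc 1 X).filter (fun a => δ ∣ a) = (Icc 1 (X / δ)).image (fun k => δ * k) := by
    ext a
    rw [mem_filter, mem_image, mem_Icc]
    constructor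
    · rintro ⟨⟨h1, h2⟩, k, rfl⟩
      refine ⟨k, ?_, rfl⟩
      rw [mem_Icc, Nat.le_div_iff_mul_le (by omega)]
      constructor
      · exact Nat.pos_of_ne_zero (by rintro rfl; omega)
      · rw [mul_comm]; exact h2
    · rintro ⟨k, hk, rfl⟩
      rw [mem_Icc, Nat.le_div_iff_mul_le (by omega)] at hk
      refine ⟨⟨?_, ?_⟩, Dvd.intro _ rfl⟩
      · exact Nat.mul_pos hδ hk.1
      · rw [mul_comm]; exact hk.2
  rw [h1, sum_image (by
    intro x _ y _ hxy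
    exact Nat.eq_of_mul_eq_mul_left (by omega) hxy)]
  rcases Nat.eq_zero_or_pos (X / δ) with h0 | h0
  · rw [h0]
    simp only [Icc_eq_empty_of_lt Nat.zero_lt_one, sum_empty, norm_zero]
    positivity
  set s := √((b:ℝ) * δ) with hs
  have hs1 : 1 ≤ s := by
    rw [hs, Real.one_le_sqrt]; nlinarith
  have hh' : h * s ≠ 0 := mul_ne_zero hh (by linarith)
  have key := full_es hh' (β * δ) (X / δ) h0
  have e1 : ∑ k ∈ Icc 1 (X / δ), e (h * √((b * (δ * k) : ℕ):ℝ) + β * ((δ * k : ℕ):ℝ)) =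
      ∑ n ∈ Icc 1 (X / δ), e ((h * s) * √(n:ℝ) + (β * δ) * n) := by
    apply sum_congr rfl; intro k _
    congr 1
    have : (((b * (δ * k) : ℕ)):ℝ) = ((b:ℝ) * δ) * k := by push_cast; ring
    rw [this, Real.sqrt_mul (by positivity)]
    push_cast; ring
  rw [e1]
  refine key.trans ?_
  have h2 : √(1/|h * s| + |h * s|) ≤ √(1/|h| + |h|) * ((b:ℝ) * δ) := by
    have hbd : 1 ≤ (b:ℝ) * δ := by nlinarith
    have h3 : 1/|h * s| + |h * s| ≤ (1/|h| + |h|) * ((b:ℝ) * δ) := by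
      rw [abs_mul, abs_of_pos (by linarith : 0 < s)]
      have h4 : s ≤ (b:ℝ) * δ := by
        rw [hs, Real.sqrt_le_left (by positivity)]
        nlinarith
      have h5 : 1 / (|h| * s) ≤ 1 / |h| * ((b:ℝ) * δ) := by
        have h6 : 1 / (|h| * s) ≤ 1 / |h| := by
          apply one_div_le_one_div_of_le ha
          exact le_mul_of_one_le_right ha.le hs1
        have h7 : 1 / |h| * 1 ≤ 1 / |h| * ((b:ℝ) * δ) := mul_le_mul_of_nonneg_left hbd (by positivity)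
        linarith
      have h6 : |h| * s ≤ |h| * ((b:ℝ) * δ) := mul_le_mul_of_nonneg_left h4 ha.le
      rw [add_mul]; linarith
    calc √(1/|h * s| + |h * s|) ≤ √((1/|h| + |h|) * ((b:ℝ) * δ)) := Real.sqrt_le_sqrt h3
      _ = √(1/|h| + |h|) * √((b:ℝ) * δ) := Real.sqrt_mul (by positivity) _
      _ ≤ √(1/|h| + |h|) * ((b:ℝ) * δ) := by
          apply mul_le_mul_of_nonneg_left _ (Real.sqrt_nonneg _)
          rw [Real.sqrt_le_left (by positivity)]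
          nlinarith
  have h3 : ((X / δ : ℕ):ℝ) ^ (7/8:ℝ) ≤ (X:ℝ) ^ (7/8:ℝ) := by
    apply Real.rpow_le_rpow (Nat.cast_nonneg _) _ (by norm_num)
    exact_mod_cast Nat.div_le_self _ _
  calc 718 * √(1/|h * s| + |h * s|) * ((X / δ : ℕ):ℝ) ^ (7/8:ℝ) ≤
        718 * (√(1/|h| + |h|) * ((b:ℝ) * δ)) * (X:ℝ) ^ (7/8:ℝ) := by
        have : 0 ≤ √(1/|h * s| + |h * s|) := Real.sqrt_nonneg _
        gcongr
    _ = _ := by ring

/-- with the weights -/
theorem w_es {w : ℕ → ℝ} {D : ℕ} (hD : 1 ≤ D)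
    (hw : ∀ (X : ℕ) (F : ℕ → ℂ) (B : ℝ), (∀ δ : ℕ, 1 ≤ δ → δ ≤ D^2 → ‖∑ n ∈ Icc 1 X, (if δ ∣ n then F n else 0)‖ ≤ B) →
      ‖∑ n ∈ Icc 1 X, ((w n : ℝ) : ℂ) * F n‖ ≤ (D:ℝ)^2 * B)
    {h : ℝ} (hh : h ≠ 0) (β : ℝ) (X b : ℕ) (hb : 1 ≤ b) (hb2 : b ≤ D^5) :
    ‖∑ n ∈ Icc 1 X, ((w n : ℝ) : ℂ) * e (h * √((b * n : ℕ):ℝ) + β * n)‖ ≤
      718 * √(1/|h| + |h|) * (D:ℝ)^9 * (X:ℝ) ^ (7/8:ℝ) := by
  have hDr : (1:ℝ) ≤ D := by exact_mod_cast hD
  have h1 := hw X (fun n => e (h * √((b * n : ℕ):ℝ) + β * n)) (718 * (√(1/|h| + |h|) * ((D:ℝ)^5 * (D:ℝ)^2)) * (X:ℝ) ^ (7/8:ℝ)) (by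
    intro δ hδ1 hδ2
    refine (dvd_es hh β X δ b hδ1 hb).trans ?_
    have h2 : (b:ℝ) ≤ (D:ℝ)^5 := by exact_mod_cast hb2
    have h3 : (δ:ℝ) ≤ (D:ℝ)^2 := by exact_mod_cast hδ2
    gcongr)
  refine h1.trans (le_of_eq ?_)
  ring

end Pool.Agent.D0H53.SQ
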