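import Mathlib
import Pool.Agent.D0H53.SQ.W

/-! Every integer is `a²c³s` with `s` squarefree and prime to the rest; the covering inequality. -/

open Finset

namespace Pool.Agent.D0H53.SQ

lemma dec {n : ℕ} (hn : 1 ≤ n) : ∃ a c s : ℕ, 1 ≤ a ∧ 1 ≤ c ∧ 1 ≤ s ∧ n = a^2 * c^3 * s ∧
    ∀ p : ℕ, p.Prime → p ∣ s → ¬ p^2 ∣ n := by
  obtain ⟨m, b, hbm, hsq⟩ := Nat.sq_mul_squarefree n
  have hm0 : 0 < m := Nat.pos_of_ne_zero (by rintro rfl; omega)
  have hb0 : 0 < b := Nat.pos_of_ne_zero (by rintro rfl; omega)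
  set c := Nat.gcd m b with hc
  have hc0 : 0 < c := Nat.gcd_pos_of_pos_left _ hm0
  obtain ⟨s, hs⟩ : c ∣ m := Nat.gcd_dvd_left _ _
  obtain ⟨a, ha⟩ : c ∣ b := Nat.gcd_dvd_right _ _
  have hs0 : 0 < s := Nat.pos_of_ne_zero (by rintro rfl; rw [mul_zero] at hs; omega)
  have ha0 : 0 < a := Nat.pos_of_ne_zero (by rintro rfl; rw [mul_zero] at ha; omega)
  refine ⟨a, c, s, ha0, hc0, hs0, ?_, ?_⟩
  · rw [← hbm, ha, hs]; ring
  · intro p hp hps hp2
    have hpm : p ∣ m := hps.trans ⟨c, by rw [hs]; ring⟩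
    have hpb : ¬ p ∣ b := by
      intro h
      have hpc : p ∣ c := Nat.dvd_gcd hpm h
      have h2 : p * p ∣ m := by rw [hs]; exact Nat.mul_dvd_mul hpc hps
      exact hp.one_lt.ne' (Nat.isUnit_iff.mp (hsq p h2))
    have hcop : Nat.Coprime (p^2) (b^2) := Nat.Coprime.pow 2 2 ((Nat.Prime.coprime_iff_not_dvd hp).mpr hpb)
    rw [← hbm] at hp2
    have h3 : p^2 ∣ m := hcop.dvd_of_dvd_mul_left hp2
    rw [sq] at h3
    exact hp.one_lt.ne' (Nat.isUnit_iff.mp (hsq p h3))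

open Classical in
lemma bad_card (X : ℕ) {A : ℕ} (hA : 1 ≤ A) :
    ((((Icc 1 X).filter (fun n => ∃ a : ℕ, A < a ∧ a^2 ∣ n)).card : ℕ) : ℝ) ≤ X / A := by
  have hA0 : (0:ℝ) < A := by exact_mod_cast hA
  rcases Nat.lt_or_ge X A with h | h
  · have : (Icc 1 X).filter (fun n => ∃ a : ℕ, A < a ∧ a^2 ∣ n) = ∅ := by
      apply filter_eq_empty_iff.mpr
      rintro n hn ⟨a, ha, han⟩
      rw [mem_Icc] at hn
      have := Nat.le_of_dvd (by omega) han
      nlinarith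
    rw [this, card_empty]
    simp only [Nat.cast_zero]
    positivity
  · have hsub : (Icc 1 X).filter (fun n => ∃ a : ℕ, A < a ∧ a^2 ∣ n) ⊆
        (Ioc A X).biUnion (fun a => (Ioc 0 X).filter (fun n => a^2 ∣ n)) := by
      intro n hn
      rw [mem_filter, mem_Icc] at hn
      obtain ⟨⟨h1, h2⟩, a, ha, han⟩ := hn
      rw [mem_biUnion]
      have h3 := Nat.le_of_dvd (by omega) han
      refine ⟨a, ?_, ?_⟩
      · rw [mem_Ioc]; constructor
        · exact ha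
        · nlinarith
      · rw [mem_filter, mem_Ioc]; exact ⟨⟨by omega, h2⟩, han⟩
    have h1 : ((Icc 1 X).filter (fun n => ∃ a : ℕ, A < a ∧ a^2 ∣ n)).card ≤ ∑ a ∈ Ioc A X, X / a^2 := by
      refine (card_le_card hsub).trans (card_biUnion_le.trans (sum_le_sum fun a _ => ?_))
      rw [Nat.Ioc_filter_dvd_card_eq_div]
    calc ((((Icc 1 X).filter (fun n => ∃ a : ℕ, A < a ∧ a^2 ∣ n)).card : ℕ) : ℝ) ≤ ((∑ a ∈ Ioc A X, X / a^2 : ℕ) : ℝ) := by exact_mod_cast h1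
      _ = ∑ a ∈ Ioc A X, ((X / a^2 : ℕ):ℝ) := by push_cast; rfl
      _ ≤ ∑ a ∈ Ioc A X, X * ((a:ℝ)^2)⁻¹ := by
          apply sum_le_sum; intro a _
          refine Nat.cast_div_le.trans (le_of_eq ?_)
          push_cast; rw [div_eq_mul_inv]
      _ = X * ∑ a ∈ Ioc A X, ((a:ℝ)^2)⁻¹ := by rw [mul_sum]
      _ ≤ X * ((A:ℝ)⁻¹ - (X:ℝ)⁻¹) := by
          apply mul_le_mul_of_nonneg_left _ (Nat.cast_nonneg X)
          exact sum_Ioc_inv_sq_le_sub (by omega) h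
      _ ≤ X * (A:ℝ)⁻¹ := by
          apply mul_le_mul_of_nonneg_left _ (Nat.cast_nonneg X)
          have : 0 ≤ (X:ℝ)⁻¹ := by positivity
          linarith
      _ = X / A := by rw [div_eq_mul_inv]

open Classical in
/-- the covering inequality -/
theorem cover {R : ℕ → Prop} {Q : ℕ → ℕ → Prop} {G : ℕ → Prop}
    (hR : ∀ a c s : ℕ, 1 ≤ a → 1 ≤ c → 1 ≤ s → R (a^2 * c^3 * s) → (∀ p : ℕ, p.Prime → p ∣ s → ¬ p^2 ∣ a^2 * c^3 * s) →
      Q a c ∧ ∀ p : ℕ, p.Prime → p ∣ s → G p)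
    {w : ℕ → ℝ} (hw0 : ∀ n, 0 ≤ w n) (hw1 : ∀ s, 1 ≤ s → (∀ p : ℕ, p.Prime → p ∣ s → G p) → w s = 1)
    {X A : ℕ} (hA : 1 ≤ A) {f : ℕ → ℝ} (hf : ∀ n, 0 ≤ f n) {K : ℝ} (hK : ∀ n, n ≤ X → f n ≤ K) :
    ∑ n ∈ (Icc 1 X).filter R, f n ≤
      ∑ a ∈ Icc 1 A, ∑ c ∈ Icc 1 A, (if Q a c then ∑ s ∈ Icc 1 (X / (a^2 * c^3)), w s * f (a^2 * c^3 * s) else 0) + X / A * K := by
  have hA0 : (0:ℝ) < A := by exact_mod_cast hA
  have hK0 : 0 ≤ K := (hf 0).trans (hK 0 (Nat.zero_le X))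
  set bad : ℕ → Prop := fun n => ∃ a : ℕ, A < a ∧ a^2 ∣ n with hbad
  -- split
  have h0 : ∑ n ∈ (Icc 1 X).filter R, f n = ∑ n ∈ ((Icc 1 X).filter R).filter (fun n => ¬ bad n), f n +
      ∑ n ∈ ((Icc 1 X).filter R).filter bad, f n := by
    rw [add_comm]
    exact (sum_filter_add_sum_filter_not _ _ _).symm
  rw [h0]
  have hb : ∑ n ∈ ((Icc 1 X).filter R).filter bad, f n ≤ X / A * K := by
    calc ∑ n ∈ ((Icc 1 X).filter R).filter bad, f n ≤ ∑ n ∈ ((Icc 1 X).filter R).filter bad, K := by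
          apply sum_le_sum; intro n hn
          rw [mem_filter, mem_filter, mem_Icc] at hn
          exact hK n hn.1.1.2
      _ = (((Icc 1 X).filter R).filter bad).card * K := by rw [sum_const, nsmul_eq_mul]
      _ ≤ ((Icc 1 X).filter bad).card * K := by
          apply mul_le_mul_of_nonneg_right _ hK0
          have : ((Icc 1 X).filter R).filter bad ⊆ (Icc 1 X).filter bad := by
            intro n hn
            rw [mem_filter, mem_filter] at hn
            rw [mem_filter]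
            exact ⟨hn.1.1, hn.2⟩
          exact_mod_cast card_le_card this
      _ ≤ X / A * K := mul_le_mul_of_nonneg_right (bad_card X hA) hK0
  refine add_le_add ?_ hb
  -- the good part
  set g0 := ((Icc 1 X).filter R).filter (fun n => ¬ bad n) with hg0
  have hdec : ∀ n ∈ g0, ∃ t : ℕ × ℕ × ℕ, t ∈ ((Icc 1 A ×ˢ Icc 1 A ×ˢ Icc 1 X).filter (fun t => t.1^2 * t.2.1^3 * t.2.2 ≤ X ∧ Q t.1 t.2.1)) ∧
      n = t.1^2 * t.2.1^3 * t.2.2 ∧ w t.2.2 = 1 := by
    intro n hn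
    rw [hg0, mem_filter, mem_filter, mem_Icc] at hn
    obtain ⟨⟨⟨hn1, hnX⟩, hRn⟩, hnb⟩ := hn
    obtain ⟨a, c, s, ha, hc, hs, hn, hp⟩ := dec hn1
    rw [hn] at hRn hp
    obtain ⟨q1, q2⟩ := hR a c s ha hc hs hRn hp
    have haA : a ≤ A := by
      by_contra h
      exact hnb ⟨a, by omega, by rw [hn, mul_assoc]; exact Dvd.intro _ rfl⟩
    have hcA : c ≤ A := by
      by_contra h
      exact hnb ⟨c, by omega, by rw [hn]; exact ⟨a^2 * c * s, by ring⟩⟩
    have hsX : s ≤ X := by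
      refine le_trans ?_ hnX
      rw [hn]
      exact Nat.le_mul_of_pos_left _ (by positivity)
    refine ⟨(a, c, s), ?_, hn, hw1 s hs q2⟩
    rw [mem_filter, mem_product, mem_product, mem_Icc, mem_Icc, mem_Icc]
    exact ⟨⟨⟨ha, haA⟩, ⟨hc, hcA⟩, ⟨hs, hsX⟩⟩, by rw [← hn]; exact hnX, q1⟩
  choose! ψ hψ1 hψ2 hψ3 using hdec
  have hinj : Set.InjOn ψ g0 := by
    intro n hn m hm h
    rw [hψ2 n hn, hψ2 m hm, h]
  calc ∑ n ∈ g0, f n = ∑ n ∈ g0, w (ψ n).2.2 * f ((ψ n).1^2 * (ψ n).2.1^3 * (ψ n).2.2) := by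
        apply sum_congr rfl; intro n hn
        rw [hψ3 n hn, one_mul, ← hψ2 n hn]
    _ = ∑ t ∈ g0.image ψ, w t.2.2 * f (t.1^2 * t.2.1^3 * t.2.2) := by
        rw [sum_image]
        intro n hn m hm h
        exact hinj hn hm h
    _ ≤ ∑ t ∈ ((Icc 1 A ×ˢ Icc 1 A ×ˢ Icc 1 X).filter (fun t => t.1^2 * t.2.1^3 * t.2.2 ≤ X ∧ Q t.1 t.2.1)),
          w t.2.2 * f (t.1^2 * t.2.1^3 * t.2.2) := by
        apply sum_le_sum_of_subset_of_nonneg
        · intro t ht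
          rw [mem_image] at ht
          obtain ⟨n, hn, rfl⟩ := ht
          exact hψ1 n hn
        · intro t _ _
          exact mul_nonneg (hw0 _) (hf _)
    _ = _ := by
        rw [sum_filter, sum_product]
        apply sum_congr rfl; intro a ha
        rw [sum_product]
        apply sum_congr rfl; intro c hc
        rw [mem_Icc] at ha hc
        by_cases hQ : Q a c
        · simp only [hQ, and_true, if_true]
          rw [← sum_filter]
          apply sum_congr _ (fun _ _ => rfl)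
          ext s
          have hpos : 0 < a^2 * c^3 := by
            have := ha.1; have := hc.1; positivity
          rw [mem_filter, mem_Icc, mem_Icc, Nat.le_div_iff_mul_le hpos]
          constructor
          · rintro ⟨⟨h1, h2⟩, h3⟩
            exact ⟨h1, by rw [mul_comm]; exact h3⟩
          · rintro ⟨h1, h3⟩
            rw [mul_comm] at h3
            exact ⟨⟨h1, le_trans (Nat.le_mul_of_pos_left _ hpos) h3⟩, h3⟩
        · simp only [hQ, and_false, if_false, sum_const_zero]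

end Pool.Agent.D0H53.SQ
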