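import Mathlib
import Pool.Agent.D0H53.SQ.Cov

/-! Upper bounds for the number of elements. -/

open Finset

namespace Pool.Agent.D0H53.SQ

lemma sum_inv_sq_le (A : ℕ) : ∑ a ∈ Icc 1 A, 1 / (a:ℝ)^2 ≤ 2 := by
  rcases Nat.eq_zero_or_pos A with rfl | hA
  · simp
  · have h : Icc 1 A = insert 1 (Ioc 1 A) := by
      ext x; simp only [mem_Icc, mem_insert, mem_Ioc]; omega
    rw [h, sum_insert (by simp)]
    have h2 := sum_Ioc_inv_sq_le_sub (α := ℝ) (k := 1) (n := A) (by norm_num) hA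
    have h3 : ∑ a ∈ Ioc 1 A, 1 / (a:ℝ)^2 = ∑ a ∈ Ioc 1 A, ((a:ℝ)^2)⁻¹ := by
      apply sum_congr rfl; intro a _; rw [one_div]
    rw [h3]
    have h4 : 0 ≤ ((A:ℕ):ℝ)⁻¹ := by positivity
    push_cast at h2 ⊢
    norm_num at h2 ⊢
    linarith

lemma sum_inv_cube_le (A : ℕ) : ∑ a ∈ Icc 1 A, 1 / (a:ℝ)^3 ≤ 2 := by
  refine le_trans (sum_le_sum fun a ha => ?_) (sum_inv_sq_le A)
  rw [mem_Icc] at ha
  have ha1 : (1:ℝ) ≤ a := by exact_mod_cast ha.1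
  apply one_div_le_one_div_of_le (by positivity)
  exact pow_le_pow_right₀ ha1 (by norm_num)

lemma sum_mult_le {k : ℕ} (hk : 2 ≤ k) (hs : ∀ A : ℕ, ∑ a ∈ Icc 1 A, 1 / (a:ℝ)^k ≤ 2) {p : ℕ} (hp : 1 ≤ p) (A : ℕ) :
    ∑ a ∈ Icc 1 A, (if p ∣ a then 1 / (a:ℝ)^k else 0) ≤ 2 / (p:ℝ)^2 := by
  have hp0 : (0:ℝ) < p := by exact_mod_cast hp
  have hp1 : (1:ℝ) ≤ p := by exact_mod_cast hp
  rw [← sum_filter]
  have h1 : (Icc 1 A).filter (fun a => p ∣ a) = (Icc 1 (A / p)).image (fun b => p * b) := by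
    ext a
    rw [mem_filter, mem_image, mem_Icc]
    constructor
    · rintro ⟨⟨h1, h2⟩, b, rfl⟩
      refine ⟨b, ?_, rfl⟩
      rw [mem_Icc, Nat.le_div_iff_mul_le (by omega)]
      constructor
      · exact Nat.pos_of_ne_zero (by rintro rfl; omega)
      · rw [mul_comm]; exact h2
    · rintro ⟨b, hb, rfl⟩
      rw [mem_Icc, Nat.le_div_iff_mul_le (by omega)] at hb
      refine ⟨⟨?_, ?_⟩, Dvd.intro _ rfl⟩
      · exact Nat.mul_pos hp hb.1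
      · rw [mul_comm]; exact hb.2
  rw [h1, sum_image (by
    intro x _ y _ hxy
    exact Nat.eq_of_mul_eq_mul_left (by omega) hxy)]
  calc ∑ b ∈ Icc 1 (A / p), 1 / ((p * b : ℕ):ℝ)^k = 1 / (p:ℝ)^k * ∑ b ∈ Icc 1 (A / p), 1 / (b:ℝ)^k := by
        rw [mul_sum]
        apply sum_congr rfl; intro b _
        push_cast
        rw [mul_pow, one_div_mul_one_div]
    _ ≤ 1 / (p:ℝ)^2 * 2 := by
        apply mul_le_mul _ (hs _) (sum_nonneg fun _ _ => by positivity) (by positivity)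
        apply one_div_le_one_div_of_le (by positivity)
        exact pow_le_pow_right₀ hp1 hk
    _ = _ := by ring

variable {w : ℕ → ℝ} {ρ : ℝ} {D : ℕ}

/-- sums of the weights over the covering -/
lemma cov_sum (hρ : 0 ≤ ρ) (hw : ∀ X : ℕ, ∑ n ∈ Icc 1 X, w n ≤ X * ρ + (D:ℝ)^2) (X A : ℕ) (hDA : A = D) :
    ∑ a ∈ Icc 1 A, ∑ c ∈ Icc 1 A, ∑ s ∈ Icc 1 (X / (a^2 * c^3)), w s ≤ 4 * (X * ρ) + (D:ℝ)^4 := by
  have h1 : ∀ a ∈ Icc 1 A, ∀ c ∈ Icc 1 A, ∑ s ∈ Icc 1 (X / (a^2 * c^3)), w s ≤ X * ρ * (1/(a:ℝ)^2 * (1/(c:ℝ)^3)) + (D:ℝ)^2 := by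
    intro a ha c hc
    rw [mem_Icc] at ha hc
    have ha0 : (0:ℝ) < a := by exact_mod_cast ha.1
    have hc0 : (0:ℝ) < c := by exact_mod_cast hc.1
    refine (hw _).trans ?_
    have h2 : ((X / (a^2 * c^3) : ℕ):ℝ) ≤ X / ((a:ℝ)^2 * (c:ℝ)^3) := by
      refine Nat.cast_div_le.trans (le_of_eq ?_)
      push_cast; rfl
    have h3 : ((X / (a^2 * c^3) : ℕ):ℝ) * ρ ≤ X / ((a:ℝ)^2 * (c:ℝ)^3) * ρ := mul_le_mul_of_nonneg_right h2 hρ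
    have h4 : X / ((a:ℝ)^2 * (c:ℝ)^3) * ρ = X * ρ * (1/(a:ℝ)^2 * (1/(c:ℝ)^3)) := by field_simp
    linarith
  calc _ ≤ ∑ a ∈ Icc 1 A, ∑ c ∈ Icc 1 A, (X * ρ * (1/(a:ℝ)^2 * (1/(c:ℝ)^3)) + (D:ℝ)^2) :=
        sum_le_sum fun a ha => sum_le_sum fun c hc => h1 a ha c hc
    _ = X * ρ * ((∑ a ∈ Icc 1 A, 1/(a:ℝ)^2) * (∑ c ∈ Icc 1 A, 1/(c:ℝ)^3)) + (D:ℝ)^4 := by
        simp only [sum_add_distrib, ← mul_sum, sum_const, Nat.card_Icc, nsmul_eq_mul, Nat.add_sub_cancel, ← sum_mul]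
        rw [hDA]; ring
    _ ≤ X * ρ * (2 * 2) + (D:ℝ)^4 := by
        have h5 := sum_inv_sq_le A
        have h6 := sum_inv_cube_le A
        have h7 : 0 ≤ ∑ a ∈ Icc 1 A, 1/(a:ℝ)^2 := sum_nonneg fun _ _ => by positivity
        have h8 : 0 ≤ ∑ a ∈ Icc 1 A, 1/(a:ℝ)^3 := sum_nonneg fun _ _ => by positivity
        have : (X:ℝ) * ρ * ((∑ a ∈ Icc 1 A, 1/(a:ℝ)^2) * (∑ c ∈ Icc 1 A, 1/(c:ℝ)^3)) ≤ X * ρ * (2 * 2) := by
          apply mul_le_mul_of_nonneg_left _ (by positivity)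
          exact mul_le_mul h5 h6 h8 (by norm_num)
        linarith
    _ = _ := by ring

/-- sums of the weights over the part of the covering divisible by a prime -/
lemma cov_sum_p (hρ : 0 ≤ ρ) (hw : ∀ X : ℕ, ∑ n ∈ Icc 1 X, w n ≤ X * ρ + (D:ℝ)^2) (X A : ℕ) (hDA : A = D) {p : ℕ} (hp : 1 ≤ p) :
    ∑ a ∈ Icc 1 A, ∑ c ∈ Icc 1 A, (if p ∣ a ∨ p ∣ c then ∑ s ∈ Icc 1 (X / (a^2 * c^3)), w s else 0) ≤
      8 / (p:ℝ)^2 * (X * ρ) + (D:ℝ)^4 := by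
  have h1 : ∀ a ∈ Icc 1 A, ∀ c ∈ Icc 1 A, (if p ∣ a ∨ p ∣ c then ∑ s ∈ Icc 1 (X / (a^2 * c^3)), w s else 0) ≤
      X * ρ * ((if p ∣ a then 1/(a:ℝ)^2 else 0) * (1/(c:ℝ)^3) + 1/(a:ℝ)^2 * (if p ∣ c then 1/(c:ℝ)^3 else 0)) + (D:ℝ)^2 := by
    intro a ha c hc
    rw [mem_Icc] at ha hc
    have ha0 : (0:ℝ) < a := by exact_mod_cast ha.1
    have hc0 : (0:ℝ) < c := by exact_mod_cast hc.1
    have h2 : ((X / (a^2 * c^3) : ℕ):ℝ) ≤ X / ((a:ℝ)^2 * (c:ℝ)^3) := by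
      refine Nat.cast_div_le.trans (le_of_eq ?_)
      push_cast; rfl
    have h3 : ((X / (a^2 * c^3) : ℕ):ℝ) * ρ ≤ X / ((a:ℝ)^2 * (c:ℝ)^3) * ρ := mul_le_mul_of_nonneg_right h2 hρ
    have h4 : X / ((a:ℝ)^2 * (c:ℝ)^3) * ρ = X * ρ * (1/(a:ℝ)^2 * (1/(c:ℝ)^3)) := by field_simp
    have h5 := hw (X / (a^2 * c^3))
    have hXρ : 0 ≤ (X:ℝ) * ρ := by positivity
    have hac : 0 ≤ 1/(a:ℝ)^2 * (1/(c:ℝ)^3) := by positivity
    by_cases hpa : p ∣ a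
    · rw [if_pos (Or.inl hpa), if_pos hpa]
      have : 0 ≤ X * ρ * (1/(a:ℝ)^2 * (if p ∣ c then 1/(c:ℝ)^3 else 0)) := by
        apply mul_nonneg hXρ
        apply mul_nonneg (by positivity)
        split_ifs <;> positivity
      rw [mul_add]
      linarith
    · by_cases hpc : p ∣ c
      · rw [if_pos (Or.inr hpc), if_neg hpa, if_pos hpc, zero_mul, zero_add]
        linarith
      · rw [if_neg (by tauto), if_neg hpa, if_neg hpc]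
        simp only [zero_mul, mul_zero, add_zero]
        positivity
  calc _ ≤ ∑ a ∈ Icc 1 A, ∑ c ∈ Icc 1 A, (X * ρ * ((if p ∣ a then 1/(a:ℝ)^2 else 0) * (1/(c:ℝ)^3) +
          1/(a:ℝ)^2 * (if p ∣ c then 1/(c:ℝ)^3 else 0)) + (D:ℝ)^2) :=
        sum_le_sum fun a ha => sum_le_sum fun c hc => h1 a ha c hc
    _ = X * ρ * ((∑ a ∈ Icc 1 A, (if p ∣ a then 1/(a:ℝ)^2 else 0)) * (∑ c ∈ Icc 1 A, 1/(c:ℝ)^3) +
          (∑ a ∈ Icc 1 A, 1/(a:ℝ)^2) * (∑ c ∈ Icc 1 A, (if p ∣ c then 1/(c:ℝ)^3 else 0))) + (D:ℝ)^4 := by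
        simp only [sum_add_distrib, mul_add, ← mul_sum, sum_const, Nat.card_Icc, nsmul_eq_mul, Nat.add_sub_cancel, ← sum_mul]
        rw [hDA]; ring
    _ ≤ X * ρ * (2 / (p:ℝ)^2 * 2 + 2 * (2 / (p:ℝ)^2)) + (D:ℝ)^4 := by
        have h5 := sum_inv_sq_le A
        have h6 := sum_inv_cube_le A
        have h7 := sum_mult_le (k := 2) le_rfl sum_inv_sq_le hp A
        have h8 := sum_mult_le (k := 3) (by norm_num) sum_inv_cube_le hp A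
        have h9 : 0 ≤ ∑ a ∈ Icc 1 A, 1/(a:ℝ)^2 := sum_nonneg fun _ _ => by positivity
        have h10 : 0 ≤ ∑ a ∈ Icc 1 A, 1/(a:ℝ)^3 := sum_nonneg fun _ _ => by positivity
        have h11 : 0 ≤ ∑ c ∈ Icc 1 A, (if p ∣ c then 1/(c:ℝ)^3 else 0) := sum_nonneg fun c _ => by split_ifs <;> positivity
        have hXρ : 0 ≤ (X:ℝ) * ρ := by positivity
        have h12 : (∑ a ∈ Icc 1 A, (if p ∣ a then 1/(a:ℝ)^2 else 0)) * (∑ c ∈ Icc 1 A, 1/(c:ℝ)^3) ≤ 2 / (p:ℝ)^2 * 2 :=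
          mul_le_mul h7 h6 h10 (by positivity)
        have h13 : (∑ a ∈ Icc 1 A, 1/(a:ℝ)^2) * (∑ c ∈ Icc 1 A, (if p ∣ c then 1/(c:ℝ)^3 else 0)) ≤ 2 * (2 / (p:ℝ)^2) :=
          mul_le_mul h5 h8 h11 (by norm_num)
        have := mul_le_mul_of_nonneg_left (add_le_add h12 h13) hXρ
        linarith
    _ = _ := by ring

open Classical in
/-- the counting bounds -/
theorem ub {R : ℕ → Prop} {G : ℕ → Prop}
    (hR : ∀ n p : ℕ, R n → p.Prime → p ∣ n → ¬ p^2 ∣ n → G p)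
    (hw0 : ∀ n, 0 ≤ w n) (hw1 : ∀ s, 1 ≤ s → (∀ p : ℕ, p.Prime → p ∣ s → G p) → w s = 1)
    (hρ : 0 ≤ ρ) (hw : ∀ X : ℕ, ∑ n ∈ Icc 1 X, w n ≤ X * ρ + (D:ℝ)^2) (hD : 1 ≤ D) (X : ℕ) :
    (((Icc 1 X).filter R).card : ℝ) ≤ 4 * (X * ρ) + (D:ℝ)^4 + X / D := by
  have h := cover (R := R) (Q := fun _ _ => True) (G := G) (by
    intro a c s ha hc hs hr hp
    refine ⟨trivial, fun p hpp hps => ?_⟩
    exact hR _ p hr hpp (hps.trans (Dvd.intro_left _ rfl)) (hp p hpp hps)) hw0 hw1 (X := X) hD (f := fun _ => 1) (fun _ => zero_le_one) (K := 1) (fun _ _ => le_rfl)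
  simp only [if_true, mul_one, sum_const, nsmul_eq_mul, mul_one] at h
  have h2 := cov_sum hρ hw X D rfl
  linarith

open Classical in
theorem ub_p {R : ℕ → Prop} {G : ℕ → Prop}
    (hR : ∀ n p : ℕ, R n → p.Prime → p ∣ n → ¬ p^2 ∣ n → G p)
    (hw0 : ∀ n, 0 ≤ w n) (hw1 : ∀ s, 1 ≤ s → (∀ p : ℕ, p.Prime → p ∣ s → G p) → w s = 1)
    (hρ : 0 ≤ ρ) (hw : ∀ X : ℕ, ∑ n ∈ Icc 1 X, w n ≤ X * ρ + (D:ℝ)^2) (hD : 1 ≤ D) (X : ℕ) {r : ℕ} (hr : r.Prime) :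
    (((Icc 1 X).filter (fun n => R n ∧ r^2 ∣ n)).card : ℝ) ≤ 8 / (r:ℝ)^2 * (X * ρ) + (D:ℝ)^4 + X / D := by
  have h := cover (R := fun n => R n ∧ r^2 ∣ n) (Q := fun a c => r ∣ a ∨ r ∣ c) (G := G) (by
    intro a c s ha hc hs hrr hp
    refine ⟨?_, fun p hpp hps => ?_⟩
    · by_contra hno
      push Not at hno
      have c1 : Nat.Coprime (r^2) (a^2 * c^3) := by
        apply Nat.Coprime.mul_right
        · exact Nat.Coprime.pow 2 2 ((Nat.Prime.coprime_iff_not_dvd hr).mpr hno.1)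
        · exact Nat.Coprime.pow 2 3 ((Nat.Prime.coprime_iff_not_dvd hr).mpr hno.2)
      have h2 : r^2 ∣ s := c1.dvd_of_dvd_mul_left hrr.2
      exact hp r hr ((dvd_pow_self r (by norm_num)).trans h2) hrr.2
    · exact hR _ p hrr.1 hpp (hps.trans (Dvd.intro_left _ rfl)) (hp p hpp hps)) hw0 hw1 (X := X) hD (f := fun _ => 1) (fun _ => zero_le_one) (K := 1) (fun _ _ => le_rfl)
  simp only [mul_one, sum_const, nsmul_eq_mul, mul_one] at h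
  have h2 := cov_sum_p hρ hw X D rfl hr.one_lt.le
  have h3 := h.trans (add_le_add (b := 8 / (r:ℝ)^2 * (X * ρ) + (D:ℝ)^4) (by refine le_trans (le_of_eq ?_) h2; congr!) le_rfl)
  refine le_trans (le_of_eq ?_) h3
  congr!

end Pool.Agent.D0H53.SQ
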