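import Mathlib
import Pool.Agent.D0H53.SQ.UB
import Pool.Agent.Erdos456.Mertens

/-! Lower bounds for the number of squarefree integers all whose prime factors lie in a set of primes of positive
lower density. -/

open Finset

namespace Pool.Agent.D0H53.SQ

/-- the Euler product over all primes -/
lemma VG_all : ∃ C : ℝ, 0 < C ∧ ∀ x : ℕ, 3 ≤ x → VG (fun _ => True) x ≤ C * Real.log x := by
  obtain ⟨C, hC⟩ := Pool.Agent.Erdos456.Mert.mertens_inv
  refine ⟨Real.exp (C + 1), Real.exp_pos _, fun x hx => ?_⟩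
  have h1 := (abs_le.mp (hC x hx)).2
  have hx0 : (3:ℝ) ≤ x := by exact_mod_cast hx
  have hlog : 0 < Real.log x := Real.log_pos (by linarith)
  have hPG : PG (fun _ => True) x = (Finset.Icc 1 x).filter Nat.Prime := by
    ext p
    rw [mem_PG, mem_filter, mem_Icc]
    constructor
    · rintro ⟨h1, h2, _⟩; exact ⟨⟨h2.one_lt.le, h1⟩, h2⟩
    · rintro ⟨⟨_, h1⟩, h2⟩; exact ⟨h1, h2, trivial⟩
  have h2 : ∀ p ∈ PG (fun _ => True) x, (1 - 1 / (p:ℝ))⁻¹ ≤ Real.exp (1 / (p:ℝ) + (1 / ((p:ℝ) - 1) - 1 / p)) := by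
    intro p hp
    have hpp := (mem_PG.mp hp).2.1
    have hp1 : (1:ℝ) < p := by exact_mod_cast hpp.one_lt
    have e1 : (1 - 1 / (p:ℝ))⁻¹ = 1 / ((p:ℝ) - 1) + 1 := by
      have : (p:ℝ) - 1 ≠ 0 := by linarith
      field_simp; ring
    rw [e1]
    have e2 : 1 / (p:ℝ) + (1 / ((p:ℝ) - 1) - 1 / p) = 1 / ((p:ℝ) - 1) := by ring
    rw [e2]
    exact Real.add_one_le_exp _
  have h3 : ∑ p ∈ PG (fun _ => True) x, (1 / ((p:ℝ) - 1) - 1 / p) ≤ 1 := by
    calc ∑ p ∈ PG (fun _ => True) x, (1 / ((p:ℝ) - 1) - 1 / p) ≤ ∑ p ∈ Icc 2 x, (1 / ((p:ℝ) - 1) - 1 / p) := by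
          apply sum_le_sum_of_subset_of_nonneg
          · intro p hp
            rw [mem_PG] at hp
            rw [mem_Icc]; exact ⟨hp.2.1.two_le, hp.1⟩
          · intro p hp _
            rw [mem_Icc] at hp
            have hp1 : (2:ℝ) ≤ p := by exact_mod_cast hp.1
            rw [sub_nonneg]
            apply one_div_le_one_div_of_le <;> linarith
      _ = 1 - 1 / (x:ℝ) := by
          have : ∀ n : ℕ, 1 ≤ n → ∑ p ∈ Icc 2 n, (1 / ((p:ℝ) - 1) - 1 / p) = 1 - 1 / (n:ℝ) := by
            intro n hn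
            induction n, hn using Nat.le_induction with
            | base => simp
            | succ n hn ih =>
              rw [Finset.sum_Icc_succ_top (by omega), ih]
              push_cast
              rw [add_sub_cancel_right]; ring
          exact this x (by omega)
      _ ≤ 1 := by
          have : 0 ≤ 1 / (x:ℝ) := by positivity
          linarith
  unfold VG
  calc ∏ p ∈ PG (fun _ => True) x, (1 - 1 / (p:ℝ))⁻¹ ≤ ∏ p ∈ PG (fun _ => True) x, Real.exp (1 / (p:ℝ) + (1 / ((p:ℝ) - 1) - 1 / p)) :=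
        prod_le_prod (fun p hp => le_trans zero_le_one (fac_one_le (mem_PG.mp hp).2.1)) h2
    _ = Real.exp (∑ p ∈ PG (fun _ => True) x, 1 / (p:ℝ) + ∑ p ∈ PG (fun _ => True) x, (1 / ((p:ℝ) - 1) - 1 / p)) := by
        rw [← Real.exp_sum, sum_add_distrib]
    _ ≤ Real.exp ((C + 1) + Real.log (Real.log x)) := by
        apply Real.exp_le_exp.mpr
        rw [hPG] at h3 ⊢
        linarith
    _ = _ := by rw [Real.exp_add, Real.exp_log hlog]

lemma VG_split (G : ℕ → Prop) (x : ℕ) : VG G x * VG (fun p => ¬ G p) x = VG (fun _ => True) x := by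
  classical
  unfold VG
  have h1 : PG (fun _ => True) x = PG G x ∪ PG (fun p => ¬ G p) x := by
    ext p
    rw [mem_union, mem_PG, mem_PG, mem_PG]
    tauto
  have h2 : Disjoint (PG G x) (PG (fun p => ¬ G p) x) := by
    rw [disjoint_left]
    intro p hp hp2
    exact (mem_PG.mp hp2).2.2 (mem_PG.mp hp).2.2
  rw [h1, prod_union h2]

/-- squarefree with all prime factors in the set -/
def b0 (G : ℕ → Prop) (m : ℕ) : Prop := Squarefree m ∧ ∀ p : ℕ, p.Prime → p ∣ m → G p

open Classical in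
/-- the harmonic sum -/
noncomputable def H0 (G : ℕ → Prop) (x : ℕ) : ℝ := ∑ m ∈ (Icc 1 x).filter (b0 G), 1 / (m:ℝ)

lemma H0_nonneg (G : ℕ → Prop) (x : ℕ) : 0 ≤ H0 G x := sum_nonneg fun _ _ => by positivity

open Classical in
lemma harm_split (G : ℕ → Prop) {x : ℕ} (hx : 1 ≤ x) : Real.log x ≤ 2 * H0 G x * VG (fun p => ¬ G p) x := by
  have hx0 : (1:ℝ) ≤ x := by exact_mod_cast hx
  have h0 : Real.log x ≤ ∑ n ∈ Icc 1 x, 1 / (n:ℝ) := by
    have h1 := log_add_one_le_harmonic x
    have h2 : ((harmonic x : ℚ) : ℝ) = ∑ n ∈ Icc 1 x, 1 / (n:ℝ) := by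
      rw [harmonic_eq_sum_Icc]; push_cast
      apply sum_congr rfl; intro y _; simp
    rw [h2] at h1
    refine le_trans ?_ h1
    apply Real.log_le_log (by linarith)
    push_cast; linarith
  refine h0.trans ?_
  set T := PG (fun p => ¬ G p) x with hT
  have hdec : ∀ n ∈ Icc 1 x, ∃ t : ℕ × ℕ × Finset ℕ, t ∈ (Icc 1 x ×ˢ ((Icc 1 x).filter (b0 G)) ×ˢ T.powerset) ∧
      n = t.1^2 * (t.2.1 * ∏ p ∈ t.2.2, p) := by
    intro n hn
    rw [mem_Icc] at hn
    obtain ⟨m, b, hbm, hsq⟩ := Nat.sq_mul_squarefree n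
    have hm0 : 0 < m := Nat.pos_of_ne_zero (by rintro rfl; omega)
    have hb0 : 0 < b := Nat.pos_of_ne_zero (by rintro rfl; omega)
    have hmn : m ≤ n := by rw [← hbm]; exact Nat.le_mul_of_pos_left _ (by positivity)
    have hbn : b ≤ n := by rw [← hbm]; nlinarith
    have hprod := Nat.prod_primeFactors_of_squarefree hsq
    rw [← prod_filter_mul_prod_filter_not m.primeFactors G] at hprod
    set u := ∏ p ∈ m.primeFactors.filter G, p with hu
    set v := ∏ p ∈ m.primeFactors.filter (fun p => ¬ G p), p with hv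
    have hum : u ∣ m := ⟨v, hprod.symm⟩
    have hu0 : 0 < u := Nat.pos_of_dvd_of_pos hum hm0
    have hule : u ≤ m := Nat.le_of_dvd hm0 hum
    refine ⟨(b, u, m.primeFactors.filter (fun p => ¬ G p)), ?_, ?_⟩
    · rw [mem_product, mem_product, mem_Icc, mem_filter, mem_Icc, mem_powerset]
      refine ⟨⟨hb0, hbn.trans hn.2⟩, ⟨⟨hu0, hule.trans (hmn.trans hn.2)⟩, hsq.squarefree_of_dvd hum, ?_⟩, ?_⟩
      · intro p hp hpu
        rw [hu, Prime.dvd_finsetProd_iff hp.prime] at hpu
        obtain ⟨q, hq, hpq⟩ := hpu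
        rw [mem_filter, Nat.mem_primeFactors] at hq
        have : p = q := (Nat.prime_dvd_prime_iff_eq hp hq.1.1).mp hpq
        rw [this]; exact hq.2
      · intro p hp
        rw [mem_filter, Nat.mem_primeFactors] at hp
        rw [hT, mem_PG]
        exact ⟨(Nat.le_of_dvd hm0 hp.1.2.1).trans (by omega), hp.1.1, hp.2⟩
    · show n = b^2 * (u * v)
      rw [hprod, hbm]
  choose! ψ hψ1 hψ2 using hdec
  have hinj : Set.InjOn ψ (Icc 1 x : Finset ℕ) := by
    intro n hn m hm h
    rw [hψ2 n hn, hψ2 m hm, h]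
  set g : ℕ × ℕ × Finset ℕ → ℝ := fun t => 1 / (t.1:ℝ)^2 * (1 / (t.2.1:ℝ) * ∏ p ∈ t.2.2, 1 / (p:ℝ)) with hg
  calc ∑ n ∈ Icc 1 x, 1 / (n:ℝ) = ∑ n ∈ Icc 1 x, g (ψ n) := by
        apply sum_congr rfl; intro n hn
        nth_rewrite 1 [hψ2 n hn]
        simp only [hg]
        push_cast
        rw [prod_div_distrib, prod_const_one, one_div_mul_one_div, one_div_mul_one_div]
    _ = ∑ t ∈ (Icc 1 x).image ψ, g t := by
        rw [sum_image]
        intro n hn m hm h
        exact hinj hn hm h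
    _ ≤ ∑ t ∈ (Icc 1 x ×ˢ ((Icc 1 x).filter (b0 G)) ×ˢ T.powerset), g t := by
        apply sum_le_sum_of_subset_of_nonneg
        · intro t ht
          rw [mem_image] at ht
          obtain ⟨n, hn, rfl⟩ := ht
          exact hψ1 n hn
        · intro t _ _
          simp only [hg]
          apply mul_nonneg (by positivity)
          apply mul_nonneg (by positivity)
          exact prod_nonneg fun p _ => by positivity
    _ = (∑ a ∈ Icc 1 x, 1 / (a:ℝ)^2) * (H0 G x * ∏ p ∈ T, (1 + 1 / (p:ℝ))) := by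
        simp only [hg]
        rw [sum_product]
        simp only [← mul_sum]
        rw [← sum_mul]
        congr 1
        rw [sum_product]
        simp only [← mul_sum]
        rw [← sum_mul]
        congr 1
        rw [Finset.prod_one_add]
    _ ≤ 2 * (H0 G x * VG (fun p => ¬ G p) x) := by
        have h1 := sum_inv_sq_le x
        have h2 : ∏ p ∈ T, (1 + 1 / (p:ℝ)) ≤ VG (fun p => ¬ G p) x := by
          unfold VG
          apply prod_le_prod (fun p _ => by positivity)
          intro p hp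
          have hpp := (mem_PG.mp hp).2.1
          have hf := fac_pos hpp
          rw [← one_div, le_div_iff₀ hf]
          have : 0 ≤ (1 / (p:ℝ))^2 := by positivity
          nlinarith
        have h3 := H0_nonneg G x
        have h4 : 0 ≤ ∏ p ∈ T, (1 + 1 / (p:ℝ)) := prod_nonneg fun p _ => by positivity
        exact mul_le_mul h1 (mul_le_mul_of_nonneg_left h2 h3) (mul_nonneg h3 h4) (by norm_num)
    _ = _ := by ring

lemma log_sqfree {m : ℕ} (h : Squarefree m) : ∑ p ∈ m.primeFactors, Real.log p = Real.log m := by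
  rw [← Real.log_prod, ← Nat.cast_prod, Nat.prod_primeFactors_of_squarefree h]
  intro p hp
  have := (Nat.prime_of_mem_primeFactors hp).pos
  exact_mod_cast this.ne'

open Classical in
/-- the recursive inequality -/
lemma count_ineq {G : ℕ → Prop} {κ : ℝ} (hκ : 0 < κ) {y0 : ℕ} (hy0 : 1 ≤ y0)
    (h : ∀ y : ℕ, y0 ≤ y → κ * y ≤ ∑ p ∈ PG G y, Real.log p) {N : ℕ} (hN : 1 ≤ N) :
    κ * N / 2 * H0 G (N / y0) ≤ 2 * ((((Icc 1 N).filter (b0 G)).card : ℕ) : ℝ) * Real.log N := by
  have hNr : (1:ℝ) ≤ N := by exact_mod_cast hN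
  have hlogN : 0 ≤ Real.log N := Real.log_nonneg hNr
  set L := ((Icc 1 N) ×ˢ (Icc 1 N)).filter (fun t : ℕ × ℕ => b0 G t.1 ∧ t.2.Prime ∧ G t.2 ∧ t.1 * t.2 ≤ N ∧ ¬ t.2 ∣ t.1) with hL
  -- upper bound
  have h1 : ∑ t ∈ L, Real.log t.2 ≤ (((Icc 1 N).filter (b0 G)).card : ℝ) * Real.log N := by
    have hinj : Set.InjOn (fun t : ℕ × ℕ => (t.1 * t.2, t.2)) (L : Set (ℕ × ℕ)) := by
      rintro ⟨m, p⟩ hm ⟨m', p'⟩ hm' heq
      rw [Finset.mem_coe, hL, mem_filter, mem_product, mem_Icc, mem_Icc] at hm hm'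
      simp only [Prod.mk.injEq] at heq ⊢
      obtain ⟨e1, e2⟩ := heq
      subst e2
      exact ⟨Nat.eq_of_mul_eq_mul_right (by have := hm.1.2.1; omega) e1, rfl⟩
    calc ∑ t ∈ L, Real.log t.2 = ∑ t ∈ L.image (fun t : ℕ × ℕ => (t.1 * t.2, t.2)), Real.log t.2 := by
          rw [sum_image]
          intro n hn m hm h
          exact hinj hn hm h
      _ ≤ ∑ t ∈ ((Icc 1 N) ×ˢ (Icc 1 N)).filter (fun t : ℕ × ℕ => b0 G t.1 ∧ t.2.Prime ∧ t.2 ∣ t.1), Real.log t.2 := by
          apply sum_le_sum_of_subset_of_nonneg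
          · rintro ⟨n, p⟩ ht
            rw [mem_image] at ht
            obtain ⟨⟨m, p'⟩, hm, heq⟩ := ht
            rw [hL, mem_filter, mem_product, mem_Icc, mem_Icc] at hm
            simp only [Prod.mk.injEq] at heq
            obtain ⟨e1, e2⟩ := heq
            subst e2
            obtain ⟨⟨⟨m1, m2⟩, p1, p2⟩, b1, b2, b3, b4, b5⟩ := hm
            simp only at m1 m2 p1 p2 b1 b2 b3 b4 b5
            subst e1
            rw [mem_filter, mem_product, mem_Icc, mem_Icc]
            refine ⟨⟨⟨Nat.mul_pos m1 p1, b4⟩, p1, p2⟩, ⟨?_, ?_⟩, b2, Dvd.intro_left _ rfl⟩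
            · rw [Nat.squarefree_mul ((Nat.Prime.coprime_iff_not_dvd b2).mpr b5).symm]
              exact ⟨b1.1, b2.squarefree⟩
            · intro q hq hqm
              rcases (Nat.Prime.dvd_mul hq).mp hqm with h | h
              · exact b1.2 q hq h
              · rw [(Nat.prime_dvd_prime_iff_eq hq b2).mp h]; exact b3
          · rintro ⟨n, p⟩ ht _
            rw [mem_filter] at ht
            exact Real.log_nonneg (by exact_mod_cast ht.2.2.1.one_lt.le)
      _ = ∑ n ∈ (Icc 1 N).filter (b0 G), ∑ p ∈ n.primeFactors, Real.log p := by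
          rw [sum_filter, sum_product, sum_filter]
          apply sum_congr rfl; intro n hn
          rw [mem_Icc] at hn
          by_cases hb : b0 G n
          · rw [if_pos hb]
            simp only [hb, true_and]
            rw [← sum_filter]
            apply sum_congr _ (fun _ _ => rfl)
            ext p
            rw [mem_filter, mem_Icc, Nat.mem_primeFactors]
            constructor
            · rintro ⟨_, k1, k2⟩
              exact ⟨k1, k2, by omega⟩
            · rintro ⟨k1, k2, _⟩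
              exact ⟨⟨k1.one_lt.le, (Nat.le_of_dvd (by omega) k2).trans hn.2⟩, k1, k2⟩
          · rw [if_neg hb]
            simp only [hb, false_and, if_false, sum_const_zero]
      _ ≤ ∑ n ∈ (Icc 1 N).filter (b0 G), Real.log N := by
          apply sum_le_sum; intro n hn
          rw [mem_filter, mem_Icc] at hn
          rw [log_sqfree hn.2.1]
          apply Real.log_le_log (by exact_mod_cast hn.1.1)
          exact_mod_cast hn.1.2
      _ = _ := by rw [sum_const, nsmul_eq_mul]
  -- lower bound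
  have h2 : κ * N / 2 * H0 G (N / y0) - (((Icc 1 N).filter (b0 G)).card : ℝ) * Real.log N ≤ ∑ t ∈ L, Real.log t.2 := by
    have hsub : ((Icc 1 (N / y0)).filter (b0 G)) ⊆ (Icc 1 N).filter (b0 G) := by
      apply filter_subset_filter
      apply Icc_subset_Icc le_rfl (Nat.div_le_self _ _)
    have e1 : ∑ t ∈ L, Real.log t.2 = ∑ m ∈ (Icc 1 N).filter (b0 G), ∑ p ∈ (PG G (N / m)).filter (fun p => ¬ p ∣ m), Real.log p := by
      rw [hL, sum_filter, sum_product, sum_filter]
      apply sum_congr rfl; intro m hm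
      rw [mem_Icc] at hm
      by_cases hb : b0 G m
      · rw [if_pos hb]
        simp only [hb, true_and]
        rw [← sum_filter]
        apply sum_congr _ (fun _ _ => rfl)
        ext p
        rw [mem_filter, mem_Icc, mem_filter, mem_PG, Nat.le_div_iff_mul_le hm.1]
        constructor
        · rintro ⟨_, k1, k2, k3, k4⟩
          exact ⟨⟨by rw [mul_comm]; exact k3, k1, k2⟩, k4⟩
        · rintro ⟨⟨k3, k1, k2⟩, k4⟩
          rw [mul_comm] at k3
          exact ⟨⟨k1.one_lt.le, le_trans (Nat.le_mul_of_pos_left _ hm.1) k3⟩, k1, k2, k3, k4⟩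
      · rw [if_neg hb]
        simp only [hb, false_and, if_false, sum_const_zero]
    rw [e1]
    have hnn : ∀ m ∈ (Icc 1 N).filter (b0 G), 0 ≤ ∑ p ∈ (PG G (N / m)).filter (fun p => ¬ p ∣ m), Real.log p := by
      intro m _
      apply sum_nonneg
      intro p hp
      rw [mem_filter, mem_PG] at hp
      exact Real.log_nonneg (by exact_mod_cast hp.1.2.1.one_lt.le)
    have e2 : ∀ m ∈ (Icc 1 (N / y0)).filter (b0 G), κ * N / 2 * (1 / (m:ℝ)) - Real.log N ≤
        ∑ p ∈ (PG G (N / m)).filter (fun p => ¬ p ∣ m), Real.log p := by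
      intro m hm
      rw [mem_filter, mem_Icc] at hm
      obtain ⟨⟨m1, m2⟩, m3⟩ := hm
      have hm0 : (0:ℝ) < m := by exact_mod_cast m1
      have m4 : m * y0 ≤ N := by
        rw [Nat.le_div_iff_mul_le hy0] at m2; exact m2
      have m5 : y0 ≤ N / m := by
        rw [Nat.le_div_iff_mul_le m1, mul_comm]; exact m4
      have m6 : m ≤ N := m2.trans (Nat.div_le_self _ _)
      have h3 := h (N / m) m5
      have h4 : ∑ p ∈ PG G (N / m), Real.log p ≤ ∑ p ∈ (PG G (N / m)).filter (fun p => ¬ p ∣ m), Real.log p + Real.log m := by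
        rw [← sum_filter_add_sum_filter_not (PG G (N / m)) (fun p => ¬ p ∣ m), ← log_sqfree m3.1]
        apply add_le_add le_rfl
        apply sum_le_sum_of_subset_of_nonneg
        · intro p hp
          rw [mem_filter, mem_PG, not_not] at hp
          rw [Nat.mem_primeFactors]
          exact ⟨hp.1.2.1, hp.2, by omega⟩
        · intro p hp _
          exact Real.log_nonneg (by exact_mod_cast (Nat.prime_of_mem_primeFactors hp).one_lt.le)
      have h5 : Real.log m ≤ Real.log N := Real.log_le_log hm0 (by exact_mod_cast m6)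
      have h6 : (N:ℝ) / 2 * (1 / m) ≤ ((N / m : ℕ):ℝ) := by
        have h7 : (N:ℝ) / m ≤ ((N / m : ℕ):ℝ) + 1 := by
          rw [div_le_iff₀ hm0]
          have h8 := Nat.div_add_mod N m
          have h9 := Nat.mod_lt N m1
          have h10 : N ≤ (N / m + 1) * m := by nlinarith
          have : ((N : ℕ):ℝ) ≤ (((N / m + 1) * m : ℕ):ℝ) := by exact_mod_cast h10
          push_cast at this
          exact this
        have h8 : (1:ℝ) ≤ ((N / m : ℕ):ℝ) := by
          have : 1 ≤ N / m := hy0.trans m5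
          exact_mod_cast this
        have e3 : (N:ℝ) / 2 * (1 / m) = (N:ℝ) / m / 2 := by ring
        rw [e3]; linarith
      have h7 := mul_le_mul_of_nonneg_left h6 hκ.le
      have e3 : κ * (N / 2 * (1 / (m:ℝ))) = κ * N / 2 * (1 / (m:ℝ)) := by ring
      linarith
    calc κ * N / 2 * H0 G (N / y0) - (((Icc 1 N).filter (b0 G)).card : ℝ) * Real.log N ≤
          κ * N / 2 * H0 G (N / y0) - (((Icc 1 (N / y0)).filter (b0 G)).card : ℝ) * Real.log N := by
          apply sub_le_sub_left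
          apply mul_le_mul_of_nonneg_right _ hlogN
          exact_mod_cast card_le_card hsub
      _ = ∑ m ∈ (Icc 1 (N / y0)).filter (b0 G), (κ * N / 2 * (1 / (m:ℝ)) - Real.log N) := by
          rw [sum_sub_distrib, ← mul_sum, sum_const, nsmul_eq_mul]; rfl
      _ ≤ ∑ m ∈ (Icc 1 (N / y0)).filter (b0 G), ∑ p ∈ (PG G (N / m)).filter (fun p => ¬ p ∣ m), Real.log p := sum_le_sum e2
      _ ≤ _ := sum_le_sum_of_subset_of_nonneg hsub (fun m hm _ => hnn m hm)
  linarith

open Classical in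
/-- the lower bound -/
theorem lb {G : ℕ → Prop} {κ : ℝ} (hκ : 0 < κ) {y0 : ℕ} (hy0 : 1 ≤ y0)
    (h : ∀ y : ℕ, y0 ≤ y → κ * y ≤ ∑ p ∈ PG G y, Real.log p) :
    ∃ c : ℝ, 0 < c ∧ ∀ N : ℕ, 3 * y0 ≤ N → ∀ D : ℕ, D ≤ N / y0 →
      c * (N * VG G D / Real.log N) ≤ ((((Icc 1 N).filter (b0 G)).card : ℕ) : ℝ) := by
  obtain ⟨C, hC, hall⟩ := VG_all
  refine ⟨κ / (8 * C), by positivity, fun N hN D hD => ?_⟩
  have hN3 : 3 ≤ N := by omega
  have hNr : (3:ℝ) ≤ N := by exact_mod_cast hN3
  have hlogN : 0 < Real.log N := Real.log_pos (by linarith)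
  set x := N / y0 with hx
  have hx3 : 3 ≤ x := by rw [hx, Nat.le_div_iff_mul_le hy0]; exact hN
  have hxr : (3:ℝ) ≤ x := by exact_mod_cast hx3
  have hlogx : 0 < Real.log x := Real.log_pos (by linarith)
  have h1 := count_ineq hκ hy0 h (N := N) (by omega)
  have h2 := harm_split G (x := x) (by omega)
  have h3 := hall x hx3
  rw [← VG_split G x] at h3
  have hV1 := VG_pos G x
  have hV2 := VG_pos (fun p => ¬ G p) x
  have hH := H0_nonneg G x
  -- VG G x ≤ 2 C H
  have h4 : VG G x ≤ 2 * C * H0 G x := by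
    have h5 : VG G x * Real.log x ≤ 2 * C * H0 G x * Real.log x := by
      calc VG G x * Real.log x ≤ VG G x * (2 * H0 G x * VG (fun p => ¬ G p) x) := mul_le_mul_of_nonneg_left h2 hV1.le
        _ = 2 * H0 G x * (VG G x * VG (fun p => ¬ G p) x) := by ring
        _ ≤ 2 * H0 G x * (C * Real.log x) := mul_le_mul_of_nonneg_left h3 (by positivity)
        _ = _ := by ring
    exact le_of_mul_le_mul_right h5 hlogx
  have h5 : VG G D ≤ 2 * C * H0 G x := (VG_mono G hD).trans h4
  have hN0 : (0:ℝ) < N := by linarith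
  rw [div_mul_div_comm, div_le_iff₀ (by positivity)]
  calc κ * (N * VG G D) ≤ κ * (N * (2 * C * H0 G x)) := by gcongr
    _ = 4 * C * (κ * N / 2 * H0 G x) := by ring
    _ ≤ 4 * C * (2 * ((((Icc 1 N).filter (b0 G)).card : ℕ) : ℝ) * Real.log N) := by gcongr
    _ = _ := by ring

end Pool.Agent.D0H53.SQ
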