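import Mathlib
import Pool.Agent.D0H53.SQ.LB
import Pool.Agent.W24.Katai

/-! Multiplicative sets of positive dimension; the identity of Ramaré. -/

open Finset
open Pool.Agent.W24.Katai (Mul1)

namespace Pool.Agent.D0H53.SQ

/-- a multiplicative set of integers whose primes have positive lower density relative to the primes -/
structure MSet (S : Set ℕ) : Prop where
  one : 1 ∈ S
  mul : ∀ m n : ℕ, Nat.Coprime m n → (m * n ∈ S ↔ m ∈ S ∧ n ∈ S)
  dens : ∃ κ : ℝ, 0 < κ ∧ ∃ y0 : ℕ, 1 ≤ y0 ∧ ∀ y : ℕ, y0 ≤ y → κ * y ≤ ∑ p ∈ PG (· ∈ S) y, Real.log p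

/-- the elements up to `N` -/
noncomputable def ST (S : Set ℕ) (N : ℕ) : Finset ℕ := by
  classical exact (Icc 1 N).filter (· ∈ S)

lemma mem_ST {S : Set ℕ} {N n : ℕ} : n ∈ ST S N ↔ 1 ≤ n ∧ n ≤ N ∧ n ∈ S := by
  classical
  unfold ST
  rw [mem_filter, mem_Icc]
  tauto

lemma ST_mono (S : Set ℕ) {M N : ℕ} (h : M ≤ N) : ST S M ⊆ ST S N := by
  intro n hn
  rw [mem_ST] at hn ⊢
  exact ⟨hn.1, hn.2.1.trans h, hn.2.2⟩

/-- primes dividing exactly once lie in the set -/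
lemma MSet.exact {S : Set ℕ} (hS : MSet S) {n p : ℕ} (hn : n ∈ S) (hp : p.Prime) (h1 : p ∣ n) (h2 : ¬ p^2 ∣ n) : p ∈ S := by
  obtain ⟨m, rfl⟩ := h1
  have hc : Nat.Coprime p m := by
    rw [Nat.Prime.coprime_iff_not_dvd hp]
    intro h
    exact h2 (by rw [sq]; exact Nat.mul_dvd_mul_left p h)
  exact ((hS.mul p m hc).mp hn).1

lemma MSet.b0_mem {S : Set ℕ} (hS : MSet S) {m : ℕ} (hm : b0 (· ∈ S) m) : m ∈ S := by
  obtain ⟨h1, h2⟩ := hm
  induction m using Nat.strong_induction_on with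
  | _ m ih =>
    by_cases h : m = 1
    · rw [h]; exact hS.one
    · obtain ⟨p, hp, k, rfl⟩ := Nat.exists_prime_and_dvd h
      have hk0 : 0 < k := Nat.pos_of_ne_zero (by rintro rfl; rw [mul_zero] at h1; exact not_squarefree_zero h1)
      have hc : Nat.Coprime p k := Nat.coprime_of_squarefree_mul h1
      rw [hS.mul p k hc]
      refine ⟨h2 p hp (Dvd.intro _ rfl), ih k ?_ (h1.squarefree_of_dvd (Dvd.intro_left _ rfl)) (fun q hq hqk => h2 q hq (hqk.trans (Dvd.intro_left _ rfl)))⟩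
      have := hp.one_lt
      nlinarith

open Classical in
lemma MSet.b0_card {S : Set ℕ} (hS : MSet S) (N : ℕ) : ((Icc 1 N).filter (b0 (· ∈ S))).card ≤ (ST S N).card := by
  apply card_le_card
  intro m hm
  rw [mem_filter, mem_Icc] at hm
  rw [mem_ST]
  exact ⟨hm.1.1, hm.1.2, hS.b0_mem hm.2⟩

open Classical in
/-- number of primes of the set dividing `n` -/
noncomputable def om (T : Finset ℕ) (n : ℕ) : ℕ := (T.filter (· ∣ n)).card

open Classical in
/-- the inner sums -/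
noncomputable def Zm (T : Finset ℕ) (N : ℕ) (g F : ℕ → ℂ) (m : ℕ) : ℂ := ∑ p ∈ T.filter (fun p => p * m ≤ N), g p * F (p * m)

open Classical in
/-- the identity of Ramaré, as an inequality -/
theorem ramare {S : Set ℕ} (hS : MSet S) {T : Finset ℕ} (hT : ∀ p ∈ T, p.Prime ∧ p ∈ S) {P1 : ℕ} (hP1 : 1 ≤ P1) (hTP : ∀ p ∈ T, P1 ≤ p)
    {F g : ℕ → ℂ} (hF : ∀ n, ‖F n‖ ≤ 1) (hg : Mul1 g) (N : ℕ) :
    ‖∑ n ∈ ST S N, g n * F n‖ ≤ (((ST S N).filter (fun n => ∀ p ∈ T, ¬ p ∣ n)).card : ℝ) +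
      ∑ p ∈ T, (((ST S N).filter (fun n => p^2 ∣ n)).card : ℝ) + ∑ p ∈ T, ((ST S (N / p^2)).card : ℝ) +
      ∑ m ∈ ST S (N / P1), ‖Zm T N g F m‖ := by
  set T0 := (ST S N).filter (fun n => ∀ p ∈ T, ¬ p ∣ n) with hT0
  set T1 := (ST S N).filter (fun n => ∃ p ∈ T, p^2 ∣ n) with hT1
  set T2 := (ST S N).filter (fun n => (¬ ∀ p ∈ T, ¬ p ∣ n) ∧ ¬ ∃ p ∈ T, p^2 ∣ n) with hT2
  set Ts := (ST S (N / P1)).filter (fun m => ∀ q ∈ T, ¬ q^2 ∣ m) with hTs
  have hx : ∀ n, ‖g n * F n‖ ≤ 1 := fun n => by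
    rw [norm_mul]
    calc ‖g n‖ * ‖F n‖ ≤ 1 * 1 := mul_le_mul (hg.1 n) (hF n) (norm_nonneg _) zero_le_one
      _ = 1 := one_mul 1
  -- splitting
  have h1 : ‖∑ n ∈ ST S N, g n * F n‖ ≤ (T0.card : ℝ) + T1.card + ‖∑ n ∈ T2, g n * F n‖ := by
    have hsub : T2 ⊆ ST S N := filter_subset _ _
    rw [← sum_sdiff hsub]
    refine (norm_add_le _ _).trans (add_le_add ?_ le_rfl)
    have h2 : ST S N \ T2 ⊆ T0 ∪ T1 := by
      intro n hn
      rw [mem_sdiff, hT2, mem_filter] at hn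
      rw [mem_union, hT0, hT1, mem_filter, mem_filter]
      by_cases h3 : ∀ p ∈ T, ¬ p ∣ n
      · exact Or.inl ⟨hn.1, h3⟩
      · right
        refine ⟨hn.1, ?_⟩
        by_contra h4
        exact hn.2 ⟨hn.1, h3, h4⟩
    calc ‖∑ n ∈ ST S N \ T2, g n * F n‖ ≤ ∑ n ∈ ST S N \ T2, 1 := (norm_sum_le _ _).trans (sum_le_sum fun n _ => hx n)
      _ = ((ST S N \ T2).card : ℝ) := by simp
      _ ≤ ((T0 ∪ T1).card : ℝ) := by exact_mod_cast card_le_card h2
      _ ≤ (T0.card : ℝ) + T1.card := by exact_mod_cast card_union_le _ _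
  have h1b : (T1.card : ℝ) ≤ ∑ p ∈ T, (((ST S N).filter (fun n => p^2 ∣ n)).card : ℝ) := by
    have : T1 ⊆ T.biUnion (fun p => (ST S N).filter (fun n => p^2 ∣ n)) := by
      intro n hn
      rw [hT1, mem_filter] at hn
      obtain ⟨hn, p, hp, hpn⟩ := hn
      rw [mem_biUnion]
      exact ⟨p, hp, by rw [mem_filter]; exact ⟨hn, hpn⟩⟩
    exact_mod_cast (card_le_card this).trans card_biUnion_le
  -- the main part
  have h2 : ∑ n ∈ T2, g n * F n = ∑ m ∈ Ts, (g m / (1 + om T m)) * ∑ p ∈ T.filter (fun p => p * m ≤ N ∧ ¬ p ∣ m), g p * F (p * m) := by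
    have e1 : ∀ n ∈ T2, g n * F n = ∑ p ∈ T.filter (· ∣ n), g n * F n / om T n := by
      intro n hn
      rw [hT2, mem_filter] at hn
      obtain ⟨hn, h3, h4⟩ := hn
      push Not at h3
      obtain ⟨p, hp, hpn⟩ := h3
      have : (om T n : ℂ) ≠ 0 := by
        unfold om
        have : (T.filter (· ∣ n)).Nonempty := ⟨p, by rw [mem_filter]; exact ⟨hp, hpn⟩⟩
        exact_mod_cast (card_pos.mpr this).ne'
      rw [sum_const, nsmul_eq_mul]
      change _ = (om T n : ℂ) * _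
      field_simp
    rw [sum_congr rfl e1]
    have e2 : ∑ n ∈ T2, ∑ p ∈ T.filter (· ∣ n), g n * F n / om T n = ∑ p ∈ T, ∑ n ∈ T2.filter (p ∣ ·), g n * F n / om T n := by
      simp only [sum_filter]
      exact sum_comm
    rw [e2]
    have e3 : ∀ p ∈ T, ∑ n ∈ T2.filter (p ∣ ·), g n * F n / om T n =
        ∑ m ∈ Ts.filter (fun m => p * m ≤ N ∧ ¬ p ∣ m), (g m / (1 + om T m)) * (g p * F (p * m)) := by
      intro p hp
      obtain ⟨hpp, hpS⟩ := hT p hp
      have hp0 : 0 < p := hpp.pos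
      have hset : T2.filter (p ∣ ·) = (Ts.filter (fun m => p * m ≤ N ∧ ¬ p ∣ m)).image (fun m => p * m) := by
        ext n
        rw [mem_filter, hT2, mem_filter, mem_ST, mem_image]
        constructor
        · rintro ⟨⟨⟨n1, n2, n3⟩, n4, n5⟩, m, rfl⟩
          have hpm : ¬ p ∣ m := by
            intro h
            exact n5 ⟨p, hp, by rw [sq]; exact Nat.mul_dvd_mul_left p h⟩
          have hc : Nat.Coprime p m := (Nat.Prime.coprime_iff_not_dvd hpp).mpr hpm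
          have hm0 : 1 ≤ m := Nat.pos_of_ne_zero (by rintro rfl; omega)
          refine ⟨m, ?_, rfl⟩
          rw [mem_filter, hTs, mem_filter, mem_ST]
          refine ⟨⟨⟨hm0, ?_, ((hS.mul p m hc).mp n3).2⟩, ?_⟩, n2, hpm⟩
          · rw [Nat.le_div_iff_mul_le hP1, mul_comm]
            exact (Nat.mul_le_mul_right m (hTP p hp)).trans n2
          · intro q hq hqm
            exact n5 ⟨q, hq, hqm.trans (Dvd.intro_left _ rfl)⟩
        · rintro ⟨m, hm, rfl⟩
          rw [mem_filter, hTs, mem_filter, mem_ST] at hm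
          obtain ⟨⟨⟨m1, m2, m3⟩, m4⟩, m5, m6⟩ := hm
          have hc : Nat.Coprime p m := (Nat.Prime.coprime_iff_not_dvd hpp).mpr m6
          refine ⟨⟨⟨Nat.mul_pos hp0 m1, m5, (hS.mul p m hc).mpr ⟨hpS, m3⟩⟩, ?_, ?_⟩, Dvd.intro _ rfl⟩
          · push Not
            exact ⟨p, hp, Dvd.intro _ rfl⟩
          · rintro ⟨q, hq, hqm⟩
            have hqp := (hT q hq).1
            by_cases hqp2 : q = p
            · subst hqp2
              rw [sq] at hqm
              exact m6 (Nat.dvd_of_mul_dvd_mul_left hp0 hqm)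
            · have hc2 : Nat.Coprime (q^2) p := Nat.Coprime.pow_left 2 ((Nat.coprime_primes hqp hpp).mpr hqp2)
              exact m4 q hq (hc2.dvd_of_dvd_mul_left hqm)
      rw [hset, sum_image (by
        intro x _ y _ hxy
        exact Nat.eq_of_mul_eq_mul_left hp0 hxy)]
      apply sum_congr rfl
      intro m hm
      rw [mem_filter, hTs, mem_filter, mem_ST] at hm
      obtain ⟨⟨⟨m1, m2, m3⟩, m4⟩, m5, m6⟩ := hm
      have hc : Nat.Coprime p m := (Nat.Prime.coprime_iff_not_dvd hpp).mpr m6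
      rw [hg.2 p m hc]
      have hom : om T (p * m) = 1 + om T m := by
        unfold om
        have : T.filter (· ∣ p * m) = insert p (T.filter (· ∣ m)) := by
          ext q
          rw [mem_filter, mem_insert, mem_filter]
          constructor
          · rintro ⟨q1, q2⟩
            rcases (Nat.Prime.dvd_mul (hT q q1).1).mp q2 with h | h
            · left; exact (Nat.prime_dvd_prime_iff_eq (hT q q1).1 hpp).mp h
            · right; exact ⟨q1, h⟩
          · rintro (rfl | ⟨q1, q2⟩)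
            · exact ⟨hp, Dvd.intro _ rfl⟩
            · exact ⟨q1, q2.trans (Dvd.intro_left _ rfl)⟩
        rw [this, card_insert_of_notMem (by rw [mem_filter]; tauto), add_comm]
      rw [hom]
      push_cast
      ring
    rw [sum_congr rfl e3]
    have e4 : ∀ m ∈ Ts, (g m / (1 + om T m)) * ∑ p ∈ T.filter (fun p => p * m ≤ N ∧ ¬ p ∣ m), g p * F (p * m) =
        ∑ p ∈ T, if (p * m ≤ N ∧ ¬ p ∣ m) then (g m / (1 + om T m)) * (g p * F (p * m)) else 0 := by
      intro m _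
      rw [sum_filter, mul_sum]
      apply sum_congr rfl; intro p _
      split_ifs
      · rfl
      · rw [mul_zero]
    rw [sum_congr rfl e4, sum_comm]
    apply sum_congr rfl; intro p _
    rw [sum_filter]
  have h3 : ‖∑ n ∈ T2, g n * F n‖ ≤ ∑ m ∈ Ts, ‖∑ p ∈ T.filter (fun p => p * m ≤ N ∧ ¬ p ∣ m), g p * F (p * m)‖ := by
    rw [h2]
    refine (norm_sum_le _ _).trans (sum_le_sum fun m _ => ?_)
    rw [norm_mul]
    apply mul_le_of_le_one_left (norm_nonneg _)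
    rw [norm_div]
    have e1 : ‖(1 + (om T m : ℂ))‖ = 1 + om T m := by
      have : (1 + (om T m : ℂ)) = ((1 + om T m : ℝ) : ℂ) := by push_cast; ring
      rw [this, Complex.norm_real, Real.norm_eq_abs, abs_of_pos (by positivity)]
    rw [e1, div_le_one (by positivity)]
    have := hg.1 m
    have h4 : (0:ℝ) ≤ om T m := Nat.cast_nonneg _
    linarith
  have h4 : ∀ m ∈ Ts, ‖∑ p ∈ T.filter (fun p => p * m ≤ N ∧ ¬ p ∣ m), g p * F (p * m)‖ ≤ ‖Zm T N g F m‖ +
      ∑ p ∈ T, (if p * m ≤ N ∧ p ∣ m then (1:ℝ) else 0) := by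
    intro m _
    have e1 : Zm T N g F m = ∑ p ∈ T.filter (fun p => p * m ≤ N ∧ ¬ p ∣ m), g p * F (p * m) +
        ∑ p ∈ T.filter (fun p => p * m ≤ N ∧ p ∣ m), g p * F (p * m) := by
      unfold Zm
      rw [← sum_filter_add_sum_filter_not (T.filter (fun p => p * m ≤ N)) (fun p => ¬ p ∣ m), filter_filter, filter_filter]
      congr 1
      simp only [not_not]
    have e2 : ∑ p ∈ T.filter (fun p => p * m ≤ N ∧ ¬ p ∣ m), g p * F (p * m) = Zm T N g F m -
        ∑ p ∈ T.filter (fun p => p * m ≤ N ∧ p ∣ m), g p * F (p * m) := by rw [e1]; ring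
    rw [e2]
    refine (norm_sub_le _ _).trans (add_le_add le_rfl ?_)
    rw [← sum_filter]
    refine (norm_sum_le _ _).trans (sum_le_sum fun p _ => ?_)
    rw [norm_mul]
    calc ‖g p‖ * ‖F (p * m)‖ ≤ 1 * 1 := mul_le_mul (hg.1 p) (hF _) (norm_nonneg _) zero_le_one
      _ = 1 := one_mul 1
  have h5 : ∑ m ∈ Ts, ∑ p ∈ T, (if p * m ≤ N ∧ p ∣ m then (1:ℝ) else 0) ≤ ∑ p ∈ T, ((ST S (N / p^2)).card : ℝ) := by
    rw [sum_comm]
    apply sum_le_sum; intro p hp
    obtain ⟨hpp, hpS⟩ := hT p hp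
    have hp0 : 0 < p := hpp.pos
    rw [← sum_filter, sum_const, nsmul_eq_mul, mul_one]
    have hsub : Ts.filter (fun m => p * m ≤ N ∧ p ∣ m) ⊆ (ST S (N / p^2)).image (fun m => p * m) := by
      intro m hm
      rw [mem_filter, hTs, mem_filter, mem_ST] at hm
      obtain ⟨⟨⟨m1, m2, m3⟩, m4⟩, m5, k, rfl⟩ := hm
      have hpk : ¬ p ∣ k := by
        intro h
        exact m4 p hp (by rw [sq]; exact Nat.mul_dvd_mul_left p h)
      have hc : Nat.Coprime p k := (Nat.Prime.coprime_iff_not_dvd hpp).mpr hpk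
      rw [mem_image]
      refine ⟨k, ?_, rfl⟩
      rw [mem_ST, Nat.le_div_iff_mul_le (by positivity)]
      exact ⟨Nat.pos_of_ne_zero (by rintro rfl; omega), by rw [mul_comm, sq, mul_assoc]; exact m5, ((hS.mul p k hc).mp m3).2⟩
    exact_mod_cast (card_le_card hsub).trans card_image_le
  calc ‖∑ n ∈ ST S N, g n * F n‖ ≤ (T0.card : ℝ) + T1.card + ‖∑ n ∈ T2, g n * F n‖ := h1
    _ ≤ (T0.card : ℝ) + ∑ p ∈ T, (((ST S N).filter (fun n => p^2 ∣ n)).card : ℝ) +
        ∑ m ∈ Ts, (‖Zm T N g F m‖ + ∑ p ∈ T, (if p * m ≤ N ∧ p ∣ m then (1:ℝ) else 0)) :=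
        add_le_add (add_le_add le_rfl h1b) (h3.trans (sum_le_sum h4))
    _ = (T0.card : ℝ) + ∑ p ∈ T, (((ST S N).filter (fun n => p^2 ∣ n)).card : ℝ) +
        (∑ m ∈ Ts, ‖Zm T N g F m‖ + ∑ m ∈ Ts, ∑ p ∈ T, (if p * m ≤ N ∧ p ∣ m then (1:ℝ) else 0)) := by
        rw [sum_add_distrib]
    _ ≤ (T0.card : ℝ) + ∑ p ∈ T, (((ST S N).filter (fun n => p^2 ∣ n)).card : ℝ) +
        (∑ m ∈ ST S (N / P1), ‖Zm T N g F m‖ + ∑ p ∈ T, ((ST S (N / p^2)).card : ℝ)) := by
        apply add_le_add le_rfl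
        apply add_le_add _ h5
        exact sum_le_sum_of_subset_of_nonneg (filter_subset _ _) (fun _ _ _ => norm_nonneg _)
    _ = _ := by ring

end Pool.Agent.D0H53.SQ
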