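import Mathlib
import Pool.Agent.D0H53.SQ.Ram

/-! The level of the sieve, the normalisation and the negligible errors. -/

open Finset Filter

namespace Pool.Agent.D0H53.SQ

/-- the level -/
noncomputable def DN (N : ℕ) : ℕ := ⌊(N:ℝ) ^ (1/128:ℝ)⌋₊

/-- the density -/
noncomputable def rho (G : ℕ → Prop) (N : ℕ) : ℝ := VG G (DN N) / Real.log (DN N)

lemma DN_le (N : ℕ) : (DN N : ℝ) ≤ (N:ℝ) ^ (1/128:ℝ) := Nat.floor_le (by positivity)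

lemma DN_ge {k N : ℕ} (h : k^128 ≤ N) : k ≤ DN N := by
  unfold DN
  rw [Nat.le_floor_iff (by positivity)]
  have h1 : (k:ℝ)^128 ≤ N := by exact_mod_cast h
  calc (k:ℝ) = ((k:ℝ)^128) ^ (1/128:ℝ) := by
        rw [← Real.rpow_natCast, ← Real.rpow_mul (Nat.cast_nonneg k)]; norm_num
    _ ≤ _ := Real.rpow_le_rpow (by positivity) h1 (by norm_num)

lemma DN_lower {N : ℕ} (hN : 1 ≤ N) : (N:ℝ) ^ (1/128:ℝ) / 2 ≤ DN N := by
  have h1 := Nat.lt_floor_add_one ((N:ℝ) ^ (1/128:ℝ))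
  have h2 : 1 ≤ (N:ℝ) ^ (1/128:ℝ) := Real.one_le_rpow (by exact_mod_cast hN) (by norm_num)
  have h3 : 1 ≤ DN N := DN_ge (by simpa using hN)
  have h3r : (1:ℝ) ≤ DN N := by exact_mod_cast h3
  unfold DN at *
  linarith

lemma DN_le_self {N : ℕ} (hN : 1 ≤ N) : DN N ≤ N := by
  have h1 := DN_le N
  have h2 : (N:ℝ) ^ (1/128:ℝ) ≤ (N:ℝ) ^ (1:ℝ) := Real.rpow_le_rpow_of_exponent_le (by exact_mod_cast hN) (by norm_num)
  rw [Real.rpow_one] at h2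
  exact_mod_cast h1.trans h2

lemma log_DN_pos {N : ℕ} (h : 2^128 ≤ N) : 0 < Real.log (DN N) := by
  have h1 := DN_ge h
  apply Real.log_pos
  have : (2:ℝ) ≤ DN N := by exact_mod_cast h1
  linarith

lemma rho_nonneg (G : ℕ → Prop) (N : ℕ) : 0 ≤ rho G N := by
  unfold rho
  apply div_nonneg (VG_pos _ _).le (Real.log_natCast_nonneg _)

lemma rho_lower (G : ℕ → Prop) {N : ℕ} (h : 2^128 ≤ N) : 1 / Real.log N ≤ rho G N := by
  have h1 := log_DN_pos h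
  have hN1 : 1 ≤ N := le_trans Nat.one_le_two_pow h
  have h2 : Real.log (DN N) ≤ Real.log N := by
    apply Real.log_le_log
    · have := DN_ge h
      exact_mod_cast (by omega : 0 < DN N)
    · exact_mod_cast DN_le_self hN1
  unfold rho
  calc 1 / Real.log N ≤ 1 / Real.log (DN N) := one_div_le_one_div_of_le h1 h2
    _ ≤ _ := div_le_div_of_nonneg_right (VG_one_le _ _) h1.le

/-- the errors -/
noncomputable def Er (N : ℕ) : ℝ := (N:ℝ) ^ (5/1024:ℝ) * ((DN N : ℝ)^11 * (N:ℝ) ^ (7/8:ℝ) + N / DN N)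

lemma Er_nonneg (N : ℕ) : 0 ≤ Er N := by unfold Er; positivity

lemma Er_le {N : ℕ} (hN : 1 ≤ N) : Er N ≤ 3 * (N:ℝ) ^ (511/512:ℝ) := by
  have hN1 : (1:ℝ) ≤ N := by exact_mod_cast hN
  have hN0 : (0:ℝ) < N := by linarith
  unfold Er
  have h1 : (DN N : ℝ)^11 ≤ (N:ℝ) ^ (11/128:ℝ) := by
    calc (DN N : ℝ)^11 ≤ ((N:ℝ) ^ (1/128:ℝ))^11 := pow_le_pow_left₀ (Nat.cast_nonneg _) (DN_le N) 11
      _ = _ := by rw [← Real.rpow_natCast, ← Real.rpow_mul hN0.le]; norm_num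
  have h2 : (N:ℝ) / DN N ≤ 2 * (N:ℝ) ^ (127/128:ℝ) := by
    have h3 := DN_lower hN
    have h4 : 0 < (N:ℝ) ^ (1/128:ℝ) / 2 := by positivity
    calc (N:ℝ) / DN N ≤ N / ((N:ℝ) ^ (1/128:ℝ) / 2) := div_le_div_of_nonneg_left hN0.le h4 h3
      _ = 2 * (N / (N:ℝ) ^ (1/128:ℝ)) := by field_simp
      _ = 2 * (N:ℝ) ^ (127/128:ℝ) := by
          congr 1
          nth_rewrite 1 [← Real.rpow_one (N:ℝ)]
          rw [← Real.rpow_sub hN0]; norm_num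
  calc (N:ℝ) ^ (5/1024:ℝ) * ((DN N : ℝ)^11 * (N:ℝ) ^ (7/8:ℝ) + N / DN N) ≤
        (N:ℝ) ^ (5/1024:ℝ) * ((N:ℝ) ^ (11/128:ℝ) * (N:ℝ) ^ (7/8:ℝ) + 2 * (N:ℝ) ^ (127/128:ℝ)) := by gcongr
    _ ≤ (N:ℝ) ^ (5/1024:ℝ) * ((N:ℝ) ^ (127/128:ℝ) + 2 * (N:ℝ) ^ (127/128:ℝ)) := by
        have : (N:ℝ) ^ (11/128:ℝ) * (N:ℝ) ^ (7/8:ℝ) ≤ (N:ℝ) ^ (127/128:ℝ) := by
          rw [← Real.rpow_add hN0]
          exact Real.rpow_le_rpow_of_exponent_le hN1 (by norm_num)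
        gcongr
    _ = 3 * ((N:ℝ) ^ (5/1024:ℝ) * (N:ℝ) ^ (127/128:ℝ)) := by ring
    _ ≤ 3 * (N:ℝ) ^ (511/512:ℝ) := by
        rw [← Real.rpow_add hN0]
        apply mul_le_mul_of_nonneg_left _ (by norm_num)
        exact Real.rpow_le_rpow_of_exponent_le hN1 (by norm_num)

lemma pow_small {δ : ℝ} (hδ : 0 < δ) (K : ℝ) {ε : ℝ} (hε : 0 < ε) : ∃ N0 : ℕ, ∀ N : ℕ, N0 ≤ N →
    ∀ G : ℕ → Prop, K * (N:ℝ) ^ (1 - δ) ≤ ε * (N * rho G N) := by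
  have hK : 0 ≤ |K| := abs_nonneg K
  have ev1 : ∀ᶠ N : ℕ in Filter.atTop, |K| * (2 / δ) / ε ≤ (N:ℝ) ^ (δ/2) :=
    (((tendsto_rpow_atTop (by positivity : (0:ℝ) < δ/2)).comp tendsto_natCast_atTop_atTop).eventually_ge_atTop _)
  obtain ⟨N1, hN1⟩ := Filter.eventually_atTop.mp ev1
  refine ⟨max N1 (2^128), fun N hN G => ?_⟩
  have h128 : 2^128 ≤ N := le_trans (le_max_right _ _) hN
  have g1 := hN1 N (le_trans (le_max_left _ _) hN)
  have hN3 : 3 ≤ N := le_trans (by norm_num) h128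
  have hNr : (3:ℝ) ≤ N := by exact_mod_cast hN3
  have hN0 : (0:ℝ) < N := by linarith
  have hlog : 0 < Real.log N := Real.log_pos (by linarith)
  have h3 : Real.log N ≤ (N:ℝ) ^ (δ/2) / (δ/2) := Real.log_le_rpow_div hN0.le (by positivity)
  have h4 : |K| * Real.log N ≤ ε * (N:ℝ) ^ δ := by
    rw [div_le_iff₀ hε] at g1
    have e1 : (N:ℝ) ^ δ = (N:ℝ) ^ (δ/2) * (N:ℝ) ^ (δ/2) := by rw [← Real.rpow_add hN0]; congr 1; ring
    calc |K| * Real.log N ≤ |K| * ((N:ℝ) ^ (δ/2) / (δ/2)) := by gcongr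
      _ = (|K| * (2/δ)) * (N:ℝ) ^ (δ/2) := by field_simp
      _ ≤ ((N:ℝ) ^ (δ/2) * ε) * (N:ℝ) ^ (δ/2) := by gcongr
      _ = _ := by rw [e1]; ring
  have h5 := rho_lower G h128
  calc K * (N:ℝ) ^ (1 - δ) ≤ |K| * (N:ℝ) ^ (1 - δ) := mul_le_mul_of_nonneg_right (le_abs_self K) (by positivity)
    _ = (|K| * Real.log N) * (N:ℝ) ^ (1 - δ) / Real.log N := by field_simp
    _ ≤ (ε * (N:ℝ) ^ δ) * (N:ℝ) ^ (1 - δ) / Real.log N := by gcongr
    _ = ε * ((N:ℝ) ^ δ * (N:ℝ) ^ (1 - δ)) / Real.log N := by ring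
    _ = ε * (N * (1 / Real.log N)) := by
        rw [← Real.rpow_add hN0]
        have : δ + (1 - δ) = 1 := by ring
        rw [this, Real.rpow_one]; ring
    _ ≤ ε * (N * rho G N) := by gcongr

lemma Er_small (K : ℝ) {ε : ℝ} (hε : 0 < ε) : ∃ N0 : ℕ, ∀ N : ℕ, N0 ≤ N →
    ∀ G : ℕ → Prop, K * Er N ≤ ε * (N * rho G N) := by
  obtain ⟨N0, h⟩ := pow_small (δ := 1/512) (by norm_num) (3 * |K|) hε
  refine ⟨max N0 1, fun N hN G => ?_⟩
  have h1 := h N (le_trans (le_max_left _ _) hN) G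
  have h2 := Er_le (N := N) (le_trans (le_max_right _ _) hN)
  have e1 : (1:ℝ) - 1/512 = 511/512 := by norm_num
  rw [e1] at h1
  calc K * Er N ≤ |K| * Er N := mul_le_mul_of_nonneg_right (le_abs_self K) (Er_nonneg N)
    _ ≤ |K| * (3 * (N:ℝ) ^ (511/512:ℝ)) := mul_le_mul_of_nonneg_left h2 (abs_nonneg K)
    _ = 3 * |K| * (N:ℝ) ^ (511/512:ℝ) := by ring
    _ ≤ _ := h1

lemma Er_ge1 {N : ℕ} (hN : 1 ≤ N) : (DN N : ℝ)^11 * (N:ℝ) ^ (7/8:ℝ) ≤ Er N := by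
  have h2 : 1 ≤ (N:ℝ) ^ (5/1024:ℝ) := Real.one_le_rpow (by exact_mod_cast hN) (by norm_num)
  have h3 : 0 ≤ (DN N : ℝ)^11 * (N:ℝ) ^ (7/8:ℝ) + N / DN N := by positivity
  have h4 : 0 ≤ (N:ℝ) / DN N := by positivity
  unfold Er
  nlinarith

lemma Er_ge2 {N : ℕ} (hN : 1 ≤ N) : N / (DN N : ℝ) ≤ Er N := by
  have h2 : 1 ≤ (N:ℝ) ^ (5/1024:ℝ) := Real.one_le_rpow (by exact_mod_cast hN) (by norm_num)
  have h3 : 0 ≤ (DN N : ℝ)^11 * (N:ℝ) ^ (7/8:ℝ) + N / DN N := by positivity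
  have h4 : 0 ≤ (DN N : ℝ)^11 * (N:ℝ) ^ (7/8:ℝ) := by positivity
  unfold Er
  nlinarith

lemma Er_ge3 {N : ℕ} (hN : 1 ≤ N) : (DN N : ℝ)^4 ≤ Er N := by
  refine le_trans ?_ (Er_ge1 hN)
  have h1 : 1 ≤ DN N := DN_ge (by simpa using hN)
  have h1r : (1:ℝ) ≤ DN N := by exact_mod_cast h1
  have h2 : 1 ≤ (N:ℝ) ^ (7/8:ℝ) := Real.one_le_rpow (by exact_mod_cast hN) (by norm_num)
  calc (DN N : ℝ)^4 ≤ (DN N : ℝ)^11 := pow_le_pow_right₀ h1r (by norm_num)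
    _ = (DN N : ℝ)^11 * 1 := (mul_one _).symm
    _ ≤ _ := mul_le_mul_of_nonneg_left h2 (by positivity)

/-- the lower bound in terms of the normalisation -/
theorem card_lower {S : Set ℕ} (hS : MSet S) : ∃ c : ℝ, 0 < c ∧ ∃ N0 : ℕ, ∀ N : ℕ, N0 ≤ N →
    c * (N * rho (· ∈ S) N) ≤ (ST S N).card := by
  classical
  obtain ⟨κ, hκ, y0, hy0, hd⟩ := hS.dens
  obtain ⟨c, hc, hlb⟩ := lb hκ hy0 hd
  refine ⟨c / 256, by positivity, max (max (3 * y0) (2^256)) (y0^2), fun N hN => ?_⟩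
  have h3y : 3 * y0 ≤ N := le_trans (le_trans (le_max_left _ _) (le_max_left _ _)) hN
  have h256 : 2^256 ≤ N := le_trans (le_trans (le_max_right _ _) (le_max_left _ _)) hN
  have hy2 : y0^2 ≤ N := le_trans (le_max_right _ _) hN
  have h128 : 2^128 ≤ N := le_trans (Nat.pow_le_pow_right (by norm_num) (by norm_num)) h256
  have hN1 : 1 ≤ N := le_trans Nat.one_le_two_pow h128
  have hNr : (1:ℝ) ≤ N := by exact_mod_cast hN1
  have hN0 : (0:ℝ) < N := by linarith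
  have hN2 : (2:ℝ) ≤ N := by
    have : 2 ≤ N := le_trans (by norm_num) h128
    exact_mod_cast this
  have hlogN : 0 < Real.log N := Real.log_pos (by linarith)
  have hDy : DN N ≤ N / y0 := by
    rw [Nat.le_div_iff_mul_le hy0]
    have h1 : (DN N : ℝ) * y0 ≤ N := by
      calc (DN N : ℝ) * y0 ≤ (N:ℝ) ^ (1/2:ℝ) * (N:ℝ) ^ (1/2:ℝ) := by
            have h2 : (DN N : ℝ) ≤ (N:ℝ) ^ (1/2:ℝ) := (DN_le N).trans (Real.rpow_le_rpow_of_exponent_le hNr (by norm_num))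
            have h3 : (y0:ℝ) ≤ (N:ℝ) ^ (1/2:ℝ) := by
              have h4 : ((y0:ℝ))^2 ≤ N := by exact_mod_cast hy2
              calc (y0:ℝ) = ((y0:ℝ)^2) ^ (1/2:ℝ) := by
                    rw [← Real.rpow_natCast, ← Real.rpow_mul (Nat.cast_nonneg y0)]; norm_num
                _ ≤ _ := Real.rpow_le_rpow (by positivity) h4 (by norm_num)
            exact mul_le_mul h2 h3 (Nat.cast_nonneg _) (by positivity)
        _ = N := by rw [← Real.rpow_add hN0]; norm_num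
    exact_mod_cast h1
  have h1 := hlb N h3y (DN N) hDy
  have h2 : (((Icc 1 N).filter (b0 (· ∈ S))).card : ℝ) ≤ (ST S N).card := by exact_mod_cast hS.b0_card N
  refine le_trans ?_ (h1.trans h2)
  -- log D ≥ log N / 256
  have h3 : Real.log N / 256 ≤ Real.log (DN N) := by
    have h4 := DN_lower hN1
    have h5 : (N:ℝ) ^ (1/256:ℝ) ≤ (N:ℝ) ^ (1/128:ℝ) / 2 := by
      have h6 : 2 ≤ (N:ℝ) ^ (1/256:ℝ) := by
        have h7 : (2:ℝ)^256 ≤ N := by exact_mod_cast h256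
        calc (2:ℝ) = ((2:ℝ)^256) ^ (1/256:ℝ) := by
              rw [← Real.rpow_natCast, ← Real.rpow_mul (by norm_num)]; norm_num
          _ ≤ _ := Real.rpow_le_rpow (by positivity) h7 (by norm_num)
      have h8 : (N:ℝ) ^ (1/128:ℝ) = (N:ℝ) ^ (1/256:ℝ) * (N:ℝ) ^ (1/256:ℝ) := by
        rw [← Real.rpow_add hN0]; norm_num
      rw [h8]
      nlinarith
    calc Real.log N / 256 = Real.log ((N:ℝ) ^ (1/256:ℝ)) := by rw [Real.log_rpow hN0]; ring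
      _ ≤ Real.log (DN N) := Real.log_le_log (by positivity) (h5.trans h4)
  have h4 := log_DN_pos h128
  unfold rho
  have h5 : VG (· ∈ S) (DN N) / Real.log (DN N) ≤ 256 * (VG (· ∈ S) (DN N) / Real.log N) := by
    have hV := VG_pos (· ∈ S) (DN N)
    rw [div_le_iff₀ h4]
    calc VG (· ∈ S) (DN N) = 256 * (VG (· ∈ S) (DN N) / Real.log N) * (Real.log N / 256) := by field_simp
      _ ≤ 256 * (VG (· ∈ S) (DN N) / Real.log N) * Real.log (DN N) := by gcongr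
  calc c / 256 * (N * (VG (· ∈ S) (DN N) / Real.log (DN N))) ≤ c / 256 * (N * (256 * (VG (· ∈ S) (DN N) / Real.log N))) := by gcongr
    _ = _ := by ring

end Pool.Agent.D0H53.SQ
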