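import Mathlib
import Pool.Agent.D0H53.SQ.Nrm
import Pool.Agent.D0H53.SQ.ES

/-! Second moments with sieve weights. -/

open Finset
open Pool.Agent.H469R2.NK
open Pool.Agent.W24.Katai (Mul1)

namespace Pool.Agent.D0H53.SQ

/-- weighted quadratic forms -/
lemma wquad (P T : Finset ℕ) (w : ℕ → ℝ) (x : ℕ → ℕ → ℂ) (B : ℕ → ℕ → ℝ) (hB0 : ∀ m m', 0 ≤ B m m')
    (hB : ∀ m ∈ T, ∀ m' ∈ T, m ≠ m' → ‖∑ s ∈ P, ((w s : ℝ) : ℂ) * (x m s * (starRingEnd ℂ) (x m' s))‖ ≤ B m m') :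
    ∑ s ∈ P, w s * ‖∑ m ∈ T, x m s‖^2 ≤ ∑ m ∈ T, ∑ s ∈ P, w s * ‖x m s‖^2 + ∑ m ∈ T, ∑ m' ∈ T, B m m' := by
  have e0 : ∀ z : ℂ, ((‖z‖^2 : ℝ) : ℂ) = z * (starRingEnd ℂ) z := fun z => by
    rw [Complex.mul_conj, Complex.normSq_eq_norm_sq]
  have e1 : ((∑ s ∈ P, w s * ‖∑ m ∈ T, x m s‖^2 : ℝ) : ℂ) =
      ∑ m ∈ T, ∑ m' ∈ T, ∑ s ∈ P, ((w s : ℝ) : ℂ) * (x m s * (starRingEnd ℂ) (x m' s)) := by
    have h1 : ∀ s ∈ P, ((w s * ‖∑ m ∈ T, x m s‖^2 : ℝ) : ℂ) =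
        ∑ m ∈ T, ∑ m' ∈ T, ((w s : ℝ) : ℂ) * (x m s * (starRingEnd ℂ) (x m' s)) := by
      intro s _
      rw [Complex.ofReal_mul, e0, map_sum, sum_mul_sum, mul_sum]
      apply sum_congr rfl; intro m _
      rw [mul_sum]
    rw [Complex.ofReal_sum, sum_congr rfl h1, sum_comm]
    apply sum_congr rfl; intro m _
    rw [sum_comm]
  have e2 : ((∑ m ∈ T, ∑ s ∈ P, w s * ‖x m s‖^2 : ℝ) : ℂ) = ∑ m ∈ T, ∑ s ∈ P, ((w s : ℝ) : ℂ) * (x m s * (starRingEnd ℂ) (x m s)) := by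
    rw [Complex.ofReal_sum]
    apply sum_congr rfl; intro m _
    rw [Complex.ofReal_sum]
    apply sum_congr rfl; intro s _
    rw [Complex.ofReal_mul, e0]
  have e3 : ‖((∑ s ∈ P, w s * ‖∑ m ∈ T, x m s‖^2 : ℝ) : ℂ) - ((∑ m ∈ T, ∑ s ∈ P, w s * ‖x m s‖^2 : ℝ) : ℂ)‖ ≤ ∑ m ∈ T, ∑ m' ∈ T, B m m' := by
    rw [e1, e2, ← sum_sub_distrib]
    refine (norm_sum_le _ _).trans (sum_le_sum fun m hm => ?_)
    classical
    rw [← Finset.add_sum_erase T _ hm, add_sub_cancel_left]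
    refine (norm_sum_le _ _).trans ?_
    calc _ ≤ ∑ m' ∈ T.erase m, B m m' := sum_le_sum fun m' hm' => hB m hm m' (mem_of_mem_erase hm') (ne_of_mem_erase hm').symm
      _ ≤ _ := sum_le_sum_of_subset_of_nonneg (erase_subset _ _) (fun m' _ _ => hB0 m m')
  rw [← Complex.ofReal_sub, Complex.norm_real, Real.norm_eq_abs] at e3
  have := le_abs_self (∑ s ∈ P, w s * ‖∑ m ∈ T, x m s‖^2 - ∑ m ∈ T, ∑ s ∈ P, w s * ‖x m s‖^2)
  linarith

/-- the phases -/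
noncomputable def Fp (θ α : ℝ) (n : ℕ) : ℂ := e (θ * √(n:ℝ) + α * n)

lemma Fp_norm (θ α : ℝ) (n : ℕ) : ‖Fp θ α n‖ = 1 := norm_e _

lemma sqrt_ne {p q : ℕ} (h : p ≠ q) : √(p:ℝ) - √(q:ℝ) ≠ 0 := by
  rw [sub_ne_zero]
  intro h1
  have h2 : (p:ℝ) = q := by
    have := congrArg (fun x => x^2) h1
    simp only [Real.sq_sqrt (Nat.cast_nonneg p), Real.sq_sqrt (Nat.cast_nonneg q)] at this
    exact this
  exact h (by exact_mod_cast h2)

open Classical in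
/-- second moment of the inner sums -/
theorem second {S : Set ℕ} (hS : MSet S) {w : ℕ → ℝ} {ρ : ℝ} {D : ℕ} (hD : 1 ≤ D) (hρ : 0 ≤ ρ)
    (hw0 : ∀ n, 0 ≤ w n) (hw1 : ∀ s, 1 ≤ s → (∀ p : ℕ, p.Prime → p ∣ s → p ∈ S) → w s = 1)
    (hw2 : ∀ X : ℕ, ∑ n ∈ Icc 1 X, w n ≤ X * ρ + (D:ℝ)^2)
    (hw : ∀ (X : ℕ) (F : ℕ → ℂ) (B : ℝ), (∀ δ : ℕ, 1 ≤ δ → δ ≤ D^2 → ‖∑ n ∈ Icc 1 X, (if δ ∣ n then F n else 0)‖ ≤ B) →
      ‖∑ n ∈ Icc 1 X, ((w n : ℝ) : ℂ) * F n‖ ≤ (D:ℝ)^2 * B)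
    {T : Finset ℕ} (hT : ∀ p ∈ T, 1 ≤ p) {θ : ℝ} (hθ : θ ≠ 0) {W : ℝ} (hW0 : 0 ≤ W)
    (hW : ∀ p ∈ T, ∀ p' ∈ T, p ≠ p' → 718 * √(1/|θ * (√(p:ℝ) - √(p':ℝ))| + |θ * (√(p:ℝ) - √(p':ℝ))|) ≤ W)
    (α : ℝ) {g : ℕ → ℂ} (hg : ∀ n, ‖g n‖ ≤ 1) {Y N : ℕ} (hYN : Y ≤ N) :
    ∑ m ∈ ST S Y, ‖Zm T N g (Fp θ α) m‖^2 ≤ 4 * (N * ρ) * ∑ p ∈ T, 1 / (p:ℝ) + T.card * (D:ℝ)^4 +
      (T.card:ℝ)^2 * W * ((D:ℝ)^11 * (N:ℝ) ^ (7/8:ℝ)) + N / D * (T.card:ℝ)^2 := by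
  have hNr : (0:ℝ) ≤ N := Nat.cast_nonneg N
  have hDr : (1:ℝ) ≤ D := by exact_mod_cast hD
  have hZ : ∀ m, ‖Zm T N g (Fp θ α) m‖ ≤ T.card := by
    intro m
    unfold Zm
    calc _ ≤ ∑ p ∈ T.filter (fun p => p * m ≤ N), (1:ℝ) := by
          refine (norm_sum_le _ _).trans (sum_le_sum fun p _ => ?_)
          rw [norm_mul, Fp_norm, mul_one]; exact hg p
      _ = ((T.filter (fun p => p * m ≤ N)).card : ℝ) := by simp
      _ ≤ T.card := by exact_mod_cast card_filter_le _ _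
  have hcov := cover (R := (· ∈ S)) (Q := fun _ _ => True) (G := (· ∈ S)) (by
    intro a c s ha hc hs hr hp
    refine ⟨trivial, fun p hpp hps => ?_⟩
    exact hS.exact hr hpp (hps.trans (Dvd.intro_left _ rfl)) (hp p hpp hps)) hw0 hw1 (X := Y) hD
    (f := fun m => ‖Zm T N g (Fp θ α) m‖^2) (fun _ => sq_nonneg _) (K := (T.card:ℝ)^2)
    (fun m _ => pow_le_pow_left₀ (norm_nonneg _) (hZ m) 2)
  simp only [if_true] at hcov
  have e0 : ∑ m ∈ ST S Y, ‖Zm T N g (Fp θ α) m‖^2 = ∑ n ∈ (Icc 1 Y).filter (· ∈ S), ‖Zm T N g (Fp θ α) n‖^2 := by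
    apply sum_congr _ (fun _ _ => rfl)
    ext n; rw [mem_ST, mem_filter, mem_Icc]; tauto
  rw [e0]
  refine hcov.trans ?_
  have hYD : (Y:ℝ) / D * (T.card:ℝ)^2 ≤ N / D * (T.card:ℝ)^2 := by
    have : (Y:ℝ) ≤ N := by exact_mod_cast hYN
    gcongr
  refine add_le_add ?_ hYD
  -- the blocks
  have hblk : ∀ a ∈ Icc 1 D, ∀ c ∈ Icc 1 D,
      ∑ s ∈ Icc 1 (Y / (a^2 * c^3)), w s * ‖Zm T N g (Fp θ α) (a^2 * c^3 * s)‖^2 ≤
      ∑ p ∈ T, ∑ s ∈ Icc 1 ((N / p) / (a^2 * c^3)), w s + (T.card:ℝ)^2 * (W * ((D:ℝ)^9 * (N:ℝ) ^ (7/8:ℝ))) := by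
    intro a ha c hc
    rw [mem_Icc] at ha hc
    set b := a^2 * c^3 with hb
    have hb1 : 1 ≤ b := by
      have := ha.1; have := hc.1; rw [hb]; exact Nat.mul_pos (by positivity) (by positivity)
    have hb5 : b ≤ D^5 := by
      rw [hb]
      calc a^2 * c^3 ≤ D^2 * D^3 := Nat.mul_le_mul (Nat.pow_le_pow_left ha.2 2) (Nat.pow_le_pow_left hc.2 3)
        _ = D^5 := by ring
    set x : ℕ → ℕ → ℂ := fun p s => if p * (b * s) ≤ N then g p * Fp θ α (p * (b * s)) else 0 with hx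
    have e1 : ∀ s, Zm T N g (Fp θ α) (b * s) = ∑ p ∈ T, x p s := by
      intro s
      unfold Zm
      rw [sum_filter]
    have h1 := wquad (Icc 1 (Y / b)) T w x (fun _ _ => W * ((D:ℝ)^9 * (N:ℝ) ^ (7/8:ℝ))) (fun _ _ => by positivity) (by
      intro p hp p' hp' hne
      have hh : θ * (√(p:ℝ) - √(p':ℝ)) ≠ 0 := mul_ne_zero hθ (sqrt_ne hne)
      set X' := min (Y / b) (min ((N / p) / b) ((N / p') / b)) with hX'
      have hp1 := hT p hp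
      have hp'1 := hT p' hp'
      have hcond : ∀ s q : ℕ, 1 ≤ q → (q * (b * s) ≤ N ↔ s ≤ (N / q) / b) := by
        intro s q hq
        rw [Nat.le_div_iff_mul_le hb1, Nat.le_div_iff_mul_le hq]
        constructor
        · intro h; calc s * b * q = q * (b * s) := by ring
            _ ≤ N := h
        · intro h; calc q * (b * s) = s * b * q := by ring
            _ ≤ N := h
      have e2 : ∑ s ∈ Icc 1 (Y / b), ((w s : ℝ) : ℂ) * (x p s * (starRingEnd ℂ) (x p' s)) =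
          (g p * (starRingEnd ℂ) (g p')) * ∑ s ∈ Icc 1 X', ((w s : ℝ) : ℂ) *
            e ((θ * (√(p:ℝ) - √(p':ℝ))) * √((b * s : ℕ):ℝ) + (α * ((p:ℝ) - p') * b) * s) := by
        have hI : Icc 1 X' = (Icc 1 (Y / b)).filter (fun s => p * (b * s) ≤ N ∧ p' * (b * s) ≤ N) := by
          ext s
          rw [mem_filter, mem_Icc, mem_Icc, hX', le_min_iff, le_min_iff, hcond s p hp1, hcond s p' hp'1]
          tauto
        rw [hI, sum_filter, mul_sum]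
        apply sum_congr rfl; intro s _
        simp only [hx]
        by_cases h1 : p * (b * s) ≤ N
        · by_cases h2 : p' * (b * s) ≤ N
          · rw [if_pos h1, if_pos h2, if_pos ⟨h1, h2⟩]
            unfold Fp
            rw [map_mul, conj_e]
            have e3 : e (θ * √((p * (b * s) : ℕ):ℝ) + α * ((p * (b * s) : ℕ):ℝ)) * e (-(θ * √((p' * (b * s) : ℕ):ℝ) + α * ((p' * (b * s) : ℕ):ℝ))) =
                e ((θ * (√(p:ℝ) - √(p':ℝ))) * √((b * s : ℕ):ℝ) + (α * ((p:ℝ) - p') * b) * s) := by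
              rw [← e_add]
              congr 1
              have s1 : √((p * (b * s) : ℕ):ℝ) = √(p:ℝ) * √((b * s : ℕ):ℝ) := by
                rw [Nat.cast_mul p, Real.sqrt_mul (Nat.cast_nonneg p)]
              have s2 : √((p' * (b * s) : ℕ):ℝ) = √(p':ℝ) * √((b * s : ℕ):ℝ) := by
                rw [Nat.cast_mul p', Real.sqrt_mul (Nat.cast_nonneg p')]
              rw [s1, s2]
              push_cast
              ring
            rw [← e3]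
            ring
          · have hno : ¬ (p * (b * s) ≤ N ∧ p' * (b * s) ≤ N) := fun h => h2 h.2
            rw [if_neg h2, if_neg hno]
            simp only [map_zero, mul_zero]
        · have hno : ¬ (p * (b * s) ≤ N ∧ p' * (b * s) ≤ N) := fun h => h1 h.1
          rw [if_neg h1, if_neg hno]
          simp only [zero_mul, mul_zero]
      rw [e2, norm_mul]
      have h2 := w_es hD hw hh (α * ((p:ℝ) - p') * b) X' b hb1 hb5
      have h3 : (X':ℝ) ^ (7/8:ℝ) ≤ (N:ℝ) ^ (7/8:ℝ) := by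
        apply Real.rpow_le_rpow (Nat.cast_nonneg _) _ (by norm_num)
        have : X' ≤ N := (min_le_left _ _).trans ((Nat.div_le_self _ _).trans hYN)
        exact_mod_cast this
      have h4 : ‖g p * (starRingEnd ℂ) (g p')‖ ≤ 1 := by
        rw [norm_mul, RCLike.norm_conj]
        calc ‖g p‖ * ‖g p'‖ ≤ 1 * 1 := mul_le_mul (hg p) (hg p') (norm_nonneg _) zero_le_one
          _ = 1 := one_mul 1
      calc _ ≤ 1 * (718 * √(1/|θ * (√(p:ℝ) - √(p':ℝ))| + |θ * (√(p:ℝ) - √(p':ℝ))|) * (D:ℝ)^9 * (X':ℝ) ^ (7/8:ℝ)) :=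
            mul_le_mul h4 h2 (norm_nonneg _) zero_le_one
        _ ≤ 1 * (W * (D:ℝ)^9 * (N:ℝ) ^ (7/8:ℝ)) := by
            have := hW p hp p' hp' hne
            gcongr
        _ = _ := by ring)
    have h2 : ∑ s ∈ Icc 1 (Y / b), w s * ‖Zm T N g (Fp θ α) (b * s)‖^2 = ∑ s ∈ Icc 1 (Y / b), w s * ‖∑ p ∈ T, x p s‖^2 := by
      apply sum_congr rfl; intro s _; rw [e1]
    rw [h2]
    refine h1.trans (add_le_add ?_ ?_)
    · apply sum_le_sum; intro p hp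
      have hp1 := hT p hp
      calc ∑ s ∈ Icc 1 (Y / b), w s * ‖x p s‖^2 ≤ ∑ s ∈ Icc 1 (Y / b), (if p * (b * s) ≤ N then w s else 0) := by
            apply sum_le_sum; intro s _
            simp only [hx]
            split_ifs
            · apply mul_le_of_le_one_right (hw0 s)
              rw [norm_mul, Fp_norm, mul_one]
              calc ‖g p‖^2 ≤ 1^2 := pow_le_pow_left₀ (norm_nonneg _) (hg p) 2
                _ = 1 := one_pow 2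
            · simp
        _ = ∑ s ∈ (Icc 1 (Y / b)).filter (fun s => p * (b * s) ≤ N), w s := by rw [sum_filter]
        _ ≤ ∑ s ∈ Icc 1 ((N / p) / b), w s := by
            apply sum_le_sum_of_subset_of_nonneg
            · intro s hs
              rw [mem_filter, mem_Icc] at hs
              rw [mem_Icc, Nat.le_div_iff_mul_le hb1, Nat.le_div_iff_mul_le hp1]
              refine ⟨hs.1.1, ?_⟩
              calc s * b * p = p * (b * s) := by ring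
                _ ≤ N := hs.2
            · intro s _ _; exact hw0 s
    · rw [sum_const, sum_const, nsmul_eq_mul, nsmul_eq_mul]
      apply le_of_eq; ring
  calc _ ≤ ∑ a ∈ Icc 1 D, ∑ c ∈ Icc 1 D, (∑ p ∈ T, ∑ s ∈ Icc 1 ((N / p) / (a^2 * c^3)), w s +
          (T.card:ℝ)^2 * (W * ((D:ℝ)^9 * (N:ℝ) ^ (7/8:ℝ)))) := sum_le_sum fun a ha => sum_le_sum fun c hc => hblk a ha c hc
    _ = ∑ p ∈ T, ∑ a ∈ Icc 1 D, ∑ c ∈ Icc 1 D, ∑ s ∈ Icc 1 ((N / p) / (a^2 * c^3)), w s +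
          (T.card:ℝ)^2 * W * ((D:ℝ)^11 * (N:ℝ) ^ (7/8:ℝ)) := by
        simp only [sum_add_distrib, sum_const, Nat.card_Icc, nsmul_eq_mul, Nat.add_sub_cancel]
        congr 1
        · have : ∀ a ∈ Icc 1 D, ∑ c ∈ Icc 1 D, ∑ p ∈ T, ∑ s ∈ Icc 1 ((N / p) / (a^2 * c^3)), w s =
              ∑ p ∈ T, ∑ c ∈ Icc 1 D, ∑ s ∈ Icc 1 ((N / p) / (a^2 * c^3)), w s := fun a _ => sum_comm
          rw [sum_congr rfl this, sum_comm]
        · ring
    _ ≤ ∑ p ∈ T, (4 * (N * ρ) * (1 / (p:ℝ)) + (D:ℝ)^4) + (T.card:ℝ)^2 * W * ((D:ℝ)^11 * (N:ℝ) ^ (7/8:ℝ)) := by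
        apply add_le_add _ le_rfl
        apply sum_le_sum; intro p hp
        refine (cov_sum hρ hw2 (N / p) D rfl).trans ?_
        have h1 : ((N / p : ℕ):ℝ) ≤ N / p := Nat.cast_div_le
        have h2 : ((N / p : ℕ):ℝ) * ρ ≤ N / p * ρ := mul_le_mul_of_nonneg_right h1 hρ
        have h3 : (N:ℝ) / p * ρ = N * ρ * (1 / (p:ℝ)) := by ring
        linarith
    _ = _ := by
        rw [sum_add_distrib, ← mul_sum, sum_const, nsmul_eq_mul]

end Pool.Agent.D0H53.SQ
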