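import Mathlib
import Pool.Agent.D0H53.SQ.Ram

/-! The sum of the reciprocals of the primes of the set diverges. -/

open Finset Filter Topology

namespace Pool.Agent.D0H53.SQ

lemma tele (p x : ℕ) (hp : 1 ≤ p) (hx : p ≤ x + 1) : ∑ n ∈ Ico p (x+1), 1 / ((n:ℝ) * (n + 1)) = 1 / (p:ℝ) - 1 / ((x:ℝ) + 1) := by
  have key : ∀ m : ℕ, p ≤ m → ∑ n ∈ Ico p m, 1 / ((n:ℝ) * (n + 1)) = 1 / (p:ℝ) - 1 / (m:ℝ) := by
    intro m hm
    induction m, hm using Nat.le_induction with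
    | base => simp
    | succ n hn ih =>
      rw [Finset.sum_Ico_succ_top hn, ih]
      have h1 : (0:ℝ) < n := by exact_mod_cast (by omega : 0 < n)
      push_cast
      field_simp
      ring
  rw [key (x+1) hx]
  push_cast; ring

lemma tele_log (a x : ℕ) (hx : a ≤ x) : Real.log ((x:ℝ) + 1) - Real.log ((a:ℝ) + 1) ≤ ∑ n ∈ Ico a x, 1 / ((n:ℝ) + 1) := by
  induction x, hx using Nat.le_induction with
  | base => simp
  | succ n hn ih =>
    rw [Finset.sum_Ico_succ_top hn]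
    have h1 : (0:ℝ) < (n:ℝ) + 1 := by positivity
    have h2 : Real.log (((n + 1 : ℕ):ℝ) + 1) - Real.log ((n:ℝ) + 1) ≤ 1 / ((n:ℝ) + 1) := by
      rw [← Real.log_div (by positivity) h1.ne']
      have e1 : (((n + 1 : ℕ):ℝ) + 1) / ((n:ℝ) + 1) = 1 / ((n:ℝ) + 1) + 1 := by push_cast; field_simp; ring
      rw [e1]
      have := Real.log_le_sub_one_of_pos (by positivity : 0 < 1 / ((n:ℝ) + 1) + 1)
      linarith
    linarith

/-- the sum of `log p / p` -/
lemma log_over_p {G : ℕ → Prop} {κ : ℝ} (hκ : 0 < κ) {y0 : ℕ} (hy0 : 1 ≤ y0)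
    (h : ∀ y : ℕ, y0 ≤ y → κ * y ≤ ∑ p ∈ PG G y, Real.log p) {x : ℕ} (hx : y0 ≤ x) :
    κ * (Real.log ((x:ℝ) + 1) - Real.log ((y0:ℝ) + 1)) ≤ ∑ p ∈ PG G x, Real.log p / p := by
  classical
  have h1 : ∑ n ∈ Ico 1 (x+1), (∑ p ∈ PG G n, Real.log p) / ((n:ℝ) * (n + 1)) ≤ ∑ p ∈ PG G x, Real.log p / p := by
    have e1 : ∑ n ∈ Ico 1 (x+1), (∑ p ∈ PG G n, Real.log p) / ((n:ℝ) * (n + 1)) =
        ∑ p ∈ PG G x, ∑ n ∈ Ico p (x+1), Real.log p / ((n:ℝ) * (n + 1)) := by
      have e2 : ∀ n ∈ Ico 1 (x+1), (∑ p ∈ PG G n, Real.log p) / ((n:ℝ) * (n + 1)) =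
          ∑ p ∈ PG G x, if p ≤ n then Real.log p / ((n:ℝ) * (n + 1)) else 0 := by
        intro n hn
        rw [mem_Ico] at hn
        rw [sum_div, ← sum_filter]
        apply sum_congr _ (fun _ _ => rfl)
        ext p
        rw [mem_filter, mem_PG, mem_PG]
        constructor
        · rintro ⟨a1, a2⟩; exact ⟨⟨by omega, a2⟩, a1⟩
        · rintro ⟨⟨_, a2⟩, a1⟩; exact ⟨a1, a2⟩
      rw [sum_congr rfl e2, sum_comm]
      apply sum_congr rfl
      intro p hp
      rw [mem_PG] at hp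
      rw [← sum_filter]
      apply sum_congr _ (fun _ _ => rfl)
      ext n
      rw [mem_filter, mem_Ico, mem_Ico]
      have := hp.2.1.one_lt
      omega
    rw [e1]
    apply sum_le_sum; intro p hp
    rw [mem_PG] at hp
    have hp1 : 1 ≤ p := hp.2.1.one_lt.le
    have e3 : ∑ n ∈ Ico p (x+1), Real.log p / ((n:ℝ) * (n + 1)) = Real.log p * ∑ n ∈ Ico p (x+1), 1 / ((n:ℝ) * (n + 1)) := by
      rw [mul_sum]; apply sum_congr rfl; intro n _; ring
    rw [e3, tele p x hp1 (by omega)]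
    have h2 : 0 ≤ Real.log p := Real.log_nonneg (by exact_mod_cast hp1)
    have h3 : 0 ≤ 1 / ((x:ℝ) + 1) := by positivity
    calc Real.log p * (1 / (p:ℝ) - 1 / ((x:ℝ) + 1)) ≤ Real.log p * (1 / (p:ℝ)) := mul_le_mul_of_nonneg_left (by linarith) h2
      _ = _ := by ring
  refine le_trans ?_ h1
  have hnn : ∀ n, 0 ≤ (∑ p ∈ PG G n, Real.log p) / ((n:ℝ) * (n + 1)) := by
    intro n
    apply div_nonneg _ (by positivity)
    apply sum_nonneg
    intro p hp
    exact Real.log_nonneg (by exact_mod_cast (mem_PG.mp hp).2.1.one_lt.le)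
  calc κ * (Real.log ((x:ℝ) + 1) - Real.log ((y0:ℝ) + 1)) ≤ κ * ∑ n ∈ Ico y0 x, 1 / ((n:ℝ) + 1) :=
        mul_le_mul_of_nonneg_left (tele_log y0 x hx) hκ.le
    _ = ∑ n ∈ Ico y0 x, κ * (1 / ((n:ℝ) + 1)) := by rw [mul_sum]
    _ ≤ ∑ n ∈ Ico y0 x, (∑ p ∈ PG G n, Real.log p) / ((n:ℝ) * (n + 1)) := by
        apply sum_le_sum; intro n hn
        rw [mem_Ico] at hn
        have hn0 : (0:ℝ) < n := by exact_mod_cast (by omega : 0 < n)
        have h3 := h n hn.1
        rw [le_div_iff₀ (by positivity)]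
        calc κ * (1 / ((n:ℝ) + 1)) * ((n:ℝ) * (n + 1)) = κ * n := by field_simp
          _ ≤ _ := h3
    _ ≤ _ := by
        apply sum_le_sum_of_subset_of_nonneg
        · apply Ico_subset_Ico hy0 (by omega)
        · intro n _ _; exact hnn n

open Classical in
/-- divergence -/
lemma not_summ {S : Set ℕ} (hS : MSet S) (P1 : ℕ) :
    ¬ Summable (fun n : ℕ => if (n.Prime ∧ n ∈ S ∧ P1 ≤ n) then 1 / (n:ℝ) else 0) := by
  intro hsum
  obtain ⟨κ, hκ, y0, hy0, hd⟩ := hS.dens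
  rw [summable_iff_vanishing_norm] at hsum
  obtain ⟨s, hs⟩ := hsum (κ/4) (by positivity)
  obtain ⟨K0, hK0⟩ : ∃ K0 : ℕ, P1 ≤ K0 ∧ ∀ m ∈ s, m ≤ K0 := ⟨max P1 (s.sup id), le_max_left _ _, fun m hm => (Finset.le_sup (f := id) hm).trans (le_max_right _ _)⟩
  -- bound for the sum of log p / p
  have hup : ∀ x : ℕ, 1 ≤ x → ∑ p ∈ PG (· ∈ S) x, Real.log p / p ≤ ∑ p ∈ PG (· ∈ S) K0, Real.log p / p + Real.log x * (κ/4) := by
    intro x hx
    have hlogx : 0 ≤ Real.log x := Real.log_nonneg (by exact_mod_cast hx)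
    have hnn : ∀ p : ℕ, 0 ≤ Real.log p / p := fun p => div_nonneg (Real.log_natCast_nonneg p) (Nat.cast_nonneg p)
    calc ∑ p ∈ PG (· ∈ S) x, Real.log p / p = ∑ p ∈ (PG (· ∈ S) x).filter (· ≤ K0), Real.log p / p +
          ∑ p ∈ (PG (· ∈ S) x).filter (fun p => ¬ p ≤ K0), Real.log p / p := (sum_filter_add_sum_filter_not _ _ _).symm
      _ ≤ ∑ p ∈ PG (· ∈ S) K0, Real.log p / p + ∑ p ∈ (PG (· ∈ S) x).filter (fun p => ¬ p ≤ K0), Real.log x * (1 / (p:ℝ)) := by
          apply add_le_add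
          · apply sum_le_sum_of_subset_of_nonneg
            · intro p hp
              rw [mem_filter, mem_PG] at hp
              rw [mem_PG]
              exact ⟨hp.2, hp.1.2⟩
            · intro p _ _; exact hnn p
          · apply sum_le_sum; intro p hp
            rw [mem_filter, mem_PG] at hp
            have hp0 : (0:ℝ) < p := by exact_mod_cast hp.1.2.1.pos
            have : Real.log p ≤ Real.log x := Real.log_le_log hp0 (by exact_mod_cast hp.1.1)
            calc Real.log p / p ≤ Real.log x / p := div_le_div_of_nonneg_right this hp0.le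
              _ = _ := by ring
      _ = ∑ p ∈ PG (· ∈ S) K0, Real.log p / p + Real.log x * ∑ p ∈ (PG (· ∈ S) x).filter (fun p => ¬ p ≤ K0), 1 / (p:ℝ) := by
          rw [mul_sum]
      _ ≤ _ := by
          apply add_le_add le_rfl
          apply mul_le_mul_of_nonneg_left _ hlogx
          have h1 := hs ((PG (· ∈ S) x).filter (fun p => ¬ p ≤ K0)) (by
            rw [disjoint_left]
            intro p hp hp2
            rw [mem_filter] at hp
            exact hp.2 (hK0.2 p hp2))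
          rw [Real.norm_eq_abs] at h1
          refine le_trans (le_of_eq ?_) ((le_abs_self _).trans h1.le)
          apply sum_congr rfl; intro p hp
          rw [mem_filter, mem_PG] at hp
          rw [if_pos ⟨hp.1.2.1, hp.1.2.2, by omega⟩]
  -- contradiction
  set C := ∑ p ∈ PG (· ∈ S) K0, Real.log p / p with hC
  have ev : ∀ᶠ x : ℕ in atTop, (C + κ * Real.log ((y0:ℝ) + 1)) / (3/4 * κ) < Real.log x :=
    (Real.tendsto_log_atTop.comp tendsto_natCast_atTop_atTop).eventually_gt_atTop _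
  obtain ⟨x0, hx0⟩ := eventually_atTop.mp ev
  set x := max x0 y0 with hx
  have h1 := hx0 x (le_max_left _ _)
  have h2 := hup x (by have := le_max_right x0 y0; omega)
  have h3 := log_over_p hκ hy0 hd (x := x) (le_max_right _ _)
  have hx1 : (1:ℝ) ≤ x := by
    have : 1 ≤ x := by have := le_max_right x0 y0; omega
    exact_mod_cast this
  have h4 : Real.log x ≤ Real.log ((x:ℝ) + 1) := Real.log_le_log (by linarith) (by linarith)
  rw [div_lt_iff₀ (by positivity)] at h1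
  have h5 := mul_le_mul_of_nonneg_left h4 hκ.le
  nlinarith

/-- the sets of primes -/
theorem exists_T {S : Set ℕ} (hS : MSet S) (P1 : ℕ) {L : ℝ} (hL : 0 < L) :
    ∃ T : Finset ℕ, (∀ p ∈ T, p.Prime ∧ p ∈ S) ∧ (∀ p ∈ T, P1 ≤ p) ∧ L ≤ ∑ p ∈ T, 1 / (p:ℝ) ∧ ∑ p ∈ T, 1 / (p:ℝ) ≤ L + 1 := by
  classical
  set u : ℕ → ℝ := fun n : ℕ => if (n.Prime ∧ n ∈ S ∧ P1 ≤ n) then 1 / (n:ℝ) else 0 with hu
  have hu0 : ∀ n, 0 ≤ u n := fun n => by simp only [hu]; split_ifs <;> positivity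
  have hu1 : ∀ n, u n ≤ 1 := fun n => by
    simp only [hu]
    split_ifs with h
    · have : (1:ℝ) ≤ n := by exact_mod_cast h.1.one_lt.le
      rw [div_le_one (by linarith)]; exact this
    · exact zero_le_one
  have h1 := (not_summable_iff_tendsto_nat_atTop_of_nonneg hu0).mp (not_summ hS P1)
  obtain ⟨n0, hn0⟩ := (h1.eventually_ge_atTop L).exists
  have hex : ∃ n, L ≤ ∑ i ∈ range n, u i := ⟨n0, hn0⟩
  set n := Nat.find hex with hn
  have h2 : L ≤ ∑ i ∈ range n, u i := Nat.find_spec hex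
  have hnpos : 0 < n := by
    rcases Nat.eq_zero_or_pos n with h | h
    · rw [h] at h2; simp at h2; linarith
    · exact h
  have h3 : ∑ i ∈ range n, u i ≤ L + 1 := by
    obtain ⟨m, hm⟩ : ∃ m, n = m + 1 := ⟨n - 1, by omega⟩
    rw [hm, sum_range_succ]
    have h4 : ¬ L ≤ ∑ i ∈ range m, u i := Nat.find_min hex (by omega)
    push Not at h4
    linarith [hu1 m]
  have h5 : ∑ i ∈ range n, u i = ∑ p ∈ (range n).filter (fun n => n.Prime ∧ n ∈ S ∧ P1 ≤ n), 1 / (p:ℝ) := by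
    rw [sum_filter]
  refine ⟨(range n).filter (fun n => n.Prime ∧ n ∈ S ∧ P1 ≤ n), ?_, ?_, ?_, ?_⟩
  · intro p hp; rw [mem_filter] at hp; exact ⟨hp.2.1, hp.2.2.1⟩
  · intro p hp; rw [mem_filter] at hp; exact hp.2.2.2
  · rw [← h5]; exact h2
  · rw [← h5]; exact h3

end Pool.Agent.D0H53.SQ
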