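import Mathlib
import Pool.Agent.D0H53.SQ.EQ
import Pool.Agent.D0H53.SQ.Tex

/-! Orthogonality of `e(θ√n + αn)` to multiplicative functions over multiplicative sets of positive dimension. -/

open Finset
open Pool.Agent.H469R2.NK
open Pool.Agent.W24.Katai (Mul1)

namespace Pool.Agent.D0H53.SQ

open Classical in
theorem eq_main {S : Set ℕ} (hS : MSet S) {θ : ℝ} (hθ : θ ≠ 0) {η : ℝ} (hη : 0 < η) :
    ∃ N0 : ℕ, ∀ N : ℕ, N0 ≤ N → ∀ (α : ℝ) (g : ℕ → ℂ), Mul1 g →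
      ‖∑ n ∈ ST S N, g n * Fp θ α n‖ ≤ η * (ST S N).card := by
  obtain ⟨c, hc, N00, hlow⟩ := card_lower hS
  set η' := η * c with hη'
  have hη'0 : 0 < η' := by positivity
  -- the parameters
  set L := max 1 (-Real.log (η'/32)) with hL
  have hL1 : 1 ≤ L := le_max_left _ _
  have hexpL : Real.exp (-L) ≤ η'/32 := by
    calc Real.exp (-L) ≤ Real.exp (Real.log (η'/32)) := by
          apply Real.exp_le_exp.mpr
          have := le_max_right 1 (-Real.log (η'/32))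
          rw [← hL] at this; linarith
      _ = η'/32 := Real.exp_log (by positivity)
  obtain ⟨P1, hP1⟩ := exists_nat_ge (max 1 (max (96 * (L + 1) / η') (320 * (4 * L + 5) / η'^2)))
  have hP1a : (1:ℝ) ≤ P1 := (le_max_left _ _).trans hP1
  have hP1b : 96 * (L + 1) / η' ≤ P1 := ((le_max_left _ _).trans (le_max_right _ _)).trans hP1
  have hP1c : 320 * (4 * L + 5) / η'^2 ≤ P1 := ((le_max_right _ _).trans (le_max_right _ _)).trans hP1
  have hP1n : 1 ≤ P1 := by exact_mod_cast hP1a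
  have hP10 : (0:ℝ) < P1 := by linarith
  have hb1 : 12 * (L + 1) / P1 ≤ η'/8 := by
    rw [div_le_iff₀ hη'0] at hP1b
    rw [div_le_iff₀ hP10]; linarith
  have hc1 : 5 / P1 * (4 * L + 5) ≤ (η'/8)^2 := by
    rw [div_le_iff₀ (by positivity)] at hP1c
    rw [div_mul_eq_mul_div, div_le_iff₀ hP10]
    have : (η'/8)^2 = η'^2/64 := by ring
    rw [this]; linarith
  obtain ⟨T, hT, hTP, hT1, hT2⟩ := exists_T hS P1 (L := L) (by linarith)
  have hTpos : ∀ p ∈ T, 1 ≤ p := fun p hp => (hT p hp).1.one_lt.le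
  set W : ℝ := ∑ p ∈ T, ∑ p' ∈ T, 718 * √(1/|θ * (√(p:ℝ) - √(p':ℝ))| + |θ * (√(p:ℝ) - √(p':ℝ))|) with hW
  have hW0 : 0 ≤ W := sum_nonneg fun _ _ => sum_nonneg fun _ _ => by positivity
  have hW1 : ∀ p ∈ T, ∀ p' ∈ T, p ≠ p' → 718 * √(1/|θ * (√(p:ℝ) - √(p':ℝ))| + |θ * (√(p:ℝ) - √(p':ℝ))|) ≤ W := by
    intro p hp p' hp' _
    calc _ ≤ ∑ p' ∈ T, 718 * √(1/|θ * (√(p:ℝ) - √(p':ℝ))| + |θ * (√(p:ℝ) - √(p':ℝ))|) :=
          Finset.single_le_sum (f := fun p' : ℕ => 718 * √(1/|θ * (√(p:ℝ) - √(p':ℝ))| + |θ * (√(p:ℝ) - √(p':ℝ))|)) (fun _ _ => by positivity) hp'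
      _ ≤ W := Finset.single_le_sum (f := fun p : ℕ => ∑ p' ∈ T, 718 * √(1/|θ * (√(p:ℝ) - √(p':ℝ))| + |θ * (√(p:ℝ) - √(p':ℝ))|))
            (fun _ _ => sum_nonneg fun _ _ => by positivity) hp
  set t : ℝ := (T.card : ℝ) with ht
  have ht0 : 0 ≤ t := Nat.cast_nonneg _
  set K : ℝ := 2 + 4 * t + (t + t^2 * W + t^2) with hK
  set ε : ℝ := min (η'/8) (1 / P1) with hε
  have hε0 : 0 < ε := lt_min (by positivity) (by positivity)
  have hε1 : ε ≤ η'/8 := min_le_left _ _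
  have hε2 : ε ≤ 1 / P1 := min_le_right _ _
  obtain ⟨N01, hEr⟩ := Er_small K hε0
  refine ⟨max (max N00 N01) (max (2^128) ((T.sup id)^128)), fun N hN α g hg => ?_⟩
  have hNa : N00 ≤ N := le_trans (le_trans (le_max_left _ _) (le_max_left _ _)) hN
  have hNb : N01 ≤ N := le_trans (le_trans (le_max_right _ _) (le_max_left _ _)) hN
  have hNc : 2^128 ≤ N := le_trans (le_trans (le_max_left _ _) (le_max_right _ _)) hN
  have hNd : (T.sup id)^128 ≤ N := le_trans (le_trans (le_max_right _ _) (le_max_right _ _)) hN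
  have hN1 : 1 ≤ N := le_trans Nat.one_le_two_pow hNc
  have hD2 : 2 ≤ DN N := DN_ge hNc
  have hD1 : 1 ≤ DN N := by omega
  have hDr : (1:ℝ) ≤ DN N := by exact_mod_cast hD1
  have hDT : ∀ p ∈ T, p ≤ DN N := fun p hp => (Finset.le_sup (f := id) hp).trans (DN_ge hNd)
  have hlogD := log_DN_pos hNc
  obtain ⟨w, hw0, hw1, hw2, hw3⟩ := weights (· ∈ S) hD2
  obtain ⟨w', hw0', hw1', hw2', hw3'⟩ := weights (fun p => p ∈ S ∧ p ∉ T) hD2
  set D := DN N with hD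
  set ρ := rho (· ∈ S) N with hρ
  have hρ0 : 0 ≤ ρ := rho_nonneg _ _
  have hρe : VG (· ∈ S) D / Real.log D = ρ := rfl
  rw [hρe] at hw2
  set Q : ℝ := N * ρ with hQ
  have hQ0 : 0 ≤ Q := by positivity
  set E := Er N with hE
  have hE0 : 0 ≤ E := Er_nonneg N
  have hKE : K * E ≤ ε * Q := hEr N hNb (· ∈ S)
  have e1 := Er_ge1 hN1
  have e2 := Er_ge2 hN1
  have e3 := Er_ge3 hN1
  rw [← hE, ← hD] at e1 e2 e3
  have hRS : ∀ n p : ℕ, n ∈ S → p.Prime → p ∣ n → ¬ p^2 ∣ n → p ∈ S := fun n p hn hp h1 h2 => hS.exact hn hp h1 h2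
  have hST : ∀ X, ST S X = (Icc 1 X).filter (· ∈ S) := fun X => by
    ext n; rw [mem_ST, mem_filter, mem_Icc]; tauto
  -- count for general X
  have hcnt : ∀ X : ℕ, X ≤ N → ((ST S X).card : ℝ) ≤ 4 * (X * ρ) + 2 * E := by
    intro X hX
    have h1 := ub (R := (· ∈ S)) (G := (· ∈ S)) hRS hw0 hw1 hρ0 hw2 hD1 X
    rw [hST]
    have h2 : (X:ℝ) / D ≤ N / D := by
      have : (X:ℝ) ≤ N := by exact_mod_cast hX
      gcongr
    linarith
  -- t1
  have t1 : (((ST S N).filter (fun n => ∀ p ∈ T, ¬ p ∣ n)).card : ℝ) ≤ η'/8 * Q + 2 * E := by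
    have h1 := ub (R := fun n => n ∈ S ∧ ∀ p ∈ T, ¬ p ∣ n) (G := fun p => p ∈ S ∧ p ∉ T) (by
      intro n p hn hp hpn hp2
      exact ⟨hS.exact hn.1 hp hpn hp2, fun h => hn.2 p h hpn⟩) hw0' hw1' (ρ := VG (fun p => p ∈ S ∧ p ∉ T) D / Real.log D)
      (div_nonneg (VG_pos _ _).le hlogD.le) hw2' hD1 N
    have h2 : (ST S N).filter (fun n => ∀ p ∈ T, ¬ p ∣ n) = (Icc 1 N).filter (fun n => n ∈ S ∧ ∀ p ∈ T, ¬ p ∣ n) := by
      rw [hST, filter_filter]
    rw [h2]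
    have h3 : VG (fun p => p ∈ S ∧ p ∉ T) D / Real.log D ≤ ρ * (η'/32) := by
      rw [VG_remove (· ∈ S) T hT hDT, ← hρe]
      have h4 : ∏ p ∈ T, (1 - 1 / (p:ℝ)) ≤ η'/32 := by
        calc ∏ p ∈ T, (1 - 1 / (p:ℝ)) ≤ ∏ p ∈ T, Real.exp (-(1 / (p:ℝ))) := by
              apply prod_le_prod
              · intro p hp; exact (fac_pos (hT p hp).1).le
              · intro p _
                have := Real.add_one_le_exp (-(1 / (p:ℝ)))
                linarith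
          _ = Real.exp (-∑ p ∈ T, 1 / (p:ℝ)) := by rw [← Real.exp_sum, sum_neg_distrib]
          _ ≤ Real.exp (-L) := Real.exp_le_exp.mpr (by linarith)
          _ ≤ η'/32 := hexpL
      have h5 := (VG_pos (· ∈ S) D).le
      calc VG (· ∈ S) D * (∏ p ∈ T, (1 - 1 / (p:ℝ))) / Real.log D ≤ VG (· ∈ S) D * (η'/32) / Real.log D := by gcongr
        _ = _ := by ring
    have h4 : (N:ℝ) * (VG (fun p => p ∈ S ∧ p ∉ T) D / Real.log D) ≤ Q * (η'/32) := by
      calc _ ≤ (N:ℝ) * (ρ * (η'/32)) := mul_le_mul_of_nonneg_left h3 (Nat.cast_nonneg N)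
        _ = _ := by rw [hQ]; ring
    calc (((Icc 1 N).filter (fun n => n ∈ S ∧ ∀ p ∈ T, ¬ p ∣ n)).card : ℝ) ≤
          4 * (N * (VG (fun p => p ∈ S ∧ p ∉ T) D / Real.log D)) + (D:ℝ)^4 + N / D := by
          refine le_trans (le_of_eq ?_) h1
          congr!
      _ ≤ 4 * (Q * (η'/32)) + E + E := add_le_add (add_le_add (mul_le_mul_of_nonneg_left h4 (by norm_num)) e3) e2
      _ = _ := by ring
  have hinv2 : ∑ p ∈ T, 1 / (p:ℝ)^2 ≤ (L + 1) / P1 := by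
    calc ∑ p ∈ T, 1 / (p:ℝ)^2 ≤ ∑ p ∈ T, 1 / P1 * (1 / (p:ℝ)) := by
          apply sum_le_sum; intro p hp
          have h1 : (P1:ℝ) ≤ p := by exact_mod_cast hTP p hp
          have h2 : (0:ℝ) < p := by linarith
          rw [one_div_mul_one_div]
          apply one_div_le_one_div_of_le (by positivity)
          rw [sq]
          exact mul_le_mul_of_nonneg_right h1 h2.le
      _ = 1 / P1 * ∑ p ∈ T, 1 / (p:ℝ) := by rw [mul_sum]
      _ ≤ 1 / P1 * (L + 1) := by gcongr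
      _ = _ := by ring
  -- t2
  have t2 : ∑ p ∈ T, (((ST S N).filter (fun n => p^2 ∣ n)).card : ℝ) ≤ 8 * ((L + 1) / P1) * Q + 2 * t * E := by
    calc _ ≤ ∑ p ∈ T, (8 * Q * (1 / (p:ℝ)^2) + 2 * E) := by
          apply sum_le_sum; intro p hp
          have h1 := ub_p (R := (· ∈ S)) (G := (· ∈ S)) hRS hw0 hw1 hρ0 hw2 hD1 N (hT p hp).1
          have h2 : (ST S N).filter (fun n => p^2 ∣ n) = (Icc 1 N).filter (fun n => n ∈ S ∧ p^2 ∣ n) := by
            rw [hST, filter_filter]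
          have h3 : (((ST S N).filter (fun n => p^2 ∣ n)).card : ℝ) ≤ 8 / (p:ℝ)^2 * (N * ρ) + (D:ℝ)^4 + N / D := by
            rw [h2]
            refine le_trans (le_of_eq ?_) h1
            congr!
          have h4 : 8 / (p:ℝ)^2 * (N * ρ) = 8 * Q * (1 / (p:ℝ)^2) := by rw [hQ]; ring
          linarith
      _ = 8 * Q * ∑ p ∈ T, 1 / (p:ℝ)^2 + t * (2 * E) := by
          rw [sum_add_distrib, ← mul_sum, sum_const, nsmul_eq_mul]
      _ ≤ 8 * Q * ((L + 1) / P1) + t * (2 * E) := by gcongr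
      _ = _ := by ring
  -- t3
  have t3 : ∑ p ∈ T, ((ST S (N / p^2)).card : ℝ) ≤ 4 * ((L + 1) / P1) * Q + 2 * t * E := by
    calc _ ≤ ∑ p ∈ T, (4 * Q * (1 / (p:ℝ)^2) + 2 * E) := by
          apply sum_le_sum; intro p hp
          have h1 := hcnt (N / p^2) (Nat.div_le_self _ _)
          have h2 : ((N / p^2 : ℕ):ℝ) ≤ N / (p:ℝ)^2 := by
            refine Nat.cast_div_le.trans (le_of_eq ?_)
            push_cast; rfl
          have h3 : ((N / p^2 : ℕ):ℝ) * ρ ≤ N / (p:ℝ)^2 * ρ := mul_le_mul_of_nonneg_right h2 hρ0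
          have h4 : N / (p:ℝ)^2 * ρ = Q * (1 / (p:ℝ)^2) := by rw [hQ]; ring
          linarith
      _ = 4 * Q * ∑ p ∈ T, 1 / (p:ℝ)^2 + t * (2 * E) := by
          rw [sum_add_distrib, ← mul_sum, sum_const, nsmul_eq_mul]
      _ ≤ 4 * Q * ((L + 1) / P1) + t * (2 * E) := by gcongr
      _ = _ := by ring
  -- t4
  have t4 : ∑ m ∈ ST S (N / P1), ‖Zm T N g (Fp θ α) m‖ ≤ η'/8 * Q := by
    have hYN : N / P1 ≤ N := Nat.div_le_self _ _
    have h1 := second hS hD1 hρ0 hw0 hw1 hw2 hw3 hTpos hθ hW0 hW1 α hg.1 hYN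
    have h2 : ∑ m ∈ ST S (N / P1), ‖Zm T N g (Fp θ α) m‖^2 ≤ Q * (4 * L + 5) := by
      refine h1.trans ?_
      have a1 : 4 * (N * ρ) * ∑ p ∈ T, 1 / (p:ℝ) ≤ 4 * Q * (L + 1) := by
        rw [← hQ]; gcongr
      have a2 : t * (D:ℝ)^4 ≤ t * E := by gcongr
      have a3 : t^2 * W * ((D:ℝ)^11 * (N:ℝ) ^ (7/8:ℝ)) ≤ t^2 * W * E := by gcongr
      have a4 : N / D * t^2 ≤ E * t^2 := by gcongr
      have a5 : (t + t^2 * W + t^2) * E ≤ K * E := by
        apply mul_le_mul_of_nonneg_right _ hE0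
        rw [hK]; linarith
      have a6 : ε * Q ≤ 1 * Q := by
        apply mul_le_mul_of_nonneg_right _ hQ0
        refine hε2.trans ?_
        rw [div_le_one hP10]; exact hP1a
      have a7 : (t + t^2 * W + t^2) * E = t * E + t^2 * W * E + E * t^2 := by ring
      have a8 : Q * (4 * L + 5) = 4 * Q * (L + 1) + 1 * Q := by ring
      rw [a8]
      linarith
    have h3 : ((ST S (N / P1)).card : ℝ) ≤ 5 / P1 * Q := by
      have a1 := hcnt (N / P1) hYN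
      have a2 : ((N / P1 : ℕ):ℝ) * ρ ≤ Q / P1 := by
        have : ((N / P1 : ℕ):ℝ) ≤ N / P1 := Nat.cast_div_le
        calc ((N / P1 : ℕ):ℝ) * ρ ≤ N / P1 * ρ := mul_le_mul_of_nonneg_right this hρ0
          _ = Q / P1 := by rw [hQ]; ring
      have a3 : 2 * E ≤ K * E := by
        apply mul_le_mul_of_nonneg_right _ hE0
        rw [hK]
        have : 0 ≤ t^2 * W := by positivity
        linarith [sq_nonneg t]
      have a4 : ε * Q ≤ 1 / P1 * Q := mul_le_mul_of_nonneg_right hε2 hQ0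
      have a5 : 5 / P1 * Q = 4 * (Q / P1) + 1 / P1 * Q := by ring
      rw [a5]
      linarith
    have h4 : (∑ m ∈ ST S (N / P1), ‖Zm T N g (Fp θ α) m‖)^2 ≤ (η'/8 * Q)^2 := by
      calc (∑ m ∈ ST S (N / P1), ‖Zm T N g (Fp θ α) m‖)^2 ≤
            ((ST S (N / P1)).card : ℝ) * ∑ m ∈ ST S (N / P1), ‖Zm T N g (Fp θ α) m‖^2 := sq_sum_le_card_mul_sum_sq
        _ ≤ (5 / P1 * Q) * (Q * (4 * L + 5)) := by
            apply mul_le_mul h3 h2 (sum_nonneg fun _ _ => sq_nonneg _) (by positivity)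
        _ = (5 / P1 * (4 * L + 5)) * Q^2 := by ring
        _ ≤ (η'/8)^2 * Q^2 := mul_le_mul_of_nonneg_right hc1 (sq_nonneg _)
        _ = _ := by ring
    exact (le_abs_self _).trans (abs_le_of_sq_le_sq h4 (by positivity))
  -- conclusion
  have hram := ramare hS hT hP1n hTP (F := Fp θ α) (g := g) (fun n => (Fp_norm θ α n).le) hg N
  have hlowN := hlow N hNa
  rw [← hρ, ← hQ] at hlowN
  have f1 : (2 + 4 * t) * E ≤ η'/8 * Q := by
    have a1 : (2 + 4 * t) * E ≤ K * E := by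
      apply mul_le_mul_of_nonneg_right _ hE0
      rw [hK]
      have : 0 ≤ t^2 * W := by positivity
      linarith [sq_nonneg t]
    have a2 : ε * Q ≤ η'/8 * Q := mul_le_mul_of_nonneg_right hε1 hQ0
    linarith
  have f2 : 12 * ((L + 1) / P1) * Q ≤ η'/8 * Q := by
    apply mul_le_mul_of_nonneg_right _ hQ0
    calc 12 * ((L + 1) / P1) = 12 * (L + 1) / P1 := by ring
      _ ≤ _ := hb1
  have f3 : η' * Q ≤ η * (ST S N).card := by
    calc η' * Q = η * (c * Q) := by rw [hη']; ring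
      _ ≤ _ := mul_le_mul_of_nonneg_left hlowN hη.le
  have f4 : 0 ≤ η' * Q := by positivity
  calc ‖∑ n ∈ ST S N, g n * Fp θ α n‖ ≤ (η'/8 * Q + 2 * E) + (8 * ((L + 1) / P1) * Q + 2 * t * E) +
        (4 * ((L + 1) / P1) * Q + 2 * t * E) + η'/8 * Q :=
        hram.trans (add_le_add (add_le_add (add_le_add t1 t2) t3) t4)
    _ = η'/8 * Q + (2 + 4 * t) * E + 12 * ((L + 1) / P1) * Q + η'/8 * Q := by ring
    _ ≤ η'/8 * Q + η'/8 * Q + η'/8 * Q + η'/8 * Q := add_le_add (add_le_add (add_le_add le_rfl f1) f2) le_rfl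
    _ = η' * Q / 2 := by ring
    _ ≤ η' * Q := half_le_self f4
    _ ≤ _ := f3

end Pool.Agent.D0H53.SQ
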