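import Mathlib
import Pool.Agent.D0H53.SQ.EQ
import Pool.Agent.W24.CP.SA

/-! Mean squares over multiplicative sets of positive dimension. -/

open Finset Filter Topology
open Pool.Agent.H383
open Pool.Agent.H383.Gen (Bd U)
open Pool.Agent.H452R2.Win Pool.Agent.H452R2.Om
open Pool.Agent.H469R2.NK
open Pool.Agent.W24.CP

namespace Pool.Agent.D0H53.SQ

open Classical in
/-- quadratic forms over the set -/
theorem quad_S {S : Set ℕ} (hS : MSet S) {w : ℕ → ℝ} {ρ : ℝ} {D : ℕ} (hD : 1 ≤ D) (hρ : 0 ≤ ρ)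
    (hw0 : ∀ n, 0 ≤ w n) (hw1 : ∀ s, 1 ≤ s → (∀ p : ℕ, p.Prime → p ∣ s → p ∈ S) → w s = 1)
    (hw2 : ∀ X : ℕ, ∑ n ∈ Icc 1 X, w n ≤ X * ρ + (D:ℝ)^2)
    (hw : ∀ (X : ℕ) (F : ℕ → ℂ) (B : ℝ), (∀ δ : ℕ, 1 ≤ δ → δ ≤ D^2 → ‖∑ n ∈ Icc 1 X, (if δ ∣ n then F n else 0)‖ ≤ B) →
      ‖∑ n ∈ Icc 1 X, ((w n : ℝ) : ℂ) * F n‖ ≤ (D:ℝ)^2 * B)
    (Tm : Finset ℕ) (a th : ℕ → ℝ) {B0 : ℝ} (hB0 : 0 ≤ B0)
    (hB : ∀ m ∈ Tm, ∀ m' ∈ Tm, m ≠ m' → th m - th m' ≠ 0 ∧ 718 * √(1/|th m - th m'| + |th m - th m'|) ≤ B0) (N : ℕ) :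
    ∑ n ∈ ST S N, ‖∑ m ∈ Tm, ((a m : ℝ) : ℂ) * e (th m * √(n:ℝ))‖^2 ≤ (4 * (N * ρ) + (D:ℝ)^4) * ∑ m ∈ Tm, (a m)^2 +
      (∑ m ∈ Tm, |a m|)^2 * B0 * ((D:ℝ)^11 * (N:ℝ) ^ (7/8:ℝ)) + N / D * (∑ m ∈ Tm, |a m|)^2 := by
  have hDr : (1:ℝ) ≤ D := by exact_mod_cast hD
  have hA0 : 0 ≤ ∑ m ∈ Tm, |a m| := sum_nonneg fun _ _ => abs_nonneg _
  have hZ : ∀ n : ℕ, ‖∑ m ∈ Tm, ((a m : ℝ) : ℂ) * e (th m * √(n:ℝ))‖ ≤ ∑ m ∈ Tm, |a m| := by
    intro n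
    refine (norm_sum_le _ _).trans (sum_le_sum fun m _ => ?_)
    rw [norm_mul, norm_e, mul_one, Complex.norm_real, Real.norm_eq_abs]
  have hcov := cover (R := (· ∈ S)) (Q := fun _ _ => True) (G := (· ∈ S)) (by
    intro a c s ha hc hs hr hp
    refine ⟨trivial, fun p hpp hps => ?_⟩
    exact hS.exact hr hpp (hps.trans (Dvd.intro_left _ rfl)) (hp p hpp hps)) hw0 hw1 (X := N) hD
    (f := fun n => ‖∑ m ∈ Tm, ((a m : ℝ) : ℂ) * e (th m * √(n:ℝ))‖^2) (fun _ => sq_nonneg _) (K := (∑ m ∈ Tm, |a m|)^2)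
    (fun m _ => pow_le_pow_left₀ (norm_nonneg _) (hZ m) 2)
  simp only [if_true] at hcov
  have e0 : ∑ n ∈ ST S N, ‖∑ m ∈ Tm, ((a m : ℝ) : ℂ) * e (th m * √(n:ℝ))‖^2 =
      ∑ n ∈ (Icc 1 N).filter (· ∈ S), ‖∑ m ∈ Tm, ((a m : ℝ) : ℂ) * e (th m * √(n:ℝ))‖^2 := by
    apply sum_congr _ (fun _ _ => rfl)
    ext n; rw [mem_ST, mem_filter, mem_Icc]; tauto
  rw [e0]
  refine hcov.trans (add_le_add ?_ le_rfl)
  have hblk : ∀ u ∈ Icc 1 D, ∀ c ∈ Icc 1 D,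
      ∑ s ∈ Icc 1 (N / (u^2 * c^3)), w s * ‖∑ m ∈ Tm, ((a m : ℝ) : ℂ) * e (th m * √((u^2 * c^3 * s : ℕ):ℝ))‖^2 ≤
      (∑ s ∈ Icc 1 (N / (u^2 * c^3)), w s) * ∑ m ∈ Tm, (a m)^2 + (∑ m ∈ Tm, |a m|)^2 * (B0 * ((D:ℝ)^9 * (N:ℝ) ^ (7/8:ℝ))) := by
    intro u hu c hc
    rw [mem_Icc] at hu hc
    set b := u^2 * c^3 with hb
    have hb1 : 1 ≤ b := by
      have := hu.1; have := hc.1; rw [hb]; exact Nat.mul_pos (by positivity) (by positivity)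
    have hb5 : b ≤ D^5 := by
      rw [hb]
      calc u^2 * c^3 ≤ D^2 * D^3 := Nat.mul_le_mul (Nat.pow_le_pow_left hu.2 2) (Nat.pow_le_pow_left hc.2 3)
        _ = D^5 := by ring
    have h1 := wquad (Icc 1 (N / b)) Tm w (fun m s => ((a m : ℝ) : ℂ) * e (th m * √((b * s : ℕ):ℝ)))
      (fun m m' => |a m| * |a m'| * (B0 * ((D:ℝ)^9 * (N:ℝ) ^ (7/8:ℝ)))) (fun _ _ => by positivity) (by
      intro m hm m' hm' hne
      obtain ⟨hh, hB1⟩ := hB m hm m' hm' hne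
      have e2 : ∑ s ∈ Icc 1 (N / b), ((w s : ℝ) : ℂ) * (((a m : ℝ) : ℂ) * e (th m * √((b * s : ℕ):ℝ)) *
          (starRingEnd ℂ) (((a m' : ℝ) : ℂ) * e (th m' * √((b * s : ℕ):ℝ)))) =
          ((a m * a m' : ℝ) : ℂ) * ∑ s ∈ Icc 1 (N / b), ((w s : ℝ) : ℂ) *
            e ((th m - th m') * √((b * s : ℕ):ℝ) + 0 * s) := by
        rw [mul_sum]
        apply sum_congr rfl; intro s _
        rw [map_mul, conj_e, Complex.conj_ofReal]
        have e3 : e ((th m - th m') * √((b * s : ℕ):ℝ) + 0 * s) = e (th m * √((b * s : ℕ):ℝ)) * e (-(th m' * √((b * s : ℕ):ℝ))) := by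
          rw [← e_add]; congr 1; ring
        rw [e3]; push_cast; ring
      rw [e2, norm_mul, Complex.norm_real, Real.norm_eq_abs, abs_mul]
      apply mul_le_mul_of_nonneg_left _ (by positivity)
      have h2 := w_es hD hw hh 0 (N / b) b hb1 hb5
      have h3 : ((N / b : ℕ):ℝ) ^ (7/8:ℝ) ≤ (N:ℝ) ^ (7/8:ℝ) := by
        apply Real.rpow_le_rpow (Nat.cast_nonneg _) _ (by norm_num)
        exact_mod_cast Nat.div_le_self _ _
      refine h2.trans ?_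
      calc 718 * √(1/|th m - th m'| + |th m - th m'|) * (D:ℝ)^9 * ((N / b : ℕ):ℝ) ^ (7/8:ℝ) ≤ B0 * (D:ℝ)^9 * (N:ℝ) ^ (7/8:ℝ) := by gcongr
        _ = _ := by ring)
    refine h1.trans (le_of_eq ?_)
    congr 1
    · have : ∀ m ∈ Tm, ∑ s ∈ Icc 1 (N / b), w s * ‖((a m : ℝ) : ℂ) * e (th m * √((b * s : ℕ):ℝ))‖^2 = (∑ s ∈ Icc 1 (N / b), w s) * (a m)^2 := by
        intro m _
        rw [sum_mul]
        apply sum_congr rfl; intro s _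
        rw [norm_mul, norm_e, mul_one, Complex.norm_real, Real.norm_eq_abs, sq_abs]
      rw [sum_congr rfl this, mul_sum]
    · simp only [← sum_mul, ← mul_sum]
      ring
  calc _ ≤ ∑ u ∈ Icc 1 D, ∑ c ∈ Icc 1 D, ((∑ s ∈ Icc 1 (N / (u^2 * c^3)), w s) * ∑ m ∈ Tm, (a m)^2 +
          (∑ m ∈ Tm, |a m|)^2 * (B0 * ((D:ℝ)^9 * (N:ℝ) ^ (7/8:ℝ)))) := sum_le_sum fun u hu => sum_le_sum fun c hc => hblk u hu c hc
    _ = (∑ u ∈ Icc 1 D, ∑ c ∈ Icc 1 D, ∑ s ∈ Icc 1 (N / (u^2 * c^3)), w s) * ∑ m ∈ Tm, (a m)^2 +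
          (∑ m ∈ Tm, |a m|)^2 * B0 * ((D:ℝ)^11 * (N:ℝ) ^ (7/8:ℝ)) := by
        simp only [sum_add_distrib, sum_const, Nat.card_Icc, nsmul_eq_mul, Nat.add_sub_cancel, ← sum_mul]
        congr 1
        ring
    _ ≤ _ := by
        apply add_le_add _ le_rfl
        apply mul_le_mul_of_nonneg_right (cov_sum hρ hw2 N D rfl) (sum_nonneg fun _ _ => sq_nonneg _)

variable {E : ℝ → ℝ} {af : ℕ → ℝ} {φ : ℝ} {w : ℝ → ℂ}

/-- the tail of the coefficients -/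
lemma tail_sq (ha : Bdw af) (ha0 : af 0 = 0) {τ : ℝ} (hτ0 : 0 < τ) : ∃ M0 : ℕ, 1 ≤ M0 ∧ ∀ M M' : ℕ, M0 ≤ M →
    ∑ m ∈ Ioc (M^2) (M'^2), (af m)^2 ≤ τ := by
  have hsum : Summable (fun m : ℕ => (af m)^2) := by
    obtain ⟨Cb, hCb, hb⟩ := ha.Bd
    have h1 : Summable (fun m : ℕ => Cb^2 * (m:ℝ) ^ (-(37/25):ℝ)) := by
      apply Summable.mul_left
      rw [Real.summable_nat_rpow]; norm_num
    apply Summable.of_nonneg_of_le (fun m => sq_nonneg _) _ h1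
    intro m
    rcases Nat.eq_zero_or_pos m with rfl | hm
    · rw [ha0, zero_pow (by norm_num)]; positivity
    · have h2 := hb m hm
      have hm0 : (0:ℝ) < m := by exact_mod_cast hm
      rw [← sq_abs]
      calc |af m|^2 ≤ (Cb * (√(m:ℝ)) ^ (-(37/25):ℝ))^2 := pow_le_pow_left₀ (abs_nonneg _) h2 2
        _ = Cb^2 * ((√(m:ℝ)) ^ (-(37/25):ℝ))^2 := by ring
        _ = _ := by
            congr 1
            rw [Real.sqrt_eq_rpow, ← Real.rpow_mul hm0.le, ← Real.rpow_natCast, ← Real.rpow_mul hm0.le]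
            norm_num
  rw [summable_iff_vanishing_norm] at hsum
  obtain ⟨s, hs⟩ := hsum τ hτ0
  obtain ⟨K0, hK0⟩ : ∃ K0 : ℕ, ∀ m ∈ s, m ≤ K0 := ⟨s.sup id, fun m hm => Finset.le_sup (f := id) hm⟩
  refine ⟨K0 + 1, by omega, fun M M' hM => ?_⟩
  have h1 := hs (Ioc (M^2) (M'^2)) (by
    rw [disjoint_left]
    intro m hm hm2
    rw [mem_Ioc] at hm
    have := hK0 m hm2
    nlinarith)
  rw [Real.norm_eq_abs] at h1
  exact (le_abs_self _).trans h1.le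

lemma sq2 (x y : ℝ) : (x + y)^2 ≤ 2 * x^2 + 2 * y^2 := by nlinarith [sq_nonneg (x - y)]

/-- the frequencies -/
lemma freq_bound {c' : ℝ} (hc'0 : 0 < c') {M' m m' : ℕ} (hM' : 1 ≤ M') (hm0' : 1 ≤ m) (hm'0' : 1 ≤ m') (hm : m ≤ M'^2) (hm' : m' ≤ M'^2) (hne : m ≠ m') :
    c' * √(m:ℝ) - c' * √(m':ℝ) ≠ 0 ∧ 718 * √(1/|c' * √(m:ℝ) - c' * √(m':ℝ)| + |c' * √(m:ℝ) - c' * √(m':ℝ)|) ≤ 718 * ((c' + 2/c') * M') := by
  have hM'r : (1:ℝ) ≤ M' := by exact_mod_cast hM'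
  have hm0 : (0:ℝ) < m := by exact_mod_cast hm0'
  have hm'0 : (0:ℝ) < m' := by exact_mod_cast hm'0'
  have q1 : √(m:ℝ) * √(m:ℝ) = m := Real.mul_self_sqrt hm0.le
  have q2 : √(m':ℝ) * √(m':ℝ) = m' := Real.mul_self_sqrt hm'0.le
  have s1 : √(m:ℝ) ≤ M' := by
    rw [Real.sqrt_le_left (by positivity)]; exact_mod_cast hm
  have s2 : √(m':ℝ) ≤ M' := by
    rw [Real.sqrt_le_left (by positivity)]; exact_mod_cast hm'
  have p1 : 0 < √(m:ℝ) := Real.sqrt_pos.mpr hm0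
  have p2 : 0 < √(m':ℝ) := Real.sqrt_pos.mpr hm'0
  set d := |√(m:ℝ) - √(m':ℝ)| with hd
  have hd1 : d ≤ M' := by rw [hd, abs_le]; constructor <;> linarith
  have hd2 : 1 / (2 * (M':ℝ)) ≤ d := by
    have h3 : (1:ℝ) ≤ |(m:ℝ) - m'| := by
      have : (1:ℤ) ≤ |(m:ℤ) - m'| := Int.one_le_abs (by omega)
      exact_mod_cast this
    have h4 : |(m:ℝ) - m'| = d * (√(m:ℝ) + √(m':ℝ)) := by
      rw [hd, ← abs_of_pos (by positivity : 0 < √(m:ℝ) + √(m':ℝ)), ← abs_mul]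
      congr 1
      nlinarith
    rw [div_le_iff₀ (by positivity)]
    have h5 : d * (√(m:ℝ) + √(m':ℝ)) ≤ d * (2 * M') := mul_le_mul_of_nonneg_left (by linarith) (abs_nonneg _)
    linarith
  have hd0 : 0 < d := lt_of_lt_of_le (by positivity) hd2
  have e1 : c' * √(m:ℝ) - c' * √(m':ℝ) = c' * (√(m:ℝ) - √(m':ℝ)) := by ring
  have hne0 : c' * √(m:ℝ) - c' * √(m':ℝ) ≠ 0 := by
    rw [e1]
    exact mul_ne_zero hc'0.ne' (sqrt_ne hne)
  refine ⟨hne0, ?_⟩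
  have habs : |c' * √(m:ℝ) - c' * √(m':ℝ)| = c' * d := by rw [e1, abs_mul, abs_of_pos hc'0]
  rw [habs]
  apply mul_le_mul_of_nonneg_left _ (by norm_num)
  have h3 : c' * d ≤ c' * M' := mul_le_mul_of_nonneg_left hd1 hc'0.le
  have h4 : 1 / (c' * d) ≤ 2/c' * M' := by
    rw [div_le_iff₀ (by positivity)]
    rw [div_le_iff₀ (by positivity)] at hd2
    have : 2/c' * M' * (c' * d) = d * (2 * M') := by field_simp
    rw [this]; exact hd2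
  have h5 : 1 / (c' * d) + c' * d ≤ (c' + 2/c') * M' := by
    rw [add_mul]; linarith
  have h6 : 1 ≤ 1 / (c' * d) + c' * d := by
    have hx : 0 < c' * d := by positivity
    have : 1 / (c' * d) + c' * d = (1 + (c' * d)^2) / (c' * d) := by field_simp
    rw [this, le_div_iff₀ hx]
    nlinarith [sq_nonneg (c' * d - 1)]
  calc √(1 / (c' * d) + c' * d) ≤ 1 / (c' * d) + c' * d := by
        rw [Real.sqrt_le_left (by linarith)]
        nlinarith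
    _ ≤ _ := h5

/-- the mean square over the set -/
theorem S_ms {S : Set ℕ} (hS : MSet S) (ha : Bdw af) (ha0 : af 0 = 0) (hw : GW.Wt w) {κ₁ κ₂ : ℝ} (hSd : SandW E af φ w κ₁ κ₂)
    {c : ℝ} (hc : 0 < c) (A B : ℕ) (hA : 1 ≤ A) {η : ℝ} (hη : 0 < η) : ∃ M0 : ℕ, ∀ M : ℕ, M0 ≤ M → ∃ N0 : ℕ, ∀ N : ℕ, N0 ≤ N →
      ∑ n ∈ ST S N, (E (c * √((A * n + B : ℕ):ℝ)) - U af φ ((c * √(A:ℝ)) * √(n:ℝ)) M)^2 ≤ η * (ST S N).card := by
  obtain ⟨ω, hω, hω2, hlin⟩ := SA.lin_ms ha ha0 hw hSd hc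
  obtain ⟨C, hC, hlin⟩ := hlin A B hA
  obtain ⟨Ca, hCa0, hCa⟩ := a_sqrt ha.Bd
  obtain ⟨c1, hc1, N00, hlow⟩ := card_lower hS
  have hA1 : (1:ℝ) ≤ A := by exact_mod_cast hA
  set c' : ℝ := c * √(A:ℝ) with hc'
  have hsA : 0 < √(A:ℝ) := Real.sqrt_pos.mpr (by linarith)
  have hc'0 : 0 < c' := by positivity
  set η' := η * c1 with hη'
  have hη'0 : 0 < η' := by positivity
  set τ := min 1 (η'/32) with hτ
  have hτ0 : 0 < τ := lt_min one_pos (by positivity)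
  obtain ⟨M0, hM0, htail0⟩ := tail_sq ha ha0 hτ0
  refine ⟨M0, fun M hM => ?_⟩
  have hM1 : 1 ≤ M := hM0.trans hM
  have htail : ∀ M' : ℕ, ∑ m ∈ Ioc (M^2) (M'^2), (af m)^2 ≤ τ := fun M' => htail0 M M' hM
  set δ : ℝ := ω / 1024 with hδ
  have hδ0 : 0 < δ := by positivity
  set c2 : ℝ := c' + 2/c' with hc2
  have hc20 : 0 < c2 := by positivity
  set K2 : ℝ := 2 * (1 + Ca^2 * (718 * c2 + 1)) with hK2
  obtain ⟨N1, hN1⟩ := pow_small hδ0 (4 * C) (by positivity : 0 < η'/4)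
  obtain ⟨N2, hN2⟩ := Er_small K2 (by positivity : 0 < η'/4)
  refine ⟨max (max N1 N2) (max (max N00 (2^128)) (M^1024)), fun N hN => ?_⟩
  have g1 := hN1 N (le_trans (le_trans (le_max_left _ _) (le_max_left _ _)) hN) (· ∈ S)
  have g2 := hN2 N (le_trans (le_trans (le_max_right _ _) (le_max_left _ _)) hN) (· ∈ S)
  have g3 := hlow N (le_trans (le_trans (le_trans (le_max_left _ _) (le_max_left _ _)) (le_max_right _ _)) hN)
  have hN128 : 2^128 ≤ N := le_trans (le_trans (le_trans (le_max_right _ _) (le_max_left _ _)) (le_max_right _ _)) hN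
  have hNM : M^1024 ≤ N := le_trans (le_trans (le_max_right _ _) (le_max_right _ _)) hN
  have hNone' : 1 ≤ N := le_trans Nat.one_le_two_pow hN128
  have hNone : (1:ℝ) ≤ N := by exact_mod_cast hNone'
  have hNpos : (0:ℝ) < N := by linarith
  have hD2 : 2 ≤ DN N := DN_ge hN128
  have hD1 : 1 ≤ DN N := by omega
  obtain ⟨wt, hw0, hw1, hw2, hw3⟩ := weights (· ∈ S) hD2
  set Q : ℝ := N * rho (· ∈ S) N with hQ
  have hQ0 : 0 ≤ Q := mul_nonneg hNpos.le (rho_nonneg _ _)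
  set u : ℝ := (N:ℝ) ^ (1/1024:ℝ) with hu
  have hu1 : 1 ≤ u := Real.one_le_rpow hNone (by norm_num)
  set M' : ℕ := ⌊u⌋₊ with hM'
  have hMr : (1:ℝ) ≤ M := by exact_mod_cast hM1
  have hMM : M ≤ M' := by
    rw [hM', Nat.le_floor_iff (by linarith), hu]
    calc (M:ℝ) = ((M:ℝ)^1024) ^ (1/1024:ℝ) := by
          rw [← Real.rpow_natCast, ← Real.rpow_mul (by linarith)]; norm_num
      _ ≤ _ := Real.rpow_le_rpow (by positivity) (by exact_mod_cast hNM) (by norm_num)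
  have hM'1 : 1 ≤ M' := by omega
  have hM'u : (M':ℝ) ≤ u := Nat.floor_le (by linarith)
  have hM'r : (1:ℝ) ≤ M' := by exact_mod_cast hM'1
  have huM' : u / 2 ≤ M' := by
    have h1 := Nat.lt_floor_add_one u
    rw [← hM'] at h1
    linarith
  have hM'40 : M'^40 ≤ N := by
    have : (M':ℝ)^40 ≤ N := by
      calc (M':ℝ)^40 ≤ u^40 := pow_le_pow_left₀ (by linarith) hM'u 40
        _ = (N:ℝ) ^ (40/1024:ℝ) := by rw [hu, ← Real.rpow_natCast, ← Real.rpow_mul hNpos.le]; norm_num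
        _ ≤ (N:ℝ) ^ (1:ℝ) := Real.rpow_le_rpow_of_exponent_le hNone (by norm_num)
        _ = N := Real.rpow_one _
    exact_mod_cast this
  -- first part
  have h1 : ∑ p ∈ ST S N, (E (c * √((A * p + B : ℕ):ℝ)) - U af φ (c' * √(p:ℝ)) M')^2 ≤ 2 * C * (N:ℝ) ^ (1 - δ) := by
    calc _ ≤ ∑ n ∈ Icc 1 N, (E (c * √((A * n + B : ℕ):ℝ)) - U af φ (c' * √(n:ℝ)) M')^2 := by
          apply sum_le_sum_of_subset_of_nonneg
          · intro n hn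
            rw [mem_ST] at hn
            rw [mem_Icc]; exact ⟨hn.1, hn.2.1⟩
          · intro _ _ _; exact sq_nonneg _
      _ ≤ C * (M':ℝ) ^ (-ω) * N := hlin M' N hM'1 hM'40
      _ ≤ C * (2 * (N:ℝ) ^ (-δ)) * N := by
          have h2ω : (2:ℝ) ^ ω ≤ 2 := by
            calc (2:ℝ) ^ ω ≤ (2:ℝ) ^ (1:ℝ) := Real.rpow_le_rpow_of_exponent_le (by norm_num) (by linarith)
              _ = 2 := by norm_num
          have w1 : (M':ℝ) ^ (-ω) ≤ 2 * (N:ℝ) ^ (-δ) := by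
            calc (M':ℝ) ^ (-ω) ≤ (u/2) ^ (-ω) := Real.rpow_le_rpow_of_nonpos (by linarith) huM' (by linarith)
              _ = u ^ (-ω) * 2 ^ ω := by
                  rw [Real.div_rpow (by linarith) (by norm_num), Real.rpow_neg (by norm_num : (0:ℝ) ≤ 2)]
                  field_simp
              _ ≤ u ^ (-ω) * 2 := by gcongr
              _ = 2 * (N:ℝ) ^ (-δ) := by
                  rw [hu, ← Real.rpow_mul hNpos.le, mul_comm]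
                  congr 2
                  rw [hδ]; ring
          gcongr
      _ = 2 * C * ((N:ℝ) ^ (-δ) * N) := by ring
      _ = 2 * C * (N:ℝ) ^ (1 - δ) := by
          congr 1
          nth_rewrite 2 [← Real.rpow_one (N:ℝ)]
          rw [← Real.rpow_add hNpos]; congr 1; ring
  -- second part
  have hoff : ∀ m ∈ Ioc (M^2) (M'^2), ∀ m' ∈ Ioc (M^2) (M'^2), m ≠ m' →
      c' * √(m:ℝ) - c' * √(m':ℝ) ≠ 0 ∧ 718 * √(1/|c' * √(m:ℝ) - c' * √(m':ℝ)| + |c' * √(m:ℝ) - c' * √(m':ℝ)|) ≤ 718 * (c2 * M') := by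
    intro m hm m' hm' hne
    rw [mem_Ioc] at hm hm'
    exact freq_bound hc'0 hM'1 (by omega) (by omega) hm.2 hm'.2 hne
  have h2 : ∑ p ∈ ST S N, (U af φ (c' * √(p:ℝ)) M' - U af φ (c' * √(p:ℝ)) M)^2 ≤ 4 * Q * τ + K2 / 2 * Er N := by
    have hV : VG (· ∈ S) (DN N) / Real.log (DN N) = rho (· ∈ S) N := rfl
    rw [hV] at hw2
    have t2 : ∑ m ∈ Ioc (M^2) (M'^2), |af m| ≤ Ca * (M':ℝ)^2 := by
      calc ∑ m ∈ Ioc (M^2) (M'^2), |af m| ≤ ∑ m ∈ Ioc (M^2) (M'^2), Ca := by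
            apply sum_le_sum; intro m hm
            rw [mem_Ioc] at hm
            exact (hCa m (by omega)).2
        _ = ((M'^2 - M^2 : ℕ):ℝ) * Ca := by rw [sum_const, Nat.card_Ioc, nsmul_eq_mul]
        _ ≤ ((M'^2 : ℕ):ℝ) * Ca := by
            apply mul_le_mul_of_nonneg_right _ hCa0.le
            exact_mod_cast Nat.sub_le _ _
        _ = _ := by push_cast; ring
    have t3 : 0 ≤ ∑ m ∈ Ioc (M^2) (M'^2), |af m| := sum_nonneg fun _ _ => abs_nonneg _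
    have t4 : (∑ m ∈ Ioc (M^2) (M'^2), |af m|)^2 ≤ Ca^2 * (M':ℝ)^4 := by
      calc (∑ m ∈ Ioc (M^2) (M'^2), |af m|)^2 ≤ (Ca * (M':ℝ)^2)^2 := pow_le_pow_left₀ t3 t2 2
        _ = _ := by ring
    have t5 : (M':ℝ)^5 ≤ (N:ℝ) ^ (5/1024:ℝ) := by
      calc (M':ℝ)^5 ≤ u^5 := pow_le_pow_left₀ (by linarith) hM'u 5
        _ = _ := by rw [hu, ← Real.rpow_natCast, ← Real.rpow_mul hNpos.le]; norm_num
    have t6 : (M':ℝ)^4 ≤ (N:ℝ) ^ (5/1024:ℝ) := le_trans (pow_le_pow_right₀ hM'r (by norm_num)) t5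
    have e3 := Er_ge3 hNone'
    have hQS := quad_S hS hD1 (rho_nonneg _ _) hw0 hw1 hw2 hw3 (Ioc (M^2) (M'^2)) af (fun m => c' * √(m:ℝ))
      (by positivity : (0:ℝ) ≤ 718 * (c2 * M')) hoff N
    rw [← hQ] at hQS
    calc _ ≤ ∑ p ∈ ST S N, ‖∑ m ∈ Ioc (M^2) (M'^2), ((af m : ℝ) : ℂ) * e ((c' * √(m:ℝ)) * √(p:ℝ))‖^2 :=
          sum_le_sum fun p _ => SA.U_sub_le c' p hMM
      _ ≤ _ := hQS
      _ ≤ (4 * Q + (DN N : ℝ)^4) * τ + (Ca^2 * (M':ℝ)^4) * (718 * (c2 * M')) * ((DN N : ℝ)^11 * (N:ℝ) ^ (7/8:ℝ)) +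
            N / (DN N : ℝ) * (Ca^2 * (M':ℝ)^4) := by
          have t1 := htail M'
          gcongr
      _ = 4 * Q * τ + (DN N : ℝ)^4 * τ + Ca^2 * (718 * c2) * ((M':ℝ)^5 * ((DN N : ℝ)^11 * (N:ℝ) ^ (7/8:ℝ))) +
            Ca^2 * ((M':ℝ)^4 * (N / (DN N : ℝ))) := by ring
      _ ≤ 4 * Q * τ + Er N * 1 + Ca^2 * (718 * c2) * Er N + Ca^2 * Er N := by
          have hx1 : 0 ≤ (DN N : ℝ)^11 * (N:ℝ) ^ (7/8:ℝ) := by positivity
          have hx2 : 0 ≤ (N:ℝ) / (DN N : ℝ) := by positivity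
          have u1 : (M':ℝ)^5 * ((DN N : ℝ)^11 * (N:ℝ) ^ (7/8:ℝ)) ≤ Er N := by
            unfold Er
            exact mul_le_mul t5 (by linarith) hx1 (by positivity)
          have u2 : (M':ℝ)^4 * (N / (DN N : ℝ)) ≤ Er N := by
            unfold Er
            exact mul_le_mul t6 (by linarith) hx2 (by positivity)
          have u3 : (DN N : ℝ)^4 * τ ≤ Er N * 1 := mul_le_mul e3 (min_le_left _ _) hτ0.le (Er_nonneg N)
          have u4 := mul_le_mul_of_nonneg_left u1 (by positivity : 0 ≤ Ca^2 * (718 * c2))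
          have u5 := mul_le_mul_of_nonneg_left u2 (by positivity : 0 ≤ Ca^2)
          linarith
      _ = _ := by rw [hK2]; ring
  -- conclusion
  have h3 : 8 * Q * τ ≤ η'/4 * Q := by
    have : τ ≤ η'/32 := min_le_right _ _
    calc 8 * Q * τ ≤ 8 * Q * (η'/32) := by gcongr
      _ = _ := by ring
  calc ∑ p ∈ ST S N, (E (c * √((A * p + B : ℕ):ℝ)) - U af φ (c' * √(p:ℝ)) M)^2 ≤
        ∑ p ∈ ST S N, (2 * (E (c * √((A * p + B : ℕ):ℝ)) - U af φ (c' * √(p:ℝ)) M')^2 +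
          2 * (U af φ (c' * √(p:ℝ)) M' - U af φ (c' * √(p:ℝ)) M)^2) := by
        apply sum_le_sum; intro p _
        set x := E (c * √((A * p + B : ℕ):ℝ)) - U af φ (c' * √(p:ℝ)) M'
        set y := U af φ (c' * √(p:ℝ)) M' - U af φ (c' * √(p:ℝ)) M
        have e1 : E (c * √((A * p + B : ℕ):ℝ)) - U af φ (c' * √(p:ℝ)) M = x + y := by ring
        rw [e1]
        exact sq2 x y
    _ = 2 * ∑ p ∈ ST S N, (E (c * √((A * p + B : ℕ):ℝ)) - U af φ (c' * √(p:ℝ)) M')^2 +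
          2 * ∑ p ∈ ST S N, (U af φ (c' * √(p:ℝ)) M' - U af φ (c' * √(p:ℝ)) M)^2 := by
        rw [sum_add_distrib, mul_sum, mul_sum]
    _ ≤ 2 * (2 * C * (N:ℝ) ^ (1 - δ)) + 2 * (4 * Q * τ + K2 / 2 * Er N) := by gcongr
    _ = 4 * C * (N:ℝ) ^ (1 - δ) + 8 * Q * τ + K2 * Er N := by ring
    _ ≤ η'/4 * Q + η'/4 * Q + η'/4 * Q := add_le_add (add_le_add g1 h3) g2
    _ ≤ η' * Q := by
        have := mul_nonneg hη'0.le hQ0
        linarith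
    _ = η * (c1 * Q) := by rw [hη']; ring
    _ ≤ _ := mul_le_mul_of_nonneg_left g3 hη.le

end Pool.Agent.D0H53.SQ
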