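import Mathlib
import Pool.Agent.W24.CP.SF
import Pool.Agent.D0H53.SQ.EQ2
import Pool.Agent.D0H53.SQ.MSq

/-! The limit law over multiplicative sets of positive dimension. -/

open Finset Filter Topology MeasureTheory
open Pool.Agent.H383
open Pool.Agent.H383.Gen (Bd U Ap)
open Pool.Agent.H452R2.Win Pool.Agent.H452R2.Om
open Pool.Agent.H469R2.NK
open Pool.Agent.H425R3.JL (PR fav cav q ApU fav_const fav_mono cav_ofReal)
open Pool.Agent.W24.CP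
open Pool.Agent.W24.CP.SL (chS chS_zero norm_chS mcS TS AvS)
open Pool.Agent.W24.Katai (Mul1)
open Pool.Agent.W24.CP.SU

namespace Pool.Agent.D0H53.SQ

variable {ι : Type*} [Fintype ι]

/-- the sequence of sets -/
noncomputable def SS (S : Set ℕ) (j : ℕ) : Finset ℕ := ST S (j + 1)

lemma SS_ne {S : Set ℕ} (hS : MSet S) (j : ℕ) : (SS S j).Nonempty := ⟨1, by
  unfold SS; rw [mem_ST]; exact ⟨le_rfl, by omega, hS.one⟩⟩

lemma VI_chS (θ α : ℝ) (g : ℕ → ℂ) : (fun n : ℕ => (g n * e (α * n)) * chS θ n) = fun n => g n * Fp θ α n := by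
  funext n
  unfold chS Fp
  rw [mul_assoc, ← e_add, add_comm (α * (n:ℝ))]

lemma VS_or {S : Set ℕ} (hS : MSet S) (θ : ℝ) (hθ : θ ≠ 0) (η : ℝ) (hη : 0 < η) : ∃ j0 : ℕ, ∀ j, j0 ≤ j → ∀ v ∈ VI j,
    ‖cav (SS S j) (fun n => v n * chS θ n)‖ ≤ η := by
  obtain ⟨N0, h⟩ := eq_main hS hθ hη
  refine ⟨N0, fun j hj v hv => ?_⟩
  obtain ⟨g, hg, α, rfl⟩ := hv
  have h1 := h (j + 1) (by omega) α g hg
  have hc0 : (0:ℝ) < (SS S j).card := by exact_mod_cast Finset.card_pos.mpr (SS_ne hS j)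
  rw [VI_chS]
  unfold cav
  rw [norm_div, Complex.norm_natCast, div_le_iff₀ hc0]
  exact h1

lemma SS_Av {S : Set ℕ} (hS : MSet S) : AvS (SS S) := by
  intro θ
  by_cases hθ : θ = 0
  · subst hθ
    have : ∀ j, cav (SS S j) (chS 0) = 1 := by
      intro j
      rw [chS_zero]
      exact cav_const (SS_ne hS j) 1
    simp only [this, mcS, if_pos]
    exact tendsto_const_nhds
  · simp only [mcS, if_neg hθ]
    rw [Metric.tendsto_atTop]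
    intro ε hε
    obtain ⟨j0, h⟩ := VS_or hS θ hθ (ε/2) (by positivity)
    refine ⟨j0, fun j hj => ?_⟩
    rw [dist_zero_right]
    have h1 := h j hj (fun n : ℕ => (1:ℂ) * e (0 * n)) ⟨fun _ => 1, ⟨fun n => by simp, fun m n _ => by simp⟩, 0, rfl⟩
    have e1 : (fun n : ℕ => ((1:ℂ) * e (0 * n)) * chS θ n) = chS θ := by
      funext n
      have : e (0 * (n:ℝ)) = 1 := by unfold e; simp
      rw [this]; ring
    simp only [e1] at h1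
    linarith

variable {E : ℝ → ℝ} {af : ℕ → ℝ} {φ : ℝ} {w : ℝ → ℂ}

lemma ApU_SS {S : Set ℕ} (hS : MSet S) (ha : Bdw af) (ha0 : af 0 = 0) (hw : GW.Wt w) {κ₁ κ₂ : ℝ} (hSd : SandW E af φ w κ₁ κ₂) {c : ℝ} (hc : 0 < c)
    (A B : ι → ℕ) (hA : ∀ i, 1 ≤ A i) : ApU (Ux af φ c A) (ev E c A B) (SS S) := by
  intro η hη
  have hη' : 0 < η / (Fintype.card ι + 1) := by positivity
  choose M0 hM0 using fun i => S_ms hS ha ha0 hw hSd hc (A i) (B i) (hA i) hη'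
  refine ⟨univ.sup M0, fun M hM => ?_⟩
  have h1 : ∀ i, ∃ N0 : ℕ, ∀ N : ℕ, N0 ≤ N →
      ∑ n ∈ ST S N, (E (c * √((A i * n + B i : ℕ):ℝ)) - U af φ ((c * √(A i:ℝ)) * √(n:ℝ)) M)^2 ≤ η / (Fintype.card ι + 1) * (ST S N).card :=
    fun i => hM0 i M ((Finset.le_sup (f := M0) (mem_univ i)).trans hM)
  choose N0 hN0 using h1
  refine ⟨univ.sup N0, fun j hj => ?_⟩
  have hc0 : (0:ℝ) < (SS S j).card := by exact_mod_cast Finset.card_pos.mpr (SS_ne hS j)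
  unfold fav
  rw [div_le_iff₀ hc0]
  unfold q
  rw [sum_comm]
  calc ∑ i, ∑ n ∈ SS S j, ((ev E c A B n - Ux af φ c A M n) i)^2 ≤ ∑ i : ι, η / (Fintype.card ι + 1) * (SS S j).card := by
        apply sum_le_sum; intro i _
        have := (Finset.le_sup (f := N0) (mem_univ i)).trans hj
        exact hN0 i (j + 1) (by omega)
    _ = η * ((Fintype.card ι : ℝ) / (Fintype.card ι + 1)) * (SS S j).card := by
        rw [sum_const, card_univ, nsmul_eq_mul]; ring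
    _ ≤ η * 1 * (SS S j).card := by
        apply mul_le_mul_of_nonneg_right _ hc0.le
        apply mul_le_mul_of_nonneg_left _ hη.le
        rw [div_le_one (by positivity)]; linarith
    _ = _ := by rw [mul_one]

lemma unS {S : Set ℕ} (hS : MSet S) {X : ℕ → ℂ} {η : ℝ}
    (h : ∃ j0 : ℕ, ∀ j, j0 ≤ j → ∀ v ∈ VI j, ‖cav (SS S j) (fun n => v n * X n)‖ ≤ η) :
    ∃ N0 : ℕ, ∀ N : ℕ, N0 ≤ N → ∀ α : ℝ, ∀ g : ℕ → ℂ, Mul1 g →
      ‖∑ n ∈ ST S N, g n * e (α * n) * X n‖ ≤ η * (ST S N).card := by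
  obtain ⟨j1, hj1⟩ := h
  refine ⟨j1 + 1, fun N hN α g hg => ?_⟩
  obtain ⟨j, rfl⟩ : ∃ j, N = j + 1 := ⟨N - 1, by omega⟩
  have h3 := hj1 j (by omega) (fun n : ℕ => g n * e (α * n)) ⟨g, hg, α, rfl⟩
  unfold cav at h3
  have hc0 : (0:ℝ) < (SS S j).card := by exact_mod_cast Finset.card_pos.mpr (SS_ne hS j)
  rw [norm_div, Complex.norm_natCast, div_le_iff₀ hc0] at h3
  exact h3

open Classical in
/-- the limit law over the set -/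
theorem main_S {S : Set ℕ} (hS : MSet S) (ha : Bdw af) (ha0 : af 0 = 0) (hw : GW.Wt w) {κ₁ κ₂ : ℝ} (hSd : SandW E af φ w κ₁ κ₂)
    {c : ℝ} (hc : 0 < c) (A B : ι → ℕ) (hA : ∀ i, 1 ≤ A i) {μ : ProbabilityMeasure (ι → ℝ)}
    (hμ : ∀ f : (ι → ℝ) → ℝ, Continuous f → (∃ C, ∀ x, |f x| ≤ C * (1 + q x)) →
      Tendsto (fun j => fav (SI j) (fun n => f (ev E c A B n))) atTop (𝓝 (∫ x, f x ∂(μ : Measure (ι → ℝ))))) :
    (∀ f : (ι → ℝ) → ℝ, Continuous f → (∃ C, ∀ x, |f x| ≤ C * (1 + q x)) → ∀ η : ℝ, 0 < η → ∃ N0 : ℕ, ∀ N : ℕ, N0 ≤ N → ∀ α : ℝ,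
      ∀ g : ℕ → ℂ, Mul1 g →
        ‖∑ n ∈ ST S N, g n * e (α * n) * ((f (ev E c A B n) - ∫ x, f x ∂(μ : Measure (ι → ℝ)) : ℝ) : ℂ)‖ ≤ η * (ST S N).card) ∧
    (∀ D : Set (ι → ℝ), (μ : Measure (ι → ℝ)) (frontier D) = 0 → ∀ η : ℝ, 0 < η → ∃ N0 : ℕ, ∀ N : ℕ, N0 ≤ N → ∀ α : ℝ,
      ∀ g : ℕ → ℂ, Mul1 g →
        ‖∑ n ∈ ST S N, g n * e (α * n) * (((if ev E c A B n ∈ D then (1:ℝ) else 0) - (μ : Measure (ι → ℝ)).real D : ℝ) : ℂ)‖ ≤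
          η * (ST S N).card) := by
  have hU : ∀ M i, (fun n => ((Ux af φ c A M n i : ℝ) : ℂ)) ∈ TS := fun M i => U_TS af φ (c * √(A i:ℝ)) M
  have h1 := ApU_SI ha ha0 hw hSd hc A B hA
  have h2 := ApU_SS hS ha ha0 hw hSd hc A B hA
  have hQ2 : ∀ f : (ι → ℝ) → ℝ, Continuous f → (∃ C, ∀ x, |f x| ≤ C * (1 + q x)) →
      Tendsto (fun j => fav (SS S j) (fun n => f (ev E c A B n))) atTop (𝓝 (∫ x, f x ∂(μ : Measure (ι → ℝ)))) :=
    fun f hf hC => SL.law_transfer hU SI_ne SI_Av h1 (SS_ne hS) (SS_Av hS) h2 hf hC (hμ f hf hC)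
  have huQ : ∀ f : (ι → ℝ) → ℝ, Continuous f → (∃ C, ∀ x, |f x| ≤ C * (1 + q x)) → ∀ η : ℝ, 0 < η →
      ∃ j0 : ℕ, ∀ j, j0 ≤ j → ∀ v ∈ VI j, ‖cav (SS S j) (fun n => v n * ((f (ev E c A B n) - ∫ x, f x ∂(μ : Measure (ι → ℝ)) : ℝ) : ℂ))‖ ≤ η :=
    fun f hf hC η hη => uo (SS_ne hS) (SS_Av hS) (V := VI) VI_bd (VS_or hS) hU h2 hf hC (hQ2 f hf hC) hη
  refine ⟨?_, ?_⟩
  · intro f hf hC η hη
    exact unS hS (X := fun n => ((f (ev E c A B n) - ∫ x, f x ∂(μ : Measure (ι → ℝ)) : ℝ) : ℂ)) (huQ f hf hC η hη)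
  · intro D hD η hη
    exact unS hS (X := fun n => (((if ev E c A B n ∈ D then (1:ℝ) else 0) - (μ : Measure (ι → ℝ)).real D : ℝ) : ℂ))
      (SV.uoA (SS_ne hS) VI_bd hQ2 huQ hD hη)

end Pool.Agent.D0H53.SQ
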