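import Mathlib
import Pool.Agent.D0H53.SQ.Ram
import Pool.Agent.Helper923.PNT

/-! Examples: sets containing the primes of a residue class; sums of two squares. -/

open Finset Filter Topology

namespace Pool.Agent.D0H53.SQ

/-- a set containing all primes of a residue class has positive lower density relative to the primes -/
lemma dens_of_class {q : ℕ} [NeZero q] {a : ZMod q} (ha : IsUnit a) {G : ℕ → Prop} (hG : ∀ p : ℕ, p.Prime → (p : ZMod q) = a → G p) :
    ∃ κ : ℝ, 0 < κ ∧ ∃ y0 : ℕ, 1 ≤ y0 ∧ ∀ y : ℕ, y0 ≤ y → κ * y ≤ ∑ p ∈ PG G y, Real.log p := by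
  classical
  have hφ : (0:ℝ) < (q.totient : ℝ)⁻¹ := by
    have : 0 < q.totient := Nat.totient_pos.mpr (Nat.pos_of_ne_zero (NeZero.ne q))
    positivity
  set c : ℝ := (q.totient : ℝ)⁻¹ with hc
  have h1 := (Pool.Agent.Helper923.PNT.pnt_residueClass ha).comp tendsto_natCast_atTop_atTop
  have h2 : ∀ᶠ y : ℕ in atTop, c * (3/4) < (∑ k ∈ Finset.Icc 1 ⌊((y:ℕ):ℝ)⌋₊, ArithmeticFunction.vonMangoldt.residueClass a k) / (y:ℝ) :=
    h1.eventually_const_lt (by linarith)
  have h3 : ∀ᶠ y : ℕ in atTop, 4 / c * (2 * 4) ≤ (y:ℝ) ^ (1/4:ℝ) :=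
    (((tendsto_rpow_atTop (by norm_num : (0:ℝ) < 1/4)).comp tendsto_natCast_atTop_atTop).eventually_ge_atTop _)
  obtain ⟨y0, hy0⟩ := eventually_atTop.mp (h2.and h3)
  refine ⟨c / 2, by positivity, max y0 1, le_max_right _ _, fun y hy => ?_⟩
  obtain ⟨g1, g2⟩ := hy0 y (le_trans (le_max_left _ _) hy)
  have hy1 : 1 ≤ y := le_trans (le_max_right _ _) hy
  have hyr : (1:ℝ) ≤ y := by exact_mod_cast hy1
  have hy0' : (0:ℝ) < y := by linarith
  rw [Nat.floor_natCast, lt_div_iff₀ hy0'] at g1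
  -- splitting
  have h4 : ∑ k ∈ Icc 1 y, ArithmeticFunction.vonMangoldt.residueClass a k ≤ ∑ p ∈ PG G y, Real.log p + (Chebyshev.psi y - Chebyshev.theta y) := by
    rw [Chebyshev.psi_sub_theta_eq_sum_not_prime, Nat.floor_natCast]
    have e1 : ∑ k ∈ Icc 1 y, ArithmeticFunction.vonMangoldt.residueClass a k =
        ∑ k ∈ (Icc 1 y).filter Nat.Prime, ArithmeticFunction.vonMangoldt.residueClass a k +
        ∑ k ∈ (Icc 1 y).filter (fun k => ¬ k.Prime), ArithmeticFunction.vonMangoldt.residueClass a k :=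
      (sum_filter_add_sum_filter_not _ _ _).symm
    rw [e1]
    apply add_le_add
    · have hsub : PG G y ⊆ (Icc 1 y).filter Nat.Prime := by
        intro p hp
        rw [mem_PG] at hp
        rw [mem_filter, mem_Icc]
        exact ⟨⟨hp.2.1.one_lt.le, hp.1⟩, hp.2.1⟩
      rw [← sum_sdiff hsub]
      have e2 : ∑ k ∈ (Icc 1 y).filter Nat.Prime \ PG G y, ArithmeticFunction.vonMangoldt.residueClass a k = 0 := by
        apply sum_eq_zero
        intro p hp
        rw [Finset.mem_sdiff, mem_filter, mem_Icc, mem_PG] at hp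
        apply Set.indicator_of_notMem
        intro h
        exact hp.2 ⟨hp.1.1.2, hp.1.2, hG p hp.1.2 h⟩
      rw [e2, zero_add]
      apply sum_le_sum; intro p hp
      rw [mem_PG] at hp
      refine (ArithmeticFunction.vonMangoldt.residueClass_le a p).trans ?_
      rw [ArithmeticFunction.vonMangoldt_apply_prime hp.2.1]
    · have e3 : (Icc 1 y).filter (fun k => ¬ k.Prime) = (Ioc 0 y).filter (fun k => ¬ k.Prime) := by
        ext k; simp only [mem_filter, mem_Icc, mem_Ioc]; constructor <;> (rintro ⟨h1, h2⟩; exact ⟨by omega, h2⟩)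
      rw [e3]
      exact sum_le_sum fun k _ => ArithmeticFunction.vonMangoldt.residueClass_le a k
  have h5 := Chebyshev.psi_sub_theta_le hyr
  have h6 : 2 * √(y:ℝ) * Real.log y ≤ c / 4 * y := by
    have h7 : Real.log y ≤ (y:ℝ) ^ (1/4:ℝ) / (1/4) := Real.log_le_rpow_div hy0'.le (by norm_num)
    have e1 : (y:ℝ) = √(y:ℝ) * ((y:ℝ) ^ (1/4:ℝ) * (y:ℝ) ^ (1/4:ℝ)) := by
      rw [Real.sqrt_eq_rpow, ← Real.rpow_add hy0', ← Real.rpow_add hy0']; norm_num
    have h8 : 2 * 4 ≤ c / 4 * (y:ℝ) ^ (1/4:ℝ) := by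
      have e2 : c / 4 * (4 / c * (2 * 4)) = 2 * 4 := by field_simp
      calc 2 * 4 = c / 4 * (4 / c * (2 * 4)) := e2.symm
        _ ≤ _ := mul_le_mul_of_nonneg_left g2 (by positivity)
    calc 2 * √(y:ℝ) * Real.log y ≤ 2 * √(y:ℝ) * ((y:ℝ) ^ (1/4:ℝ) / (1/4)) := by gcongr
      _ = √(y:ℝ) * (y:ℝ) ^ (1/4:ℝ) * (2 * 4) := by ring
      _ ≤ √(y:ℝ) * (y:ℝ) ^ (1/4:ℝ) * (c / 4 * (y:ℝ) ^ (1/4:ℝ)) := by gcongr
      _ = c / 4 * (√(y:ℝ) * ((y:ℝ) ^ (1/4:ℝ) * (y:ℝ) ^ (1/4:ℝ))) := by ring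
      _ = c / 4 * y := by rw [← e1]
  linarith

/-- the sums of two squares form a multiplicative set of positive dimension -/
theorem two_squares : MSet {n : ℕ | ∃ x y : ℕ, n = x^2 + y^2} where
  one := ⟨1, 0, by norm_num⟩
  mul := by
    intro m n hmn
    constructor
    · intro h
      have key : ∀ m n : ℕ, Nat.Coprime m n → m * n ∈ {n : ℕ | ∃ x y : ℕ, n = x^2 + y^2} → m ∈ {n : ℕ | ∃ x y : ℕ, n = x^2 + y^2} := by
        intro m n hmn h
        rcases Nat.eq_zero_or_pos n with rfl | hn0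
        · rw [Nat.coprime_zero_right] at hmn
          subst hmn
          exact ⟨1, 0, by norm_num⟩
        rcases Nat.eq_zero_or_pos m with rfl | hm0
        · exact ⟨0, 0, by norm_num⟩
        rw [Set.mem_ofPred_eq, Nat.eq_sq_add_sq_iff] at h ⊢
        intro q hq hq3
        have hqp := Nat.prime_of_mem_primeFactors hq
        have : Fact q.Prime := ⟨hqp⟩
        have hqm := Nat.dvd_of_mem_primeFactors hq
        have hqn : ¬ q ∣ n := by
          intro h2
          have := Nat.dvd_gcd hqm h2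
          rw [Nat.Coprime.gcd_eq_one hmn] at this
          exact hqp.one_lt.ne' (Nat.dvd_one.mp this)
        have h3 := h q (by
          rw [Nat.mem_primeFactors]
          exact ⟨hqp, hqm.trans (Dvd.intro _ rfl), (Nat.mul_pos hm0 hn0).ne'⟩) hq3
        rw [padicValNat.mul hm0.ne' hn0.ne', padicValNat.eq_zero_of_not_dvd hqn, add_zero] at h3
        exact h3
      exact ⟨key m n hmn h, key n m hmn.symm (by rw [mul_comm]; exact h)⟩
    · rintro ⟨⟨x, y, hm⟩, ⟨u, v, hn⟩⟩
      exact Nat.sq_add_sq_mul hm hn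
  dens := by
    have : NeZero 4 := ⟨by norm_num⟩
    apply dens_of_class (q := 4) (a := 1) isUnit_one
    intro p hp hp1
    have : Fact p.Prime := ⟨hp⟩
    have h4 : p % 4 ≠ 3 := by
      intro h3
      have h5 : ((p : ℕ) : ZMod 4) = ((p % 4 : ℕ) : ZMod 4) := by simp
      rw [h3, hp1] at h5
      revert h5
      decide
    obtain ⟨x, y, h⟩ := Nat.Prime.sq_add_sq h4
    exact ⟨x, y, h.symm⟩

/-- all positive integers -/
theorem all_pos : MSet {n : ℕ | True} where
  one := trivial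
  mul := fun _ _ _ => by simp
  dens := by
    have : NeZero 1 := ⟨by norm_num⟩
    exact dens_of_class (q := 1) (a := 1) isUnit_one (fun _ _ _ => trivial)

end Pool.Agent.D0H53.SQ
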