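import Mathlib
import Pool.Agent.W24.CP.SR
import Pool.Agent.D0H53.SQ.Asm
import Pool.Agent.D0H53.SQ.Ex

/-! The circle problem over multiplicative sets of squared radii. -/

open Finset Filter Topology MeasureTheory
open Pool.Agent.H383
open Pool.Agent.H383.Gen (Bd U Ap)
open Pool.Agent.H452R2.Win Pool.Agent.H452R2.Om
open Pool.Agent.H469R2.NK
open Pool.Agent.H425R3.JL
open Pool.Agent.W24.CP
open Pool.Agent.W24.CP.SU
open Pool.Agent.W24.Katai (Mul1)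

namespace Pool.Agent.D0H53.SQ

/-- from sums to averages -/
lemma fav_of_sum {ι : Type*} {x : ℕ → ι → ℝ} {f : (ι → ℝ) → ℝ} {L : ℝ}
    (h : ∀ η : ℝ, 0 < η → ∃ N0 : ℕ, ∀ N : ℕ, N0 ≤ N →
      ‖∑ n ∈ Icc 1 N, (1:ℂ) * e (0 * n) * ((f (x n) - L : ℝ) : ℂ)‖ ≤ η * N) :
    Tendsto (fun j => fav (SI j) (fun n => f (x n))) atTop (𝓝 L) := by
  rw [Metric.tendsto_atTop]
  intro η hη
  obtain ⟨N0, h1⟩ := h (η/2) (by positivity)
  refine ⟨N0, fun j hj => ?_⟩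
  have h2 := h1 (j+1) (by omega)
  have e1 : ∑ n ∈ Icc 1 (j+1), (1:ℂ) * e (0 * (n:ℝ)) * ((f (x n) - L : ℝ) : ℂ) = ((∑ n ∈ Icc 1 (j+1), (f (x n) - L) : ℝ) : ℂ) := by
    push_cast
    apply sum_congr rfl; intro n _
    have : e (0 * (n:ℝ)) = 1 := by unfold e; simp
    rw [this]; ring
  rw [e1, Complex.norm_real, Real.norm_eq_abs] at h2
  have hj1 : (0:ℝ) < ((j + 1 : ℕ):ℝ) := by positivity
  have e2 : fav (SI j) (fun n => f (x n)) - L = (∑ n ∈ Icc 1 (j+1), (f (x n) - L)) / ((j + 1 : ℕ):ℝ) := by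
    unfold fav
    rw [SI_card]
    unfold SI
    rw [sum_sub_distrib, sum_const, Nat.card_Icc, nsmul_eq_mul, Nat.add_sub_cancel]
    field_simp
  rw [Real.dist_eq, e2, abs_div, abs_of_pos hj1]
  calc |∑ n ∈ Icc 1 (j+1), (f (x n) - L)| / ((j + 1 : ℕ):ℝ) ≤ (η/2 * ((j + 1 : ℕ):ℝ)) / ((j + 1 : ℕ):ℝ) :=
        div_le_div_of_nonneg_right h2 hj1.le
    _ = η/2 := by field_simp
    _ < η := by linarith

open Classical in
/-- proportions from sums -/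
lemma prop_of_sum {ι : Type*} {S : Set ℕ} (hS : MSet S) {x : ℕ → ι → ℝ} {D : Set (ι → ℝ)} {L : ℝ}
    (h : ∀ η : ℝ, 0 < η → ∃ N0 : ℕ, ∀ N : ℕ, N0 ≤ N →
      ‖∑ n ∈ ST S N, (1:ℂ) * e (0 * n) * (((if x n ∈ D then (1:ℝ) else 0) - L : ℝ) : ℂ)‖ ≤ η * (ST S N).card) :
    Tendsto (fun N : ℕ => ((((Icc 1 N).filter (fun n => n ∈ S ∧ x n ∈ D)).card : ℕ) : ℝ) / ((((Icc 1 N).filter (· ∈ S)).card : ℕ) : ℝ))
      atTop (𝓝 L) := by
  rw [Metric.tendsto_atTop]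
  intro η hη
  obtain ⟨N0, h1⟩ := h (η/2) (by positivity)
  refine ⟨max N0 1, fun N hN => ?_⟩
  have h2 := h1 N (le_trans (le_max_left _ _) hN)
  have hN1 : 1 ≤ N := le_trans (le_max_right _ _) hN
  have e1 : ∑ n ∈ ST S N, (1:ℂ) * e (0 * (n:ℝ)) * (((if x n ∈ D then (1:ℝ) else 0) - L : ℝ) : ℂ) =
      ((∑ n ∈ ST S N, ((if x n ∈ D then (1:ℝ) else 0) - L) : ℝ) : ℂ) := by
    push_cast
    apply sum_congr rfl; intro n _
    have : e (0 * (n:ℝ)) = 1 := by unfold e; simp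
    rw [this]; ring
  rw [e1, Complex.norm_real, Real.norm_eq_abs] at h2
  have hset : (Icc 1 N).filter (· ∈ S) = ST S N := by
    ext n; rw [mem_ST, mem_filter, mem_Icc]; tauto
  have hset2 : (Icc 1 N).filter (fun n => n ∈ S ∧ x n ∈ D) = (ST S N).filter (fun n => x n ∈ D) := by
    ext n; rw [mem_filter, mem_filter, mem_ST, mem_Icc]; tauto
  rw [hset, hset2]
  have hc0 : (0:ℝ) < (ST S N).card := by
    have : (ST S N).Nonempty := ⟨1, by rw [mem_ST]; exact ⟨le_rfl, hN1, hS.one⟩⟩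
    exact_mod_cast Finset.card_pos.mpr this
  have e2 : (((ST S N).filter (fun n => x n ∈ D)).card : ℝ) / (ST S N).card - L =
      (∑ n ∈ ST S N, ((if x n ∈ D then (1:ℝ) else 0) - L)) / (ST S N).card := by
    rw [sum_sub_distrib, sum_const, nsmul_eq_mul, ← sum_filter, sum_const, nsmul_eq_mul, mul_one]
    field_simp
  rw [Real.dist_eq, e2, abs_div, abs_of_pos hc0]
  calc |∑ n ∈ ST S N, ((if x n ∈ D then (1:ℝ) else 0) - L)| / ((ST S N).card : ℝ) ≤ (η/2 * (ST S N).card) / ((ST S N).card : ℝ) :=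
        div_le_div_of_nonneg_right h2 hc0.le
    _ = η/2 := by field_simp
    _ < η := by linarith

open Classical in
/-- the hypotheses in plain form -/
lemma MSet_of {S : Set ℕ} (h1 : 1 ∈ S) (h2 : ∀ m n : ℕ, Nat.Coprime m n → (m * n ∈ S ↔ m ∈ S ∧ n ∈ S)) {κ : ℝ} (hκ : 0 < κ) {y0 : ℕ}
    (h3 : ∀ y : ℕ, y0 ≤ y → κ * y ≤ ∑ p ∈ (Icc 1 y).filter (fun p => p.Prime ∧ p ∈ S), Real.log p) : MSet S where
  one := h1
  mul := h2
  dens := ⟨κ, hκ, max y0 1, le_max_right _ _, fun y hy => by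
    refine (h3 y (le_trans (le_max_left _ _) hy)).trans (le_of_eq ?_)
    apply sum_congr _ (fun _ _ => rfl)
    ext p
    rw [mem_PG, mem_filter, mem_Icc]
    constructor
    · rintro ⟨⟨_, a1⟩, a2⟩; exact ⟨a1, a2⟩
    · rintro ⟨a1, a2, a3⟩; exact ⟨⟨a2.one_lt.le, a1⟩, a2, a3⟩⟩

open Classical in
open Pool.Agent.H383.Gauss Pool.Agent.H383.Circ in
theorem circ_sparse (r : ℕ → ℕ) (hr : ∀ m : ℕ, r m = Nat.card {p : ℤ × ℤ // p.1 ^ 2 + p.2 ^ 2 = (m : ℤ)}) :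
    ∃ (ν : ProbabilityMeasure ℝ) (G : ℂ → ℂ),
      Differentiable ℂ G ∧ (∀ x : ℝ, 0 ≤ (G x).re ∧ (G x).im = 0) ∧
      (ν : Measure ℝ) = volume.withDensity (fun x : ℝ => ENNReal.ofReal (G x).re) ∧
      (∀ u v : ℝ, u < v → 0 < (ν : Measure ℝ) (Set.Ioo u v)) ∧
      ∀ (k : ℕ) (a b : Fin k → ℕ), (∀ i, 0 < a i) →
      ∃ μ : ProbabilityMeasure (Fin k → ℝ),
        Integrable (fun x : Fin k → ℝ => ∑ i, x i ^ 2) (μ : Measure (Fin k → ℝ)) ∧
        (∀ i, (μ : Measure (Fin k → ℝ)).map (fun x => x i) = (ν : Measure ℝ)) ∧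
        (∀ i, ∫ x, x i ∂(μ : Measure (Fin k → ℝ)) = 0) ∧
        (∀ i j, ∀ u v d : ℕ, a i = d * v → a j = d * u → Nat.Coprime u v →
          ∫ x, x i * x j ∂(μ : Measure (Fin k → ℝ)) =
            (∑' h : ℕ, (r (u * h) : ℝ) * r (v * h) / ((u : ℝ) * v * (h : ℝ) ^ 2) ^ (3 / 4 : ℝ)) / (2 * Real.pi ^ 2)) ∧
        (∀ S : Set ℕ, 1 ∈ S → (∀ m n : ℕ, Nat.Coprime m n → (m * n ∈ S ↔ m ∈ S ∧ n ∈ S)) →
          (∃ κ : ℝ, 0 < κ ∧ ∃ y₀ : ℕ, ∀ y : ℕ, y₀ ≤ y →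
            κ * y ≤ ∑ p ∈ (Finset.Icc 1 y).filter (fun p => p.Prime ∧ p ∈ S), Real.log p) →
          (∀ f : (Fin k → ℝ) → ℝ, Continuous f → (∃ C : ℝ, ∀ x, |f x| ≤ C * (1 + ∑ i, x i ^ 2)) →
            ∀ η : ℝ, 0 < η → ∃ N₀ : ℕ, ∀ N : ℕ, N₀ ≤ N → ∀ α : ℝ, ∀ g : ℕ → ℂ, (∀ n, ‖g n‖ ≤ 1) →
              (∀ m n : ℕ, Nat.Coprime m n → g (m * n) = g m * g n) →
              ‖∑ n ∈ (Finset.Icc 1 N).filter (· ∈ S), g n * Complex.exp (2 * Real.pi * Complex.I * (α * n)) *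
                ((f (fun i => Ec ((a i : ℝ) * n + b i)) - ∫ x, f x ∂(μ : Measure (Fin k → ℝ)) : ℝ) : ℂ)‖ ≤
                η * ((Finset.Icc 1 N).filter (· ∈ S)).card) ∧
          (∀ D : Set (Fin k → ℝ), (μ : Measure (Fin k → ℝ)) (frontier D) = 0 →
            ∀ η : ℝ, 0 < η → ∃ N₀ : ℕ, ∀ N : ℕ, N₀ ≤ N → ∀ α : ℝ, ∀ g : ℕ → ℂ, (∀ n, ‖g n‖ ≤ 1) →
              (∀ m n : ℕ, Nat.Coprime m n → g (m * n) = g m * g n) →
              ‖∑ n ∈ (Finset.Icc 1 N).filter (· ∈ S), g n * Complex.exp (2 * Real.pi * Complex.I * (α * n)) *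
                (((if (fun i => Ec ((a i : ℝ) * n + b i)) ∈ D then (1 : ℝ) else 0)
                  - (μ : Measure (Fin k → ℝ)).real D : ℝ) : ℂ)‖ ≤ η * ((Finset.Icc 1 N).filter (· ∈ S)).card)) ∧
        (∀ D : Set (Fin k → ℝ), (μ : Measure (Fin k → ℝ)) (frontier D) = 0 →
          Tendsto (fun N : ℕ =>
            ((((Finset.Icc 1 N).filter (fun n => (∃ x y : ℕ, n = x ^ 2 + y ^ 2) ∧
              (fun i => Ec ((a i : ℝ) * n + b i)) ∈ D)).card : ℕ) : ℝ) /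
            ((((Finset.Icc 1 N).filter (fun n => ∃ x y : ℕ, n = x ^ 2 + y ^ 2)).card : ℕ) : ℝ)) atTop
            (𝓝 ((μ : Measure (Fin k → ℝ)).real D))) := by
  obtain ⟨t, ht0, ht⟩ := SR.exists_tr
  have ht2 : 0 < t^2 := by positivity
  have hP : ∀ n : ℕ, 0 < t^2 * (n:ℝ)^2 + (2 * t^2) * n + t^2 := fun n => by positivity
  have hsq : √(t^2) = t := Real.sqrt_sq ht0.le
  have hAp := quad_Ap (a := t^2) (b := 2 * t^2) (c := t^2) ht2 (fun n => (hP n).le)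
  have e0 : 2 * t^2 / (2 * √(t^2)) = t := by rw [hsq]; field_simp
  rw [hsq] at e0
  rw [hsq, e0] at hAp
  obtain ⟨ν, G, g1, g2, g3, g4, g5, g6, -⟩ := distr3 (a := t^2) (b := 2 * t^2) (c := t^2) ht2 hP
  have hν : ∀ f : ℝ → ℝ, Continuous f → (∃ C, ∀ x, |f x| ≤ C) →
      Tendsto (fun j => fav (RS j) (fun n : ℕ => f (En √(t^2 * (n:ℝ)^2 + (2 * t^2) * n + t^2)))) atTop (𝓝 (∫ x, f x ∂(ν : Measure ℝ))) := by
    intro f hf hC
    obtain ⟨C, hC⟩ := hC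
    have h7 := g6 f hf ⟨C, fun x => by
      have := hC x
      have h8 : 0 ≤ C := (abs_nonneg _).trans this
      nlinarith [sq_nonneg x]⟩ 1 one_pos
    rw [Metric.tendsto_atTop]
    intro η hη
    obtain ⟨N0, h8⟩ := h7 (η/2) (by positivity)
    refine ⟨N0, fun j hj => ?_⟩
    have h9 := h8 (j+1) (by omega) 0 (by
      rw [Nat.cast_zero, Real.zero_rpow (by norm_num)]; exact Nat.cast_nonneg _)
    rw [Real.dist_eq]
    refine lt_of_le_of_lt (le_of_eq ?_) (lt_of_le_of_lt h9 (by linarith))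
    congr 2
    unfold fav RS
    rw [Finset.card_range, Nat.zero_add, ← Finset.range_eq_Ico]
    congr 1
    apply Finset.sum_congr rfl
    intro n _
    beta_reduce
    rw [En_quad (hP n).le]
  refine ⟨ν, G, g1, g2, g3, g4, ?_⟩
  intro k a b ha
  obtain ⟨μ, m1, m2, m3, m4, m5, m6⟩ := SF.main (E := En) ag_Bd ag_Bdw ag_zero wg_Wt En_SandW one_pos ht hAp hν a b (fun i => ha i)
  have hev : ∀ n : ℕ, SU.ev En 1 a b n = fun i => Ec ((a i : ℝ) * n + b i) := by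
    intro n; funext i
    unfold SU.ev
    rw [one_mul, Ec_eq (Nat.cast_nonneg _)]
    congr 1; push_cast; ring
  have he : ∀ (α : ℝ) (n : ℕ), e (α * n) = Complex.exp (2 * Real.pi * Complex.I * (α * n)) := by
    intro α n
    unfold e
    congr 1; push_cast; ring
  have hμ : ∀ f : (Fin k → ℝ) → ℝ, Continuous f → (∃ C, ∀ x, |f x| ≤ C * (1 + q x)) →
      Tendsto (fun j => fav (SI j) (fun n => f (SU.ev En 1 a b n))) atTop (𝓝 (∫ x, f x ∂(μ : Measure (Fin k → ℝ)))) := by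
    intro f hf hC
    apply fav_of_sum
    intro η hη
    obtain ⟨N0, h⟩ := m5 f hf hC η hη
    exact ⟨N0, fun N hN => (h N hN 0).1 (fun _ => 1) ⟨fun n => by simp, fun m n _ => by simp⟩⟩
  have hset : ∀ (S : Set ℕ) (N : ℕ), (Icc 1 N).filter (· ∈ S) = ST S N := by
    intro S N; ext n; rw [mem_ST, mem_filter, mem_Icc]; tauto
  refine ⟨μ, m1, m2, m3, ?_, ?_, ?_⟩
  · intro i j u v d hi hj huv
    obtain ⟨n1, n2⟩ := m4 i j
    have hd : 0 < d := by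
      rcases Nat.eq_zero_or_pos d with h | h
      · have := ha i; rw [hi, h, zero_mul] at this; omega
      · exact h
    have hg : Nat.gcd (a i) (a j) = d := by
      rw [hi, hj, Nat.gcd_mul_left, Nat.Coprime.symm huv, mul_one]
    have hu : a j / Nat.gcd (a i) (a j) = u := by rw [hg, hj, Nat.mul_div_cancel_left _ hd]
    have hv : a i / Nat.gcd (a i) (a j) = v := by rw [hg, hi, Nat.mul_div_cancel_left _ hd]
    rw [hu, hv] at n1 n2
    have hterm : ∀ h : ℕ, ag (u * h) * ag (v * h) / 2 =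
        ((r (u * h) : ℝ) * r (v * h) / ((u : ℝ) * v * (h : ℝ) ^ 2) ^ (3 / 4 : ℝ)) / (2 * Real.pi ^ 2) := by
      intro h
      rw [SR.ag_all, SR.ag_all, hr, hr]
      have e1 : (((u * h : ℕ) : ℝ)) ^ (-(3 / 4) : ℝ) * (((v * h : ℕ) : ℝ)) ^ (-(3 / 4) : ℝ) =
          1 / ((u : ℝ) * v * (h : ℝ) ^ 2) ^ (3 / 4 : ℝ) := by
        rw [← Real.mul_rpow (Nat.cast_nonneg _) (Nat.cast_nonneg _), Real.rpow_neg (by positivity), one_div]
        congr 2
        push_cast; ring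
      have hpi : Real.pi ≠ 0 := Real.pi_ne_zero
      have e2 : ∀ x y z w p : ℝ, x / Real.pi * y * (z / Real.pi * w) / 2 = x * z * (y * w) / (2 * Real.pi^2) := by
        intro x y z w p; field_simp
      rw [e2 _ _ _ _ 0, e1]
      ring
    simp only [hterm] at n1 n2
    rw [n2, tsum_div_const]
  · intro S h1 h2 h3
    obtain ⟨κ, hκ, y0, h3⟩ := h3
    have hS : MSet S := MSet_of h1 h2 hκ h3
    obtain ⟨k1, k2⟩ := main_S hS ag_Bdw ag_zero wg_Wt En_SandW one_pos a b (fun i => ha i) hμ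
    refine ⟨?_, ?_⟩
    · intro f hf hC η hη
      obtain ⟨N0, h⟩ := k1 f hf hC η hη
      refine ⟨N0, fun N hN α g hg1 hg2 => ?_⟩
      have h4 := h N hN α g ⟨hg1, hg2⟩
      simp only [hev, he] at h4
      rw [hset]
      exact h4
    · intro D hD η hη
      obtain ⟨N0, h⟩ := k2 D hD η hη
      refine ⟨N0, fun N hN α g hg1 hg2 => ?_⟩
      have h4 := h N hN α g ⟨hg1, hg2⟩
      simp only [hev, he] at h4
      rw [hset]
      exact h4
  · intro D hD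
    obtain ⟨k1, k2⟩ := main_S two_squares ag_Bdw ag_zero wg_Wt En_SandW one_pos a b (fun i => ha i) hμ
    have h5 := prop_of_sum two_squares (x := fun n => SU.ev En 1 a b n) (D := D) (L := (μ : Measure (Fin k → ℝ)).real D) (by
      intro η hη
      obtain ⟨N0, h⟩ := k2 D hD η hη
      exact ⟨N0, fun N hN => h N hN 0 (fun _ => 1) ⟨fun n => by simp, fun m n _ => by simp⟩⟩)
    simp only [hev] at h5
    refine h5.congr (fun N => ?_)
    congr!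

end Pool.Agent.D0H53.SQ
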